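import Pool.Agent.PCX.Stmts

/-!
# [Abs] uniform bound of the discrete logarithmic moments
-/

set_option autoImplicit false

namespace Pool.Agent.PCX

open Finset Filter

theorem absLog_sum (n : ℕ) : ∑ j ∈ range n, 1 / √((j : ℝ) + 1) ≤ 2 * √(n : ℝ) := by
  induction n with
  | zero => simp
  | succ n ih =>
    rw [Finset.sum_range_succ]
    have hn : (0 : ℝ) ≤ n := Nat.cast_nonneg n
    have h1 : (0 : ℝ) < √((n : ℝ) + 1) := Real.sqrt_pos.2 (by linarith)
    have h2 : √((n : ℝ) + 1) ^ 2 = n + 1 := Real.sq_sqrt (by linarith)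
    have h3 : √(n : ℝ) ^ 2 = n := Real.sq_sqrt hn
    have h4 : 1 / √((n : ℝ) + 1) ≤ 2 * √((n : ℝ) + 1) - 2 * √(n : ℝ) := by
      rw [div_le_iff₀ h1]
      nlinarith [sq_nonneg (√((n : ℝ) + 1) - √(n : ℝ))]
    push_cast
    linarith

theorem absLog_pow (k : ℕ) {x : ℝ} (hx : 1 ≤ x) :
    (2 + Real.log x) ^ k ≤ 2 ^ k * (k.factorial : ℝ) * Real.exp 1 * √x := by
  have hx0 : 0 < x := by linarith
  have hl : 0 ≤ Real.log x := Real.log_nonneg hx
  have h1 := Real.pow_div_factorial_le_exp ((2 + Real.log x) / 2) (by linarith) k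
  have h2 : Real.exp ((2 + Real.log x) / 2) = Real.exp 1 * √x := by
    rw [show (2 + Real.log x) / 2 = 1 + Real.log x / 2 by ring, Real.exp_add]
    congr 1
    rw [← Real.log_sqrt hx0.le, Real.exp_log (Real.sqrt_pos.2 hx0)]
  have hf : (0 : ℝ) < k.factorial := by exact_mod_cast k.factorial_pos
  rw [h2, div_le_iff₀ hf, div_pow, div_le_iff₀ (by positivity)] at h1
  calc (2 + Real.log x) ^ k ≤ Real.exp 1 * √x * (k.factorial : ℝ) * 2 ^ k := h1
    _ = _ := by ring

theorem absLog_term {m i j : ℕ} (hm : 2 ≤ m) (hi : i < m) (hj : j < m) (k : ℕ) :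
    |Real.log ((2 * ((i : ℝ) + j) + 3) / m)| ^ k *
      (1 + Real.log m / Real.log (2 * ((i : ℝ) + j) + 3)) ≤
    (2 + Real.log (m / ((j : ℝ) + 1))) ^ (k + 1) := by
  have hm' : (2 : ℝ) ≤ m := by exact_mod_cast hm
  have hm0 : (0 : ℝ) < m := by linarith
  have hi' : (i : ℝ) + 1 ≤ m := by exact_mod_cast hi
  have hj' : (j : ℝ) + 1 ≤ m := by exact_mod_cast hj
  have hi0 : (0 : ℝ) ≤ i := Nat.cast_nonneg i
  have hj0 : (0 : ℝ) ≤ j := Nat.cast_nonneg j
  have hj1 : (0 : ℝ) < (j : ℝ) + 1 := by linarith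
  set a : ℝ := 2 * ((i : ℝ) + j) + 3 with ha
  have ha3 : 3 ≤ a := by rw [ha]; linarith
  have haj : (j : ℝ) + 1 ≤ a := by rw [ha]; linarith
  have ham : a ≤ 4 * m := by rw [ha]; linarith
  have hla : 1 ≤ Real.log a := by
    rw [Real.le_log_iff_exp_le (by linarith)]
    have := Real.exp_one_lt_d9
    linarith
  have hx : 0 ≤ Real.log (m / ((j : ℝ) + 1)) := by
    apply Real.log_nonneg
    rw [le_div_iff₀ hj1]
    linarith
  have h1 : |Real.log (a / m)| ≤ 2 + Real.log (m / ((j : ℝ) + 1)) := by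
    rw [abs_le]
    constructor
    · have h2 : Real.log (((j : ℝ) + 1) / m) ≤ Real.log (a / m) := by
        apply Real.log_le_log (by positivity)
        exact div_le_div_of_nonneg_right haj hm0.le
      have h3 : Real.log (((j : ℝ) + 1) / m) = -Real.log (m / ((j : ℝ) + 1)) := by
        rw [← Real.log_inv, inv_div]
      linarith
    · have h2 : Real.log (a / m) ≤ Real.log 4 := by
        apply Real.log_le_log (by positivity)
        rw [div_le_iff₀ hm0]
        exact ham
      have h3 : Real.log 4 ≤ 2 := by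
        rw [show (4 : ℝ) = 2 ^ 2 by norm_num, Real.log_pow]
        have := Real.log_two_lt_d9
        push_cast
        linarith
      linarith
  have h2 : 1 + Real.log m / Real.log a ≤ 2 + Real.log (m / ((j : ℝ) + 1)) := by
    have h3 : Real.log m = Real.log (m / ((j : ℝ) + 1)) + Real.log ((j : ℝ) + 1) := by
      rw [← Real.log_mul (by positivity) (by positivity), div_mul_cancel₀ _ hj1.ne']
    have h4 : Real.log ((j : ℝ) + 1) ≤ Real.log a := Real.log_le_log hj1 haj
    have h5 : Real.log m / Real.log a ≤ 1 + Real.log (m / ((j : ℝ) + 1)) := by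
      rw [div_le_iff₀ (by linarith)]
      nlinarith
    linarith
  have h3 : 0 ≤ 1 + Real.log m / Real.log a := by
    have : 0 ≤ Real.log m := Real.log_nonneg (by linarith)
    positivity
  rw [pow_succ]
  exact mul_le_mul (pow_le_pow_left₀ (abs_nonneg _) h1 k) h2 h3 (by positivity)

theorem main_Abs : Stmt_Abs := by
  intro k
  refine ⟨2 * (2 ^ (k + 1) * ((k + 1).factorial : ℝ) * Real.exp 1), fun m hm i hi => ?_⟩
  have hm' : (2 : ℝ) ≤ m := by exact_mod_cast hm
  have hm0 : (0 : ℝ) < m := by linarith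
  set D : ℝ := 2 ^ (k + 1) * ((k + 1).factorial : ℝ) * Real.exp 1 with hD
  have hD0 : 0 ≤ D := by rw [hD]; positivity
  have hsum : ∑ j ∈ range m, |Real.log ((2 * ((i : ℝ) + j) + 3) / m)| ^ k *
      (1 + Real.log m / Real.log (2 * ((i : ℝ) + j) + 3)) ≤ D * √(m : ℝ) * (2 * √(m : ℝ)) := by
    calc ∑ j ∈ range m, |Real.log ((2 * ((i : ℝ) + j) + 3) / m)| ^ k *
          (1 + Real.log m / Real.log (2 * ((i : ℝ) + j) + 3))
        ≤ ∑ j ∈ range m, D * √(m : ℝ) * (1 / √((j : ℝ) + 1)) := by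
          refine Finset.sum_le_sum fun j hj => ?_
          rw [Finset.mem_range] at hj
          have hj' : (j : ℝ) + 1 ≤ m := by exact_mod_cast hj
          have hj1 : (0 : ℝ) < (j : ℝ) + 1 := by positivity
          refine (absLog_term hm hi hj k).trans ?_
          have h1 := absLog_pow (k + 1) (x := m / ((j : ℝ) + 1))
            (by rw [le_div_iff₀ hj1]; linarith)
          rw [Real.sqrt_div' _ hj1.le] at h1
          refine h1.trans (le_of_eq ?_)
          rw [hD]
          ring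
      _ = D * √(m : ℝ) * ∑ j ∈ range m, 1 / √((j : ℝ) + 1) := by rw [Finset.mul_sum]
      _ ≤ D * √(m : ℝ) * (2 * √(m : ℝ)) :=
          mul_le_mul_of_nonneg_left (absLog_sum m) (by positivity)
  calc 1 / (m : ℝ) * ∑ j ∈ range m, |Real.log ((2 * ((i : ℝ) + j) + 3) / m)| ^ k *
        (1 + Real.log m / Real.log (2 * ((i : ℝ) + j) + 3))
      ≤ 1 / (m : ℝ) * (D * √(m : ℝ) * (2 * √(m : ℝ))) :=
        mul_le_mul_of_nonneg_left hsum (by positivity)
    _ = 2 * D := by
        have h1 : √(m : ℝ) * √(m : ℝ) = m := Real.mul_self_sqrt hm0.le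
        have h2 : D * √(m : ℝ) * (2 * √(m : ℝ)) = 2 * D * m := by
          calc D * √(m : ℝ) * (2 * √(m : ℝ)) = 2 * D * (√(m : ℝ) * √(m : ℝ)) := by ring
            _ = _ := by rw [h1]
        rw [h2]
        field_simp

end Pool.Agent.PCX
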