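import Pool.Agent.PCX.Stmts2

/-!
# The second coefficient in terms of integrals
-/

set_option autoImplicit false

namespace Pool.Agent.PCX

open Finset Filter Topology

private theorem c2a_cont {B : ℝ} {f : ℝ → ℝ} (h : HB B f) : ContinuousOn f (Set.Icc 0 1) := by
  intro u hu
  have h1 : Tendsto (fun v => B * √|v - u|) (𝓝[Set.Icc 0 1] u) (𝓝 0) := by
    have hc : Continuous fun v : ℝ => B * √|v - u| := by fun_prop
    have h2 := hc.tendsto u
    rw [sub_self, abs_zero, Real.sqrt_zero, mul_zero] at h2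
    exact h2.mono_left nhdsWithin_le_nhds
  have h3 : Tendsto (fun v => f v - f u) (𝓝[Set.Icc 0 1] u) (𝓝 0) := by
    refine squeeze_zero_norm' ?_ h1
    filter_upwards [self_mem_nhdsWithin] with v hv
    exact h.2 v hv u hu
  have h4 := h3.add_const (f u)
  simp only [sub_add_cancel, zero_add] at h4
  exact h4

private theorem c2a_intg {f : ℝ → ℝ} (h : ContinuousOn f (Set.Icc 0 1)) :
    IntervalIntegrable f MeasureTheory.volume 0 1 := by
  refine ContinuousOn.intervalIntegrable ?_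
  rw [Set.uIcc_of_le zero_le_one]
  exact h

private theorem c2a_T_zero (f : ℝ → ℝ) (u : ℝ) : T 0 f u = ∫ v in (0 : ℝ)..1, f v := by
  unfold T
  simp

private theorem c2a_T_lin (h1 : Stmt_Tk) (k : ℕ) {f g : ℝ → ℝ} {c : ℝ}
    (hf : ContinuousOn f (Set.Icc 0 1)) (hg : ContinuousOn g (Set.Icc 0 1)) {u : ℝ}
    (hu : u ∈ Set.Icc (0 : ℝ) 1) :
    T k (fun v => f v + c * g v) u = T k f u + c * T k g u := by
  obtain ⟨C, -, -, -, h3⟩ := h1 k
  exact h3 c f g hf hg u hu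

private theorem c2a_tendsto_of_bound {F : ℝ → ℝ} {L c s₁ : ℝ} (hs₁ : 0 < s₁)
    (h : ∀ s, 0 < s → s ≤ s₁ → |F s - L| ≤ c * s) : Tendsto F (𝓝[>] 0) (𝓝 L) := by
  have h4 : Tendsto (fun s : ℝ => c * s) (𝓝[>] 0) (𝓝 0) := by
    have hcc : Continuous fun s : ℝ => c * s := by fun_prop
    have h5 := hcc.tendsto 0
    rw [mul_zero] at h5
    exact h5.mono_left nhdsWithin_le_nhds
  have h6 : Tendsto (fun s : ℝ => F s - L) (𝓝[>] 0) (𝓝 0) := by
    refine squeeze_zero_norm' ?_ h4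
    filter_upwards [Ioc_mem_nhdsGT hs₁] with s hs
    exact h s hs.1 hs.2
  have h7 := h6.add_const L
  simp only [sub_add_cancel, zero_add] at h7
  exact h7

private theorem c2a_T_tendsto (h1 : Stmt_Tk) (k : ℕ) {f : ℝ → ℝ → ℝ} {f₀ : ℝ → ℝ} {c s₁ : ℝ}
    (hs₁ : 0 < s₁) (hc : 0 ≤ c) (hf : ∀ s, ContinuousOn (f s) (Set.Icc 0 1))
    (hf₀ : ContinuousOn f₀ (Set.Icc 0 1))
    (h : ∀ s, 0 < s → s ≤ s₁ → ∀ v ∈ Set.Icc (0 : ℝ) 1, |f s v - f₀ v| ≤ c * s)
    {u : ℝ} (hu : u ∈ Set.Icc (0 : ℝ) 1) :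
    Tendsto (fun s : ℝ => T k (f s) u) (𝓝[>] 0) (𝓝 (T k f₀ u)) := by
  obtain ⟨C, hC, -, h2, h3⟩ := h1 k
  refine c2a_tendsto_of_bound hs₁ (c := C * c) fun s hs hs1 => ?_
  have e := h3 (-1) (f s) f₀ (hf s) hf₀ u hu
  have e2 : T k (f s) u - T k f₀ u = T k (fun v => f s v + -1 * f₀ v) u := by
    rw [e]; ring
  rw [e2]
  calc |T k (fun v => f s v + -1 * f₀ v) u| ≤ C * (c * s) := by
        refine h2 (c * s) _ (mul_nonneg hc hs.le) ((hf s).add (continuousOn_const.mul hf₀))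
          (fun v hv => ?_) u hu
        have e3 : f s v + -1 * f₀ v = f s v - f₀ v := by ring
        change |f s v + -1 * f₀ v| ≤ c * s
        rw [e3]
        exact h s hs hs1 v hv
    _ = C * c * s := by ring

private theorem c2a_exp_est {b s x y : ℝ} (hb : 0 ≤ b) (hs : 0 < s) (hs1 : s ≤ 1)
    (hx : |x| ≤ b) (hy : |y| ≤ b) (h1 : 2 * b * s ≤ 1) :
    |(Real.exp (s * x + s ^ 2 * y) - (1 + s * x)) / s ^ 2 - (y + x ^ 2 / 2)| ≤
      (2 * b ^ 2 + 8 * b ^ 3) * s := by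
  have hs2 : 0 < s ^ 2 := pow_pos hs 2
  have hz : |s * x + s ^ 2 * y| ≤ 2 * b * s := by
    refine (abs_add_le _ _).trans ?_
    rw [abs_mul, abs_mul, abs_of_pos hs, abs_of_pos hs2]
    have e1 : s * |x| ≤ s * b := mul_le_mul_of_nonneg_left hx hs.le
    have e2 : s ^ 2 * |y| ≤ s * b := by
      have e3 : s ^ 2 ≤ s := by nlinarith
      exact mul_le_mul e3 hy (abs_nonneg _) hs.le
    linarith
  have hr := Real.exp_bound (hz.trans h1) (n := 3) (by norm_num)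
  have hsum : ∑ m ∈ range 3, (s * x + s ^ 2 * y) ^ m / (m.factorial : ℝ) =
      1 + (s * x + s ^ 2 * y) + (s * x + s ^ 2 * y) ^ 2 / 2 := by
    simp [Finset.sum_range_succ, Nat.factorial]
  rw [hsum] at hr
  set z := s * x + s ^ 2 * y with hzdef
  have hr2 : |Real.exp z - (1 + z + z ^ 2 / 2)| ≤ 8 * b ^ 3 * s ^ 3 := by
    refine hr.trans ?_
    have e1 : |z| ^ 3 ≤ (2 * b * s) ^ 3 := pow_le_pow_left₀ (abs_nonneg _) hz 3
    have e2 : ((Nat.succ 3 : ℕ) : ℝ) / (((3 : ℕ).factorial : ℝ) * ((3 : ℕ) : ℝ)) ≤ 1 := by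
      norm_num [Nat.factorial]
    calc |z| ^ 3 * (((Nat.succ 3 : ℕ) : ℝ) / (((3 : ℕ).factorial : ℝ) * ((3 : ℕ) : ℝ)))
        ≤ |z| ^ 3 * 1 := mul_le_mul_of_nonneg_left e2 (by positivity)
      _ ≤ (2 * b * s) ^ 3 := by rw [mul_one]; exact e1
      _ = 8 * b ^ 3 * s ^ 3 := by ring
  have e : (Real.exp z - (1 + s * x)) / s ^ 2 - (y + x ^ 2 / 2) =
      (Real.exp z - (1 + z + z ^ 2 / 2)) / s ^ 2 + s * (x * y) + s ^ 2 * (y ^ 2 / 2) := by
    rw [hzdef]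
    field_simp
    ring
  rw [e]
  have hxy : |x * y| ≤ b ^ 2 := by
    rw [abs_mul, sq]
    exact mul_le_mul hx hy (abs_nonneg _) hb
  have hyy : |y ^ 2 / 2| ≤ b ^ 2 := by
    rw [abs_of_nonneg (by positivity)]
    have : y ^ 2 ≤ b ^ 2 := by
      rw [← sq_abs]
      exact pow_le_pow_left₀ (abs_nonneg _) hy 2
    linarith [sq_nonneg y]
  have f1 : |(Real.exp z - (1 + z + z ^ 2 / 2)) / s ^ 2| ≤ 8 * b ^ 3 * s := by
    rw [abs_div, abs_of_pos hs2, div_le_iff₀ hs2]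
    calc _ ≤ 8 * b ^ 3 * s ^ 3 := hr2
      _ = 8 * b ^ 3 * s * s ^ 2 := by ring
  have f2 : |s * (x * y)| ≤ b ^ 2 * s := by
    rw [abs_mul, abs_of_pos hs, mul_comm]
    exact mul_le_mul_of_nonneg_right hxy hs.le
  have f3 : |s ^ 2 * (y ^ 2 / 2)| ≤ b ^ 2 * s := by
    rw [abs_mul, abs_of_pos hs2, mul_comm]
    have e3 : s ^ 2 ≤ s := by nlinarith
    exact mul_le_mul hyy e3 hs2.le (by positivity)
  calc _ ≤ |(Real.exp z - (1 + z + z ^ 2 / 2)) / s ^ 2| + |s * (x * y)| +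
        |s ^ 2 * (y ^ 2 / 2)| := abs_add_three _ _ _
    _ ≤ 8 * b ^ 3 * s + b ^ 2 * s + b ^ 2 * s := by linarith
    _ = (2 * b ^ 2 + 8 * b ^ 3) * s := by ring

/-- comparison of coefficients -/
private theorem c2a_coeff (h1 : Stmt_Tk) {g : ℕ → ℝ → ℝ} (hg : ∀ k, ∃ B, HB B (g k))
    (hE : ∃ C s₀ : ℝ, 0 < s₀ ∧ ∀ s, 0 < s → s ≤ s₀ → ∀ u ∈ Set.Icc (0 : ℝ) 1,
      |EE g 2 3 s u - 1| ≤ C * s ^ 3) {u : ℝ} (hu : u ∈ Set.Icc (0 : ℝ) 1) :
    g 1 u + ((∫ v in (0 : ℝ)..1, g 1 v) - T 1 (fun _ => 1) u) = 0 ∧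
    (g 2 u + g 1 u ^ 2 / 2) + g 1 u * ((∫ v in (0 : ℝ)..1, g 1 v) - T 1 (fun _ => 1) u) +
      ((∫ v in (0 : ℝ)..1, (g 2 v + g 1 v ^ 2 / 2)) - T 1 (g 1) u + T 2 (fun _ => 1) u) = 0 := by
  obtain ⟨b1, hb1⟩ := hg 1
  obtain ⟨b2, hb2⟩ := hg 2
  obtain ⟨C, s₀, hs₀, hE⟩ := hE
  set b : ℝ := |b1| + |b2| with hbdef
  have hb : 0 ≤ b := by positivity
  have hx : ∀ v ∈ Set.Icc (0 : ℝ) 1, |g 1 v| ≤ b := fun v hv => by
    have := (hb1.1 v hv).trans (le_abs_self b1)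
    linarith [abs_nonneg b2]
  have hy : ∀ v ∈ Set.Icc (0 : ℝ) 1, |g 2 v| ≤ b := fun v hv => by
    have := (hb2.1 v hv).trans (le_abs_self b2)
    linarith [abs_nonneg b1]
  set s₁ : ℝ := min 1 (1 / (2 * b + 1)) with hs₁
  have hs₁p : 0 < s₁ := by positivity
  have hs₁1 : s₁ ≤ 1 := min_le_left _ _
  have hs₁2 : 2 * b * s₁ ≤ 1 := by
    have h2 : s₁ ≤ 1 / (2 * b + 1) := min_le_right _ _
    have h3 : 0 < 2 * b + 1 := by positivity
    rw [le_div_iff₀ h3] at h2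
    nlinarith
  have hg1c := c2a_cont hb1
  have hg2c := c2a_cont hb2
  set β : ℝ → ℝ := fun v => g 2 v + g 1 v ^ 2 / 2 with hβ
  have hβc : ContinuousOn β (Set.Icc 0 1) := hg2c.add ((hg1c.pow 2).div_const 2)
  set D : ℝ → ℝ → ℝ := fun s v => (Real.exp (s * g 1 v + s ^ 2 * g 2 v) - (1 + s * g 1 v)) / s ^ 2
    with hD
  have hDc : ∀ s, ContinuousOn (D s) (Set.Icc 0 1) := fun s =>
    (((continuousOn_const.mul hg1c).add (continuousOn_const.mul hg2c)).rexp.sub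
      (continuousOn_const.add (continuousOn_const.mul hg1c))).div_const _
  have hDest : ∀ s, 0 < s → s ≤ s₁ → ∀ v ∈ Set.Icc (0 : ℝ) 1,
      |D s v - β v| ≤ (2 * b ^ 2 + 8 * b ^ 3) * s := by
    intro s hs hs1 v hv
    exact c2a_exp_est hb hs (hs1.trans hs₁1) (hx v hv) (hy v hv)
      ((mul_le_mul_of_nonneg_left hs1 (by positivity)).trans hs₁2)
  have tD : Tendsto (fun s : ℝ => D s u) (𝓝[>] 0) (𝓝 (β u)) :=
    c2a_tendsto_of_bound hs₁p fun s hs hs1 => hDest s hs hs1 u hu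
  have tT : ∀ k : ℕ, Tendsto (fun s : ℝ => T k (D s) u) (𝓝[>] 0) (𝓝 (T k β u)) := fun k =>
    c2a_T_tendsto h1 k hs₁p (by positivity) hDc hβc hDest hu
  have ts : Tendsto (fun s : ℝ => s) (𝓝[>] 0) (𝓝 0) :=
    (continuous_id.tendsto (0 : ℝ)).mono_left nhdsWithin_le_nhds
  set σ : ℝ := (∫ v in (0 : ℝ)..1, g 1 v) - T 1 (fun _ => 1) u with hσ
  set ρ : ℝ → ℝ := fun s => T 0 (D s) u - T 1 (g 1) u + T 2 (fun _ => 1) u - s * T 1 (D s) u +
    s * T 2 (g 1) u + s ^ 2 * T 2 (D s) u with hρ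
  have tρ : Tendsto ρ (𝓝[>] 0) (𝓝 (T 0 β u - T 1 (g 1) u + T 2 (fun _ => 1) u)) := by
    have h2 := (((((tT 0).sub_const (T 1 (g 1) u)).add_const (T 2 (fun _ => 1) u)).sub
      (ts.mul (tT 1))).add (ts.mul_const (T 2 (g 1) u))).add ((ts.pow 2).mul (tT 2))
    simpa using h2
  set R : ℝ → ℝ := fun s => (D s u + g 1 u * σ + ρ s) + s * (D s u * σ + g 1 u * ρ s) +
    s ^ 2 * (D s u * ρ s) with hR
  have tR : Tendsto R (𝓝[>] 0)
      (𝓝 (β u + g 1 u * σ + (T 0 β u - T 1 (g 1) u + T 2 (fun _ => 1) u))) := by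
    have h2 := (((tD.add_const (g 1 u * σ)).add tρ).add (ts.mul ((tD.mul_const σ).add
      (tρ.const_mul (g 1 u))))).add ((ts.pow 2).mul (tD.mul tρ))
    simpa using h2
  have key : ∀ s, 0 < s → EE g 2 3 s u - 1 = s * (g 1 u + σ) + s ^ 2 * R s := by
    intro s hs
    have hGG : ∀ v, GG g 2 s v = s * g 1 v + s ^ 2 * g 2 v := by
      intro v
      unfold GG
      rw [show Icc 1 2 = ({1, 2} : Finset ℕ) from rfl, Finset.sum_pair (by norm_num), pow_one]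
    have hA : ∀ v, Real.exp (GG g 2 s v) = (1 + s * g 1 v) + s ^ 2 * D s v := by
      intro v
      rw [hGG]
      simp only [hD]
      have : s ≠ 0 := hs.ne'
      field_simp
      ring
    have hT : ∀ k : ℕ, T k (fun v => Real.exp (GG g 2 s v)) u =
        T k (fun _ => 1) u + s * T k (g 1) u + s ^ 2 * T k (D s) u := by
      intro k
      have e1 : (fun v => Real.exp (GG g 2 s v)) = fun v => (1 + s * g 1 v) + s ^ 2 * D s v := by
        ext v
        exact hA v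
      rw [e1, c2a_T_lin h1 k (f := fun v => 1 + s * g 1 v)
        (continuousOn_const.add (continuousOn_const.mul hg1c)) (hDc s) hu,
        c2a_T_lin h1 k (f := fun _ => 1) continuousOn_const hg1c hu]
    unfold EE
    simp only [Finset.sum_range_succ, Finset.sum_range_zero, hT]
    rw [hA]
    have e0 : T 0 (fun _ => 1) u = 1 := by
      rw [c2a_T_zero]
      simp
    have e1 : T 0 (g 1) u = ∫ v in (0 : ℝ)..1, g 1 v := c2a_T_zero _ _
    rw [e0, e1]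
    simp only [hR, hρ, hσ]
    ring
  have tz1 : Tendsto (fun s : ℝ => (g 1 u + σ) + s * R s) (𝓝[>] 0) (𝓝 0) := by
    refine c2a_tendsto_of_bound (lt_min hs₀ one_pos) (c := C) fun s hs hs1 => ?_
    have h2 := hE s hs (hs1.trans (min_le_left _ _)) u hu
    rw [key s hs] at h2
    have e : s * (g 1 u + σ) + s ^ 2 * R s = s * ((g 1 u + σ) + s * R s) := by ring
    rw [e, abs_mul, abs_of_pos hs] at h2
    rw [sub_zero]
    have hC : 0 ≤ C := by
      have h4 : 0 ≤ C * s ^ 3 := (by positivity : (0 : ℝ) ≤ _).trans h2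
      exact nonneg_of_mul_nonneg_left h4 (pow_pos hs _)
    have h3 : s * |g 1 u + σ + s * R s| ≤ s * (C * s) := by
      refine h2.trans ?_
      have h5 : s ≤ 1 := hs1.trans (min_le_right _ _)
      have h6 : C * s ^ 3 ≤ C * s ^ 2 :=
        mul_le_mul_of_nonneg_left (pow_le_pow_of_le_one hs.le h5 (by norm_num)) hC
      calc C * s ^ 3 ≤ C * s ^ 2 := h6
        _ = s * (C * s) := by ring
    exact le_of_mul_le_mul_left h3 hs
  have tz2 : Tendsto (fun s : ℝ => (g 1 u + σ) + s * R s) (𝓝[>] 0) (𝓝 (g 1 u + σ)) := by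
    have h2 := (ts.mul tR).const_add (g 1 u + σ)
    simpa using h2
  have hc1 : g 1 u + σ = 0 := tendsto_nhds_unique tz2 tz1
  refine ⟨hc1, ?_⟩
  have tz3 : Tendsto R (𝓝[>] 0) (𝓝 0) := by
    refine c2a_tendsto_of_bound hs₀ (c := C) fun s hs hs1 => ?_
    have h2 := hE s hs hs1 u hu
    rw [key s hs, hc1, mul_zero, zero_add, abs_mul, abs_of_pos (pow_pos hs 2)] at h2
    rw [sub_zero]
    have h3 : s ^ 2 * |R s| ≤ s ^ 2 * (C * s) := by
      refine h2.trans (le_of_eq ?_)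
      ring
    exact le_of_mul_le_mul_left h3 (pow_pos hs 2)
  have h5 := tendsto_nhds_unique tR tz3
  rw [c2a_T_zero] at h5
  exact h5

/-- [C2a] -/
theorem main_C2a (h1 : Stmt_Tk) (h2 : Stmt_Fub) : Stmt_C2a := by
  intro g hg hE
  obtain ⟨b1, hb1⟩ := hg 1
  obtain ⟨b2, hb2⟩ := hg 2
  have hg1c := c2a_cont hb1
  have hg2c := c2a_cont hb2
  have hone : HB 1 (fun _ => (1 : ℝ)) :=
    ⟨fun u _ => by simp, fun u _ v _ => by simp⟩
  have hTc : ∀ (k : ℕ) {B : ℝ} {f : ℝ → ℝ}, HB B f → ContinuousOn (T k f) (Set.Icc 0 1) := by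
    intro k B f hf
    obtain ⟨C, -, h3, -, -⟩ := h1 k
    have hB : 0 ≤ B := (abs_nonneg _).trans (hf.1 0 ⟨le_rfl, zero_le_one⟩)
    exact c2a_cont (h3 B f hB hf)
  have hlc := hTc 1 hone
  have hc1 : ∀ u ∈ Set.Icc (0 : ℝ) 1,
      g 1 u = T 1 (fun _ => 1) u - ∫ v in (0 : ℝ)..1, g 1 v := by
    intro u hu
    have := (c2a_coeff h1 hg hE hu).1
    linarith
  have hc2 : ∀ u ∈ Set.Icc (0 : ℝ) 1, g 2 u - g 1 u ^ 2 / 2 +
      ((∫ v in (0 : ℝ)..1, (g 2 v + g 1 v ^ 2 / 2)) - T 1 (g 1) u + T 2 (fun _ => 1) u) = 0 := by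
    intro u hu
    obtain ⟨e1, e2⟩ := c2a_coeff h1 hg hE hu
    have e3 : (∫ v in (0 : ℝ)..1, g 1 v) - T 1 (fun _ => 1) u = - g 1 u := by linarith
    rw [e3] at e2
    linarith
  set μ : ℝ := ∫ v in (0 : ℝ)..1, g 1 v with hμ
  set lam : ℝ := ∫ u in (0 : ℝ)..1, T 1 (fun _ => 1) u with hlam
  have hlamμ : lam = 2 * μ := by
    have e1 : ∫ u in (0 : ℝ)..1, g 1 u =
        ∫ u in (0 : ℝ)..1, (T 1 (fun _ => 1) u - μ) := by
      refine intervalIntegral.integral_congr fun u hu => ?_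
      rw [Set.uIcc_of_le zero_le_one] at hu
      exact hc1 u hu
    rw [intervalIntegral.integral_sub (c2a_intg hlc) intervalIntegrable_const] at e1
    rw [intervalIntegral.integral_const, ← hlam, ← hμ] at e1
    simp only [sub_zero, one_smul] at e1
    linarith
  have hsq : IntervalIntegrable (fun v => g 1 v ^ 2 / 2) MeasureTheory.volume 0 1 :=
    c2a_intg ((hg1c.pow 2).div_const 2)
  have hβ : ∫ v in (0 : ℝ)..1, (g 2 v + g 1 v ^ 2 / 2) =
      (∫ v in (0 : ℝ)..1, g 2 v) + ∫ v in (0 : ℝ)..1, g 1 v ^ 2 / 2 :=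
    intervalIntegral.integral_add (c2a_intg hg2c) hsq
  set β0 : ℝ := ∫ v in (0 : ℝ)..1, (g 2 v + g 1 v ^ 2 / 2) with hβ0
  have hT1 : IntervalIntegrable (T 1 (g 1)) MeasureTheory.volume 0 1 := c2a_intg (hTc 1 hb1)
  have hT2 : IntervalIntegrable (T 2 (fun _ => 1)) MeasureTheory.volume 0 1 :=
    c2a_intg (hTc 2 hone)
  have hint : (∫ v in (0 : ℝ)..1, g 2 v) - (∫ v in (0 : ℝ)..1, g 1 v ^ 2 / 2) +
      (β0 - (∫ v in (0 : ℝ)..1, T 1 (g 1) v) + ∫ v in (0 : ℝ)..1, T 2 (fun _ => 1) v) = 0 := by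
    have e1 : ∫ u in (0 : ℝ)..1, (g 2 u - g 1 u ^ 2 / 2 +
        (β0 - T 1 (g 1) u + T 2 (fun _ => 1) u)) = 0 := by
      have e2 : ∫ u in (0 : ℝ)..1, (g 2 u - g 1 u ^ 2 / 2 +
          (β0 - T 1 (g 1) u + T 2 (fun _ => 1) u)) = ∫ u in (0 : ℝ)..1, (0 : ℝ) := by
        refine intervalIntegral.integral_congr fun u hu => ?_
        rw [Set.uIcc_of_le zero_le_one] at hu
        exact hc2 u hu
      rw [e2]
      simp
    rw [intervalIntegral.integral_add ((c2a_intg hg2c).sub hsq)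
      ((intervalIntegrable_const.sub hT1).add hT2),
      intervalIntegral.integral_sub (c2a_intg hg2c) hsq,
      intervalIntegral.integral_add (intervalIntegrable_const.sub hT1) hT2,
      intervalIntegral.integral_sub intervalIntegrable_const hT1,
      intervalIntegral.integral_const] at e1
    simpa using e1
  have hFub := h2 (g 1) hg1c
  have hM : ∫ u in (0 : ℝ)..1, g 1 u * T 1 (fun _ => 1) u =
      (∫ u in (0 : ℝ)..1, T 1 (fun _ => 1) u ^ 2) - μ * lam := by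
    have e1 : ∫ u in (0 : ℝ)..1, g 1 u * T 1 (fun _ => 1) u =
        ∫ u in (0 : ℝ)..1, (T 1 (fun _ => 1) u ^ 2 - μ * T 1 (fun _ => 1) u) := by
      refine intervalIntegral.integral_congr fun u hu => ?_
      rw [Set.uIcc_of_le zero_le_one] at hu
      have e2 := hc1 u hu
      change g 1 u * T 1 (fun _ => 1) u = T 1 (fun _ => 1) u ^ 2 - μ * T 1 (fun _ => 1) u
      rw [e2]
      ring
    have i1 : IntervalIntegrable (fun u => T 1 (fun _ => 1) u ^ 2) MeasureTheory.volume 0 1 :=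
      c2a_intg (hlc.pow 2)
    have i2 : IntervalIntegrable (fun u => μ * T 1 (fun _ => 1) u) MeasureTheory.volume 0 1 :=
      c2a_intg (continuousOn_const.mul hlc)
    rw [e1, intervalIntegral.integral_sub i1 i2, intervalIntegral.integral_const_mul]
  rw [hM] at hFub
  rw [hFub, hβ] at hint
  rw [hlamμ] at hint ⊢
  linarith

end Pool.Agent.PCX
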