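import Pool.Agent.PCX.Stmts

/-!
# [Ds] Multi-edge Ore-Ryser theorem and doubly stochastic matrices below a given matrix
-/

set_option autoImplicit false

namespace Pool.Agent.PCX

open Finset Filter

section Ds_Hall

variable {α β ε : Type} [Fintype α] [Fintype β] [Fintype ε] [DecidableEq α] [DecidableEq β]
  [DecidableEq ε]

/-- The neighbourhoods in the auxiliary bipartite graph. -/
def Ds_nb (src : ε → α) (tgt : ε → β) (r : ℕ) :
    (α × Fin r) ⊕ ε → Finset ((β × Fin r) ⊕ ε)
  | Sum.inl ak => (univ.filter (fun e : ε => src e = ak.1)).map Function.Embedding.inr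
  | Sum.inr e => insert (Sum.inr e)
      ((univ.filter (fun yk : β × Fin r => yk.1 = tgt e)).map Function.Embedding.inl)

theorem Ds_hall_cond (src : ε → α) (tgt : ε → β) (r : ℕ)
    (hE : ∀ (X : Finset α) (Y : Finset β), r * (X.card + Y.card) ≤
      (univ.filter (fun e => src e ∈ X ∧ tgt e ∈ Y)).card + r * Fintype.card β)
    (s : Finset ((α × Fin r) ⊕ ε)) : s.card ≤ (s.biUnion (Ds_nb src tgt r)).card := by
  classical
  let X : Finset α := univ.filter (fun a => ∃ k : Fin r, Sum.inl (a, k) ∈ s)
  let F : Finset ε := univ.filter (fun e => (Sum.inr e : (α × Fin r) ⊕ ε) ∈ s)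
  let Y : Finset β := F.image tgt
  let P : Finset (α × Fin r) := X ×ˢ univ
  let Q : Finset (β × Fin r) := Y ×ˢ univ
  let G : Finset ε := univ.filter (fun e : ε => e ∈ F ∨ src e ∈ X)
  have h1 : s ⊆ P.disjSum F := by
    intro x hx
    rcases x with ⟨a, k⟩ | e
    · rw [Finset.inl_mem_disjSum]
      simp only [P, X, Finset.mem_product, Finset.mem_filter, Finset.mem_univ, true_and, and_true]
      exact ⟨k, hx⟩
    · rw [Finset.inr_mem_disjSum]
      simp only [F, Finset.mem_filter, Finset.mem_univ, true_and]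
      exact hx
  have h2 : Q.disjSum G ⊆ s.biUnion (Ds_nb src tgt r) := by
    intro x hx
    rw [Finset.mem_biUnion]
    rcases x with ⟨b, k⟩ | e
    · rw [Finset.inl_mem_disjSum] at hx
      simp only [Q, Y, Finset.mem_product, Finset.mem_univ, and_true, Finset.mem_image] at hx
      obtain ⟨e, he, heb⟩ := hx
      simp only [F, Finset.mem_filter, Finset.mem_univ, true_and] at he
      refine ⟨Sum.inr e, he, ?_⟩
      simp only [Ds_nb, Finset.mem_insert, Finset.mem_map, Finset.mem_filter, Finset.mem_univ,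
        true_and]
      exact Or.inr ⟨(b, k), heb.symm, rfl⟩
    · rw [Finset.inr_mem_disjSum] at hx
      simp only [G, Finset.mem_filter, Finset.mem_univ, true_and] at hx
      rcases hx with he | he
      · simp only [F, Finset.mem_filter, Finset.mem_univ, true_and] at he
        exact ⟨Sum.inr e, he, by simp [Ds_nb]⟩
      · simp only [X, Finset.mem_filter, Finset.mem_univ, true_and] at he
        obtain ⟨k, hk⟩ := he
        refine ⟨Sum.inl (src e, k), hk, ?_⟩
        simp only [Ds_nb, Finset.mem_map, Finset.mem_filter, Finset.mem_univ, true_and]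
        exact ⟨e, rfl, rfl⟩
  have h3 := Finset.card_le_card h1
  have h4 := Finset.card_le_card h2
  rw [Finset.card_disjSum] at h3 h4
  have hP : P.card = r * X.card := by
    simp only [P, Finset.card_product, Finset.card_univ, Fintype.card_fin]
    ring
  have hQ : Q.card = r * Y.card := by
    simp only [Q, Finset.card_product, Finset.card_univ, Fintype.card_fin]
    ring
  have hG : F.card + (univ.filter (fun e => src e ∈ X ∧ tgt e ∈ Yᶜ)).card ≤ G.card := by
    rw [← Finset.card_union_of_disjoint]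
    · apply Finset.card_le_card
      intro e he
      rw [Finset.mem_union] at he
      simp only [G, Finset.mem_filter, Finset.mem_univ, true_and]
      rcases he with he | he
      · exact Or.inl he
      · exact Or.inr (Finset.mem_filter.1 he).2.1
    · rw [Finset.disjoint_left]
      intro e he he'
      have h6 := (Finset.mem_filter.1 he').2.2
      rw [Finset.mem_compl] at h6
      exact h6 (Finset.mem_image_of_mem _ he)
  have h7 := hE X Yᶜ
  have h8 : Yᶜ.card + Y.card = Fintype.card β := Finset.card_compl_add_card Y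
  have h9 : r * X.card ≤ (univ.filter (fun e => src e ∈ X ∧ tgt e ∈ Yᶜ)).card + r * Y.card := by
    have : r * Fintype.card β = r * Yᶜ.card + r * Y.card := by rw [← h8]; ring
    rw [this] at h7
    have h10 : r * (X.card + Yᶜ.card) = r * X.card + r * Yᶜ.card := by ring
    omega
  omega

/-- Ore-Ryser with multiple edges: a regular factor of a bipartite multigraph. -/
theorem Ds_ore_ryser (src : ε → α) (tgt : ε → β) (r : ℕ)
    (hcard : Fintype.card α = Fintype.card β)
    (hE : ∀ (X : Finset α) (Y : Finset β), r * (X.card + Y.card) ≤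
      (univ.filter (fun e => src e ∈ X ∧ tgt e ∈ Y)).card + r * Fintype.card β) :
    ∃ B : Finset ε, (∀ a, (B.filter (fun e => src e = a)).card = r) ∧
      (∀ b, (B.filter (fun e => tgt e = b)).card = r) := by
  classical
  obtain ⟨f, hf, hft⟩ := (Finset.all_card_le_biUnion_card_iff_exists_injective
    (Ds_nb src tgt r)).1 (Ds_hall_cond src tgt r hE)
  have hbij : Function.Bijective f := by
    rw [Fintype.bijective_iff_injective_and_card]
    refine ⟨hf, ?_⟩
    simp only [Fintype.card_sum, Fintype.card_prod, hcard]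
  have hsurj := hbij.2
  -- left nodes
  have hg : ∀ a (k : Fin r), ∃ e : ε, f (Sum.inl (a, k)) = Sum.inr e ∧ src e = a := by
    intro a k
    have h := hft (Sum.inl (a, k))
    simp only [Ds_nb, Finset.mem_map, Finset.mem_filter, Finset.mem_univ, true_and] at h
    obtain ⟨e, he, heq⟩ := h
    exact ⟨e, heq.symm, he⟩
  choose g hg1 hg2 using hg
  have hr : ∀ e : ε, f (Sum.inr e) = Sum.inr e ∨ ∃ k : Fin r, f (Sum.inr e) = Sum.inl (tgt e, k) := by
    intro e
    have h := hft (Sum.inr e)
    simp only [Ds_nb, Finset.mem_insert, Finset.mem_map, Finset.mem_filter, Finset.mem_univ,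
      true_and] at h
    rcases h with h | ⟨⟨b, k⟩, hb, heq⟩
    · exact Or.inl h
    · simp only at hb
      subst hb
      exact Or.inr ⟨k, heq.symm⟩
  have hh : ∀ b (k : Fin r), ∃ e : ε, f (Sum.inr e) = Sum.inl (b, k) ∧ tgt e = b := by
    intro b k
    obtain ⟨x, hx⟩ := hsurj (Sum.inl (b, k))
    rcases x with ⟨a, l⟩ | e
    · rw [hg1] at hx
      exact absurd hx (by simp)
    · refine ⟨e, hx, ?_⟩
      rcases hr e with h | ⟨l, h⟩
      · rw [h] at hx
        exact absurd hx (by simp)
      · rw [h] at hx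
        have h3 := Sum.inl_injective hx
        exact congrArg Prod.fst h3
  choose h hh1 hh2 using hh
  let B : Finset ε := univ.filter (fun e => f (Sum.inr e) ≠ Sum.inr e)
  refine ⟨B, ?_, ?_⟩
  · intro a
    rw [← Fintype.card_fin r, ← Finset.card_univ (α := Fin r)]
    refine (Finset.card_bij (fun k _ => g a k) ?_ ?_ ?_).symm
    · intro k _
      rw [Finset.mem_filter, Finset.mem_filter]
      refine ⟨⟨Finset.mem_univ _, ?_⟩, hg2 a k⟩
      intro hc
      have := hf ((hg1 a k).trans hc.symm)
      exact absurd this (by simp)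
    · intro k _ k' _ hkk
      have h2 : f (Sum.inl (a, k)) = f (Sum.inl (a, k')) := by rw [hg1, hg1, hkk]
      have h3 := hf h2
      simpa using h3
    · intro e he
      rw [Finset.mem_filter, Finset.mem_filter] at he
      obtain ⟨⟨_, hne⟩, hea⟩ := he
      obtain ⟨x, hx⟩ := hsurj (Sum.inr e)
      rcases x with ⟨a', k⟩ | e'
      · rw [hg1] at hx
        have h1 : g a' k = e := Sum.inr_injective hx
        have h2 : a' = a := by rw [← hg2 a' k, h1]; exact hea
        subst h2
        exact ⟨k, Finset.mem_univ _, h1⟩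
      · exfalso
        rcases hr e' with h1 | ⟨k, h1⟩
        · rw [h1] at hx
          have h2 : e' = e := Sum.inr_injective hx
          rw [h2] at h1
          exact hne h1
        · rw [h1] at hx
          exact absurd hx (by simp)
  · intro b
    rw [← Fintype.card_fin r, ← Finset.card_univ (α := Fin r)]
    refine (Finset.card_bij (fun k _ => h b k) ?_ ?_ ?_).symm
    · intro k _
      rw [Finset.mem_filter, Finset.mem_filter]
      refine ⟨⟨Finset.mem_univ _, ?_⟩, hh2 b k⟩
      intro hc
      have := (hh1 b k).symm.trans hc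
      exact absurd this (by simp)
    · intro k _ k' _ hkk
      have h2 := hh1 b k
      rw [hkk, hh1 b k'] at h2
      have h3 := Sum.inl_injective h2
      simpa using h3.symm
    · intro e he
      rw [Finset.mem_filter, Finset.mem_filter] at he
      obtain ⟨⟨_, hne⟩, heb⟩ := he
      rcases hr e with h1 | ⟨k, h1⟩
      · exact absurd h1 hne
      · refine ⟨k, Finset.mem_univ _, ?_⟩
        have h2 : f (Sum.inr (h b k)) = f (Sum.inr e) := by rw [hh1, h1, heb]
        have h3 := hf h2
        exact Sum.inr_injective h3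

end Ds_Hall

/-- the number of edges with given multiplicities between two sets -/
theorem Ds_count {n : ℕ} (c : Fin n → Fin n → ℕ) (X Y : Finset (Fin n)) :
    (univ.filter (fun e : Σ p : Fin n × Fin n, Fin (c p.1 p.2) =>
      e.1.1 ∈ X ∧ e.1.2 ∈ Y)).card = ∑ i ∈ X, ∑ j ∈ Y, c i j := by
  classical
  have h : (univ.filter (fun e : Σ p : Fin n × Fin n, Fin (c p.1 p.2) =>
      e.1.1 ∈ X ∧ e.1.2 ∈ Y)) = (X ×ˢ Y).sigma (fun p => (univ : Finset (Fin (c p.1 p.2)))) := by
    ext e
    simp [Finset.mem_sigma, Finset.mem_product]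
  rw [h, Finset.card_sigma, Finset.sum_product]
  simp

theorem main_Ds : Stmt_Ds := by
  classical
  intro n w η hη hw hcut
  obtain ⟨Q, hQ⟩ := exists_nat_ge (((n : ℝ) ^ 2 + 1) / η)
  have hQη : (n : ℝ) ^ 2 + 1 ≤ Q * η := by
    rwa [div_le_iff₀ hη] at hQ
  have hQpos : 0 < Q := by
    rcases Nat.eq_zero_or_pos Q with h | h
    · rw [h] at hQη
      have : (0 : ℝ) ≤ (n : ℝ) ^ 2 := by positivity
      simp at hQη
      linarith
    · exact h
  have hQR : (0 : ℝ) < Q := by exact_mod_cast hQpos
  let c : Fin n → Fin n → ℕ := fun i j => ⌊(Q : ℝ) * w i j⌋₊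
  have hc1 : ∀ i j, (c i j : ℝ) ≤ Q * w i j := fun i j =>
    Nat.floor_le (mul_nonneg hQR.le (hw i j))
  have hc2 : ∀ i j, (Q : ℝ) * w i j - 1 ≤ c i j := fun i j => by
    have := Nat.lt_floor_add_one ((Q : ℝ) * w i j)
    have h2 : (Q : ℝ) * w i j < (c i j : ℝ) + 1 := this
    linarith
  have hE : ∀ (X Y : Finset (Fin n)), Q * (X.card + Y.card) ≤
      (univ.filter (fun e : Σ p : Fin n × Fin n, Fin (c p.1 p.2) =>
        e.1.1 ∈ X ∧ e.1.2 ∈ Y)).card + Q * Fintype.card (Fin n) := by
    intro X Y
    rw [Ds_count, Fintype.card_fin]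
    rcases Nat.lt_or_ge n (X.card + Y.card) with hlt | hle
    · have h1 := hcut X Y hlt
      have h2 : (Q : ℝ) * (∑ i ∈ X, ∑ j ∈ Y, w i j) - (n : ℝ) ^ 2 ≤
          ∑ i ∈ X, ∑ j ∈ Y, (c i j : ℝ) := by
        have h3 : (Q : ℝ) * (∑ i ∈ X, ∑ j ∈ Y, w i j) - ∑ i ∈ X, ∑ j ∈ Y, (1 : ℝ) ≤
            ∑ i ∈ X, ∑ j ∈ Y, (c i j : ℝ) := by
          rw [Finset.mul_sum, ← Finset.sum_sub_distrib]
          refine Finset.sum_le_sum fun i _ => ?_
          rw [Finset.mul_sum, ← Finset.sum_sub_distrib]
          exact Finset.sum_le_sum fun j _ => hc2 i j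
        have h4 : ∑ i ∈ X, ∑ j ∈ Y, (1 : ℝ) ≤ (n : ℝ) ^ 2 := by
          simp only [Finset.sum_const, nsmul_eq_mul, mul_one]
          have hX : (X.card : ℝ) ≤ n := by
            exact_mod_cast (Finset.card_le_univ X).trans (Fintype.card_fin n).le
          have hY : (Y.card : ℝ) ≤ n := by
            exact_mod_cast (Finset.card_le_univ Y).trans (Fintype.card_fin n).le
          have hX0 : (0 : ℝ) ≤ X.card := by positivity
          have hY0 : (0 : ℝ) ≤ Y.card := by positivity
          nlinarith
        linarith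
      have hk : (1 : ℝ) ≤ (X.card : ℝ) + Y.card - n := by
        have : (n : ℝ) + 1 ≤ (X.card : ℝ) + Y.card := by exact_mod_cast hlt
        linarith
      have h5 : (Q : ℝ) * (X.card + Y.card) ≤ (∑ i ∈ X, ∑ j ∈ Y, (c i j : ℝ)) + Q * n := by
        have h6 : (Q : ℝ) * ((1 + η) * ((X.card : ℝ) + Y.card - n)) ≤
            Q * ∑ i ∈ X, ∑ j ∈ Y, w i j := mul_le_mul_of_nonneg_left h1 hQR.le
        have h7 : (n : ℝ) ^ 2 ≤ (Q * η) * ((X.card : ℝ) + Y.card - n) := by
          have h8 : (n : ℝ) ^ 2 ≤ Q * η := by linarith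
          have h9 : (0 : ℝ) ≤ Q * η := by positivity
          nlinarith
        nlinarith
      exact_mod_cast h5
    · have := Nat.mul_le_mul_left Q hle
      exact this.trans (Nat.le_add_left _ _)
  obtain ⟨B, hB1, hB2⟩ := Ds_ore_ryser (ε := Σ p : Fin n × Fin n, Fin (c p.1 p.2))
    (fun e => e.1.1) (fun e => e.1.2) Q rfl hE
  let N : Fin n → Fin n → ℕ := fun i j => (B.filter (fun e => e.1.1 = i ∧ e.1.2 = j)).card
  have hN1 : ∀ i, ∑ j, N i j = Q := by
    intro i
    rw [← hB1 i]
    have := Finset.card_eq_sum_card_fiberwise (f := fun e : Σ p : Fin n × Fin n,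
      Fin (c p.1 p.2) => e.1.2) (s := B.filter (fun e => e.1.1 = i)) (t := univ)
      (fun _ _ => by simp)
    rw [this]
    refine Finset.sum_congr rfl fun j _ => ?_
    simp only [N]
    rw [Finset.filter_filter]
  have hN2 : ∀ j, ∑ i, N i j = Q := by
    intro j
    rw [← hB2 j]
    have := Finset.card_eq_sum_card_fiberwise (f := fun e : Σ p : Fin n × Fin n,
      Fin (c p.1 p.2) => e.1.1) (s := B.filter (fun e => e.1.2 = j)) (t := univ)
      (fun _ _ => by simp)
    rw [this]
    refine Finset.sum_congr rfl fun i _ => ?_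
    simp only [N]
    rw [Finset.filter_filter]
    congr 1
    ext e
    simp only [Finset.mem_filter]
    tauto
  have hN3 : ∀ i j, N i j ≤ c i j := by
    intro i j
    have h1 : N i j ≤ (univ.filter (fun e : Σ p : Fin n × Fin n, Fin (c p.1 p.2) =>
        e.1.1 ∈ ({i} : Finset (Fin n)) ∧ e.1.2 ∈ ({j} : Finset (Fin n)))).card := by
      apply Finset.card_le_card
      intro e he
      simp only [Finset.mem_filter, Finset.mem_univ, true_and, Finset.mem_singleton] at he ⊢
      exact he.2
    rw [Ds_count] at h1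
    simpa using h1
  refine ⟨fun i j => (N i j : ℝ) / Q, ?_, ?_⟩
  · rw [mem_doublyStochastic_iff_sum]
    refine ⟨fun i j => by positivity, fun i => ?_, fun j => ?_⟩
    · rw [← Finset.sum_div, ← Nat.cast_sum, hN1 i]
      exact div_self hQR.ne'
    · rw [← Finset.sum_div, ← Nat.cast_sum, hN2 j]
      exact div_self hQR.ne'
  · intro i j
    show (N i j : ℝ) / Q ≤ w i j
    rw [div_le_iff₀ hQR]
    have h1 : (N i j : ℝ) ≤ c i j := by exact_mod_cast hN3 i j
    linarith [hc1 i j]

end Pool.Agent.PCX
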