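import Pool.Agent.PCX.Stmts

/-!
# Expansions in powers of `s`: products, exponentials, the operators `T_k`
-/

set_option autoImplicit false

namespace Pool.Agent.PCX

open Finset Filter

/-! ### Hölder functions -/

lemma expn_HB_nonneg {B : ℝ} {f : ℝ → ℝ} (h : HB B f) : 0 ≤ B :=
  (abs_nonneg _).trans (h.1 0 ⟨le_rfl, zero_le_one⟩)

lemma expn_HB_const (c : ℝ) : HB |c| (fun _ => c) := by
  refine ⟨fun _ _ => le_rfl, fun u _ v _ => ?_⟩
  rw [sub_self, abs_zero]
  positivity

lemma expn_HB_add {B B' : ℝ} {f f' : ℝ → ℝ} (h : HB B f) (h' : HB B' f') :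
    HB (B + B') (fun u => f u + f' u) := by
  refine ⟨fun u hu => (abs_add_le _ _).trans (add_le_add (h.1 u hu) (h'.1 u hu)), ?_⟩
  intro u hu v hv
  have e : f u + f' u - (f v + f' v) = (f u - f v) + (f' u - f' v) := by ring
  rw [e, add_mul]
  exact (abs_add_le _ _).trans (add_le_add (h.2 u hu v hv) (h'.2 u hu v hv))

lemma expn_HB_mul {B B' : ℝ} {f f' : ℝ → ℝ} (h : HB B f) (h' : HB B' f') :
    HB (2 * (B * B')) (fun u => f u * f' u) := by
  have hB := expn_HB_nonneg h
  have hB' := expn_HB_nonneg h'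
  have hBB := mul_nonneg hB hB'
  constructor
  · intro u hu
    rw [abs_mul]
    have := mul_le_mul (h.1 u hu) (h'.1 u hu) (abs_nonneg _) hB
    linarith
  · intro u hu v hv
    have e : f u * f' u - f v * f' v = f u * (f' u - f' v) + (f u - f v) * f' v := by ring
    rw [e]
    refine (abs_add_le _ _).trans ?_
    rw [abs_mul, abs_mul]
    have h1 := mul_le_mul (h.1 u hu) (h'.2 u hu v hv) (abs_nonneg _) hB
    have h2 := mul_le_mul (h.2 u hu v hv) (h'.1 v hv) (abs_nonneg _)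
      (mul_nonneg hB (Real.sqrt_nonneg _))
    have e2 : 2 * (B * B') * √|u - v| = B * (B' * √|u - v|) + B * √|u - v| * B' := by ring
    rw [e2]
    exact add_le_add h1 h2

lemma expn_HB_cont {B : ℝ} {f : ℝ → ℝ} (h : HB B f) : ContinuousOn f (Set.Icc 0 1) := by
  intro u hu
  rw [Metric.continuousWithinAt_iff]
  intro ε hε
  have hB := expn_HB_nonneg h
  refine ⟨(ε / (B + 1)) ^ 2, by positivity, ?_⟩
  intro v hv hd
  rw [Real.dist_eq] at hd ⊢
  have h1 := h.2 v hv u hu
  have h2 : √|v - u| < ε / (B + 1) := by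
    rw [Real.sqrt_lt' (by positivity)]
    exact hd
  have h3 : B * √|v - u| ≤ B * (ε / (B + 1)) := mul_le_mul_of_nonneg_left h2.le hB
  have h4 : B * (ε / (B + 1)) < ε := by
    rw [mul_div_assoc', div_lt_iff₀ (by linarith)]
    nlinarith
  linarith

/-! ### Closure properties of expansions -/

/-- existence of an expansion -/
def ExE (N : ℕ) (F : ℝ → ℝ → ℝ) : Prop := ∃ q, Ex N F q

lemma expn_bd {q : ℕ → ℝ → ℝ} (hq : ∀ k, ∃ B, HB B (q k)) (N : ℕ) :
    ∃ b : ℕ → ℝ, (∀ k, 0 ≤ b k) ∧ (∀ k, ∀ u ∈ Set.Icc (0 : ℝ) 1, |q k u| ≤ b k) ∧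
      ∀ s : ℝ, 0 < s → s ≤ 1 → ∀ u ∈ Set.Icc (0 : ℝ) 1,
        |∑ k ∈ range N, s ^ k * q k u| ≤ ∑ k ∈ range N, b k := by
  choose b hb using hq
  refine ⟨b, fun k => expn_HB_nonneg (hb k), fun k => (hb k).1, ?_⟩
  intro s hs hs1 u hu
  refine (Finset.abs_sum_le_sum_abs _ _).trans (Finset.sum_le_sum fun k _ => ?_)
  rw [abs_mul, abs_of_nonneg (pow_nonneg hs.le k)]
  calc s ^ k * |q k u| ≤ 1 * b k :=
        mul_le_mul (pow_le_one₀ hs.le hs1) ((hb k).1 u hu) (abs_nonneg _) zero_le_one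
    _ = b k := one_mul _

lemma expn_antidiag (N : ℕ) (s : ℝ) (a b : ℕ → ℝ) :
    (∑ i ∈ range N, s ^ i * a i) * (∑ j ∈ range N, s ^ j * b j) -
      ∑ k ∈ range N, s ^ k * ∑ x ∈ antidiagonal k, a x.1 * b x.2 =
    ∑ x ∈ (range N ×ˢ range N).filter (fun x => ¬ x.1 + x.2 < N),
      s ^ (x.1 + x.2) * (a x.1 * b x.2) := by
  rw [Finset.sum_mul_sum, ← Finset.sum_product']
  have h1 : ∑ x ∈ range N ×ˢ range N, s ^ x.1 * a x.1 * (s ^ x.2 * b x.2) =
      ∑ x ∈ range N ×ˢ range N, s ^ (x.1 + x.2) * (a x.1 * b x.2) := by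
    refine Finset.sum_congr rfl fun x _ => ?_
    rw [pow_add]; ring
  rw [h1, ← Finset.sum_filter_add_sum_filter_not (range N ×ˢ range N) (fun x => x.1 + x.2 < N)]
  have h2 : ∑ x ∈ (range N ×ˢ range N).filter (fun x => x.1 + x.2 < N),
      s ^ (x.1 + x.2) * (a x.1 * b x.2) =
      ∑ k ∈ range N, s ^ k * ∑ x ∈ antidiagonal k, a x.1 * b x.2 := by
    rw [← Finset.sum_fiberwise_of_maps_to (t := range N) (g := fun x : ℕ × ℕ => x.1 + x.2)]
    · refine Finset.sum_congr rfl fun k hk => ?_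
      have hk := Finset.mem_range.1 hk
      have h3 : ((range N ×ˢ range N).filter (fun x => x.1 + x.2 < N)).filter
          (fun x => x.1 + x.2 = k) = antidiagonal k := by
        ext x
        simp only [Finset.mem_filter, Finset.mem_product, Finset.mem_range,
          HasAntidiagonal.mem_antidiagonal]
        omega
      rw [h3, Finset.mul_sum]
      refine Finset.sum_congr rfl fun x hx => ?_
      rw [HasAntidiagonal.mem_antidiagonal.1 hx]
    · intro x hx
      exact Finset.mem_range.2 (Finset.mem_filter.1 hx).2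
  rw [h2]
  ring

lemma ExE_mul {N : ℕ} {F F' : ℝ → ℝ → ℝ} (h : ExE N F) (h' : ExE N F') :
    ExE N (fun s u => F s u * F' s u) := by
  obtain ⟨q, hq, C, s₀, hs₀, hF⟩ := h
  obtain ⟨q', hq', C', s₀', hs₀', hF'⟩ := h'
  obtain ⟨b, hb0, hb, hbs⟩ := expn_bd hq N
  obtain ⟨b', hb0', hb', hbs'⟩ := expn_bd hq' N
  refine ⟨fun k u => ∑ x ∈ antidiagonal k, q x.1 u * q' x.2 u, ?_, ?_⟩
  · intro k
    have key : ∀ S : Finset (ℕ × ℕ), ∃ B, HB B (fun u => ∑ x ∈ S, q x.1 u * q' x.2 u) := by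
      intro S
      induction S using Finset.induction_on with
      | empty => exact ⟨|0|, by simpa using expn_HB_const 0⟩
      | insert a S ha ih =>
        obtain ⟨B, hB⟩ := ih
        obtain ⟨B1, hB1⟩ := hq a.1
        obtain ⟨B2, hB2⟩ := hq' a.2
        refine ⟨2 * (B1 * B2) + B, ?_⟩
        simp only [Finset.sum_insert ha]
        exact expn_HB_add (expn_HB_mul hB1 hB2) hB
    exact key _
  · set M : ℝ := ∑ k ∈ range N, b k with hM
    set M' : ℝ := ∑ k ∈ range N, b' k with hM'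
    have hM0 : 0 ≤ M := Finset.sum_nonneg fun k _ => hb0 k
    have hM0' : 0 ≤ M' := Finset.sum_nonneg fun k _ => hb0' k
    refine ⟨|C| * |C'| + M * |C'| + M' * |C| + M * M', min (min s₀ s₀') 1,
      lt_min (lt_min hs₀ hs₀') one_pos, ?_⟩
    intro s hs hss u hu
    have hs1 : s ≤ 1 := hss.trans (min_le_right _ _)
    have h1 := hF s hs (hss.trans ((min_le_left _ _).trans (min_le_left _ _))) u hu
    have h2 := hF' s hs (hss.trans ((min_le_left _ _).trans (min_le_right _ _))) u hu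
    have h3 := hbs s hs hs1 u hu
    have h4 := hbs' s hs hs1 u hu
    have hsN : 0 ≤ s ^ N := pow_nonneg hs.le N
    have hsN1 : s ^ N ≤ 1 := pow_le_one₀ hs.le hs1
    set P := ∑ k ∈ range N, s ^ k * q k u with hP
    set P' := ∑ k ∈ range N, s ^ k * q' k u with hP'
    have h5 := expn_antidiag N s (fun k => q k u) (fun k => q' k u)
    rw [← hP, ← hP'] at h5
    have h6 : |∑ x ∈ (range N ×ˢ range N).filter (fun x => ¬ x.1 + x.2 < N),
        s ^ (x.1 + x.2) * (q x.1 u * q' x.2 u)| ≤ M * M' * s ^ N := by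
      refine (Finset.abs_sum_le_sum_abs _ _).trans ?_
      calc ∑ x ∈ (range N ×ˢ range N).filter (fun x => ¬ x.1 + x.2 < N),
            |s ^ (x.1 + x.2) * (q x.1 u * q' x.2 u)|
          ≤ ∑ x ∈ (range N ×ˢ range N).filter (fun x => ¬ x.1 + x.2 < N),
            s ^ N * (b x.1 * b' x.2) := by
            refine Finset.sum_le_sum fun x hx => ?_
            have hx2 := (Finset.mem_filter.1 hx).2
            rw [abs_mul, abs_mul, abs_of_nonneg (pow_nonneg hs.le _)]
            refine mul_le_mul ?_ ?_ (by positivity) hsN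
            · exact pow_le_pow_of_le_one hs.le hs1 (by omega)
            · exact mul_le_mul (hb _ u hu) (hb' _ u hu) (abs_nonneg _) (hb0 _)
        _ ≤ ∑ x ∈ range N ×ˢ range N, s ^ N * (b x.1 * b' x.2) := by
            refine Finset.sum_le_sum_of_subset_of_nonneg (Finset.filter_subset _ _) ?_
            intro x _ _
            exact mul_nonneg hsN (mul_nonneg (hb0 _) (hb0' _))
        _ = M * M' * s ^ N := by
            rw [← Finset.mul_sum, hM, hM', Finset.sum_mul_sum, Finset.sum_product, mul_comm]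
    rw [← h5] at h6
    have e : F s u * F' s u - ∑ k ∈ range N, s ^ k * ∑ x ∈ antidiagonal k, q x.1 u * q' x.2 u =
        (F s u - P) * (F' s u - P') + P * (F' s u - P') + P' * (F s u - P) +
          (P * P' - ∑ k ∈ range N, s ^ k * ∑ x ∈ antidiagonal k, q x.1 u * q' x.2 u) := by ring
    rw [e]
    have g1 : |F s u - P| ≤ |C| * s ^ N := h1.trans (mul_le_mul_of_nonneg_right (le_abs_self _) hsN)
    have g2 : |F' s u - P'| ≤ |C'| * s ^ N :=
      h2.trans (mul_le_mul_of_nonneg_right (le_abs_self _) hsN)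
    have g3 : |(F s u - P) * (F' s u - P')| ≤ |C| * |C'| * s ^ N := by
      rw [abs_mul]
      calc |F s u - P| * |F' s u - P'| ≤ (|C| * s ^ N) * (|C'| * s ^ N) :=
            mul_le_mul g1 g2 (abs_nonneg _) (by positivity)
        _ = (|C| * |C'| * s ^ N) * s ^ N := by ring
        _ ≤ (|C| * |C'| * s ^ N) * 1 := mul_le_mul_of_nonneg_left hsN1 (by positivity)
        _ = _ := mul_one _
    have g4 : |P * (F' s u - P')| ≤ M * |C'| * s ^ N := by
      rw [abs_mul, mul_assoc]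
      exact mul_le_mul h3 g2 (abs_nonneg _) hM0
    have g5 : |P' * (F s u - P)| ≤ M' * |C| * s ^ N := by
      rw [abs_mul, mul_assoc]
      exact mul_le_mul h4 g1 (abs_nonneg _) hM0'
    calc _ ≤ |C| * |C'| * s ^ N + M * |C'| * s ^ N + M' * |C| * s ^ N + M * M' * s ^ N := by
          refine (abs_add_le _ _).trans (add_le_add ?_ h6)
          refine (abs_add_le _ _).trans (add_le_add ?_ g5)
          exact (abs_add_le _ _).trans (add_le_add g3 g4)
      _ = (|C| * |C'| + M * |C'| + M' * |C| + M * M') * s ^ N := by ring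

lemma ExE_add {N : ℕ} {F F' : ℝ → ℝ → ℝ} (h : ExE N F) (h' : ExE N F') :
    ExE N (fun s u => F s u + F' s u) := by
  obtain ⟨q, hq, C, s₀, hs₀, hF⟩ := h
  obtain ⟨q', hq', C', s₀', hs₀', hF'⟩ := h'
  refine ⟨fun k u => q k u + q' k u, ?_, C + C', min s₀ s₀', lt_min hs₀ hs₀', ?_⟩
  · intro k
    obtain ⟨B, hB⟩ := hq k
    obtain ⟨B', hB'⟩ := hq' k
    exact ⟨B + B', expn_HB_add hB hB'⟩
  · intro s hs hss u hu
    have h1 := hF s hs (hss.trans (min_le_left _ _)) u hu
    have h2 := hF' s hs (hss.trans (min_le_right _ _)) u hu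
    have e : F s u + F' s u - ∑ k ∈ range N, s ^ k * (q k u + q' k u) =
        (F s u - ∑ k ∈ range N, s ^ k * q k u) + (F' s u - ∑ k ∈ range N, s ^ k * q' k u) := by
      simp only [mul_add, Finset.sum_add_distrib]
      ring
    rw [e, add_mul]
    exact (abs_add_le _ _).trans (add_le_add h1 h2)

/-- a function independent of `s` -/
lemma ExE_fun (N : ℕ) {B : ℝ} {f : ℝ → ℝ} (h : HB B f) : ExE N (fun _ u => f u) := by
  refine ⟨fun k u => if k = 0 then f u else 0, ?_, B, 1, one_pos, ?_⟩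
  · intro k
    by_cases hk : k = 0
    · simp only [hk, if_true]
      exact ⟨B, h⟩
    · simp only [hk, if_false]
      exact ⟨|0|, expn_HB_const 0⟩
  · intro s hs hs1 u hu
    rcases Nat.eq_zero_or_pos N with h0 | h0
    · subst h0
      simpa using h.1 u hu
    · have e : ∑ k ∈ range N, s ^ k * (if k = 0 then f u else 0) = f u := by
        rw [Finset.sum_eq_single 0]
        · simp
        · intro k _ hk
          simp [hk]
        · intro hh
          exact absurd (Finset.mem_range.2 h0) hh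
      simp only
      rw [e, sub_self, abs_zero]
      exact mul_nonneg (expn_HB_nonneg h) (pow_nonneg hs.le _)

/-- powers of `s` -/
lemma ExE_pow (N k : ℕ) (c : ℝ) : ExE N (fun s _ => c * s ^ k) := by
  refine ⟨fun j _ => if j = k then c else 0, ?_, |c|, 1, one_pos, ?_⟩
  · intro j
    by_cases hk : j = k
    · simp only [hk, if_true]
      exact ⟨|c|, expn_HB_const c⟩
    · simp only [hk, if_false]
      exact ⟨|0|, expn_HB_const 0⟩
  · intro s hs hs1 u hu
    by_cases hk : k < N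
    · have e : ∑ j ∈ range N, s ^ j * (if j = k then c else 0) = c * s ^ k := by
        rw [Finset.sum_eq_single k]
        · simp [mul_comm]
        · intro j _ hj
          simp [hj]
        · intro hh
          exact absurd (Finset.mem_range.2 hk) hh
      rw [e, sub_self, abs_zero]
      exact mul_nonneg (abs_nonneg _) (pow_nonneg hs.le _)
    · have e : ∑ j ∈ range N, s ^ j * (if j = k then c else 0) = 0 := by
        refine Finset.sum_eq_zero fun j hj => ?_
        have := Finset.mem_range.1 hj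
        have hne : j ≠ k := by omega
        simp [hne]
      rw [e, sub_zero, abs_mul, abs_of_nonneg (pow_nonneg hs.le k)]
      exact mul_le_mul_of_nonneg_left (pow_le_pow_of_le_one hs.le hs1 (by omega)) (abs_nonneg _)

lemma ExE_sum (N : ℕ) (S : Finset ℕ) (F : ℕ → ℝ → ℝ → ℝ) (h : ∀ k ∈ S, ExE N (F k)) :
    ExE N (fun s u => ∑ k ∈ S, F k s u) := by
  induction S using Finset.induction_on with
  | empty =>
    simp only [Finset.sum_empty]
    exact ExE_fun N (expn_HB_const 0)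
  | insert a S ha ih =>
    simp only [Finset.sum_insert ha]
    exact ExE_add (h a (Finset.mem_insert_self _ _))
      (ih fun k hk => h k (Finset.mem_insert_of_mem hk))

lemma ExE_npow {N : ℕ} {F : ℝ → ℝ → ℝ} (h : ExE N F) (n : ℕ) :
    ExE N (fun s u => F s u ^ n) := by
  induction n with
  | zero =>
    simp only [pow_zero]
    exact ExE_fun N (expn_HB_const 1)
  | succ n ih =>
    simp only [pow_succ]
    exact ExE_mul ih h

lemma ExE_close {N : ℕ} {F F' : ℝ → ℝ → ℝ} (h : ExE N F) (C' s₀' : ℝ) (hs₀' : 0 < s₀')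
    (h' : ∀ s, 0 < s → s ≤ s₀' → ∀ u ∈ Set.Icc (0 : ℝ) 1, |F' s u - F s u| ≤ C' * s ^ N) :
    ExE N F' := by
  obtain ⟨q, hq, C, s₀, hs₀, hF⟩ := h
  refine ⟨q, hq, C' + C, min s₀ s₀', lt_min hs₀ hs₀', ?_⟩
  intro s hs hss u hu
  have h1 := hF s hs (hss.trans (min_le_left _ _)) u hu
  have h2 := h' s hs (hss.trans (min_le_right _ _)) u hu
  have e : F' s u - ∑ k ∈ range N, s ^ k * q k u =
      (F' s u - F s u) + (F s u - ∑ k ∈ range N, s ^ k * q k u) := by ring
  rw [e, add_mul]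
  exact (abs_add_le _ _).trans (add_le_add h2 h1)

/-! ### The exponential -/

lemma ExE_GG {g : ℕ → ℝ → ℝ} (hg : ∀ k, ∃ B, HB B (g k)) (K N : ℕ) : ExE N (GG g K) := by
  have h1 : GG g K = fun s u => ∑ k ∈ Icc 1 K, (1 * s ^ k) * g k u := by
    funext s u
    simp only [GG, one_mul]
  rw [h1]
  refine ExE_sum N _ _ fun k _ => ?_
  obtain ⟨B, hB⟩ := hg k
  exact ExE_mul (ExE_pow N k 1) (ExE_fun N hB)

lemma expn_GG_small {g : ℕ → ℝ → ℝ} (hg : ∀ k, ∃ B, HB B (g k)) (K : ℕ) :
    ∃ M : ℝ, 0 ≤ M ∧ ∀ s, 0 < s → s ≤ 1 → ∀ u ∈ Set.Icc (0 : ℝ) 1, |GG g K s u| ≤ M * s := by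
  choose b hb using hg
  refine ⟨∑ k ∈ Icc 1 K, b k, Finset.sum_nonneg fun k _ => expn_HB_nonneg (hb k), ?_⟩
  intro s hs hs1 u hu
  unfold GG
  rw [Finset.sum_mul]
  refine (Finset.abs_sum_le_sum_abs _ _).trans (Finset.sum_le_sum fun k hk => ?_)
  rw [abs_mul, abs_of_nonneg (pow_nonneg hs.le k), mul_comm]
  have hk1 : 1 ≤ k := (Finset.mem_Icc.1 hk).1
  refine mul_le_mul ((hb k).1 u hu) ?_ (pow_nonneg hs.le k) (expn_HB_nonneg (hb k))
  calc s ^ k ≤ s ^ 1 := pow_le_pow_of_le_one hs.le hs1 hk1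
    _ = s := pow_one s

lemma ExE_exp {g : ℕ → ℝ → ℝ} (hg : ∀ k, ∃ B, HB B (g k)) (K N : ℕ) :
    ExE N (fun s u => Real.exp (GG g K s u)) := by
  obtain ⟨M, hM0, hM⟩ := expn_GG_small hg K
  have h1 : ExE N (fun s u => ∑ n ∈ range N, ((n.factorial : ℝ)⁻¹ * s ^ 0) * GG g K s u ^ n) :=
    ExE_sum N _ _ fun n _ => ExE_mul (ExE_pow N 0 _) (ExE_npow (ExE_GG hg K N) n)
  rcases Nat.eq_zero_or_pos N with h0 | h0
  · subst h0
    refine ExE_close h1 (Real.exp M) 1 one_pos ?_
    intro s hs hs1 u hu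
    simp only [Finset.range_zero, Finset.sum_empty, sub_zero, pow_zero, mul_one]
    rw [abs_of_pos (Real.exp_pos _)]
    refine Real.exp_le_exp.2 ?_
    have := (le_abs_self _).trans (hM s hs hs1 u hu)
    nlinarith
  · refine ExE_close h1 (M ^ N * ((N.succ : ℝ) * ((N.factorial : ℝ) * N)⁻¹)) (min 1 (1 / (M + 1)))
      (lt_min one_pos (by positivity)) ?_
    intro s hs hss u hu
    have hs1 : s ≤ 1 := hss.trans (min_le_left _ _)
    have hs2 : s ≤ 1 / (M + 1) := hss.trans (min_le_right _ _)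
    have h2 := hM s hs hs1 u hu
    have h3 : M * s ≤ 1 := by
      have h4 : M * s ≤ M * (1 / (M + 1)) := mul_le_mul_of_nonneg_left hs2 hM0
      have h5 : M * (1 / (M + 1)) ≤ 1 := by
        rw [mul_one_div, div_le_one (by linarith)]
        linarith
      linarith
    have h6 := Real.exp_bound (x := GG g K s u) (h2.trans h3) h0
    have e : ∑ n ∈ range N, ((n.factorial : ℝ)⁻¹ * s ^ 0) * GG g K s u ^ n =
        ∑ m ∈ range N, GG g K s u ^ m / (m.factorial : ℝ) := by
      refine Finset.sum_congr rfl fun n _ => ?_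
      rw [pow_zero, mul_one, div_eq_mul_inv, mul_comm]
    rw [e]
    refine h6.trans ?_
    have h7 : |GG g K s u| ^ N ≤ (M * s) ^ N := pow_le_pow_left₀ (abs_nonneg _) h2 N
    have h8 : (0 : ℝ) ≤ (N.succ : ℝ) * ((N.factorial : ℝ) * N)⁻¹ := by positivity
    rw [mul_pow] at h7
    calc |GG g K s u| ^ N * ((N.succ : ℝ) * ((N.factorial : ℝ) * N)⁻¹)
        ≤ (M ^ N * s ^ N) * ((N.succ : ℝ) * ((N.factorial : ℝ) * N)⁻¹) :=
          mul_le_mul_of_nonneg_right h7 h8
      _ = _ := by ring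

/-! ### The operators -/

lemma expn_T_sum (h : Stmt_Tk) (k : ℕ) (q : ℕ → ℝ → ℝ) (hq : ∀ k, ∃ B, HB B (q k)) (s : ℝ)
    (n : ℕ) (u : ℝ) (hu : u ∈ Set.Icc (0 : ℝ) 1) :
    T k (fun v => ∑ j ∈ range n, s ^ j * q j v) u = ∑ j ∈ range n, s ^ j * T k (q j) u := by
  obtain ⟨C, hC, -, -, hlin⟩ := h k
  induction n with
  | zero =>
    simp only [Finset.range_zero, Finset.sum_empty]
    simp [T]
  | succ n ih =>
    simp only [Finset.sum_range_succ]
    rw [hlin (s ^ n) (fun v => ∑ j ∈ range n, s ^ j * q j v) (q n) ?_ ?_ u hu, ih]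
    · refine continuousOn_finsetSum _ fun j _ => ?_
      obtain ⟨B, hB⟩ := hq j
      exact continuousOn_const.mul (expn_HB_cont hB)
    · obtain ⟨B, hB⟩ := hq n
      exact expn_HB_cont hB

lemma ExE_T (h : Stmt_Tk) (k N : ℕ) {F : ℝ → ℝ → ℝ} (hF : ExE N F)
    (hc : ∀ s, ContinuousOn (F s) (Set.Icc 0 1)) : ExE N (fun s u => T k (F s) u) := by
  obtain ⟨q, hq, D, s₀, hs₀, hF⟩ := hF
  obtain ⟨C, hC, h1, h2, hlin⟩ := h k
  refine ⟨fun j => T k (q j), ?_, C * |D|, s₀, hs₀, ?_⟩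
  · intro j
    obtain ⟨B, hB⟩ := hq j
    exact ⟨C * B, h1 B (q j) (expn_HB_nonneg hB) hB⟩
  · intro s hs hss u hu
    have hPc : ContinuousOn (fun v => ∑ j ∈ range N, s ^ j * q j v) (Set.Icc 0 1) := by
      refine continuousOn_finsetSum _ fun j _ => ?_
      obtain ⟨B, hB⟩ := hq j
      exact continuousOn_const.mul (expn_HB_cont hB)
    have e1 := hlin (-1) (F s) (fun v => ∑ j ∈ range N, s ^ j * q j v) (hc s) hPc u hu
    rw [expn_T_sum h k q hq s N u hu] at e1
    have e2 : T k (F s) u - ∑ j ∈ range N, s ^ j * T k (q j) u =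
        T k (fun v => F s v + -1 * ∑ j ∈ range N, s ^ j * q j v) u := by
      rw [e1]; ring
    rw [e2]
    have h3 := h2 (|D| * s ^ N) (fun v => F s v + -1 * ∑ j ∈ range N, s ^ j * q j v)
      (by positivity) ((hc s).add (continuousOn_const.mul hPc)) ?_ u hu
    · refine h3.trans (le_of_eq (by ring))
    · intro v hv
      have h4 := hF s hs hss v hv
      have e3 : F s v + -1 * ∑ j ∈ range N, s ^ j * q j v =
          F s v - ∑ j ∈ range N, s ^ j * q j v := by ring
      rw [e3]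
      exact h4.trans (mul_le_mul_of_nonneg_right (le_abs_self _) (pow_nonneg hs.le _))

lemma expn_GG_cont {g : ℕ → ℝ → ℝ} (hg : ∀ k, ∃ B, HB B (g k)) (K : ℕ) (s : ℝ) :
    ContinuousOn (fun v => Real.exp (GG g K s v)) (Set.Icc 0 1) := by
  refine Real.continuous_exp.comp_continuousOn ?_
  unfold GG
  refine continuousOn_finsetSum _ fun j _ => ?_
  obtain ⟨B, hB⟩ := hg j
  exact continuousOn_const.mul (expn_HB_cont hB)

theorem main_Exp (h : Stmt_Tk) : Stmt_Exp := by
  intro g hg K N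
  have h1 : EE g K N = fun s u => Real.exp (GG g K s u) *
      ∑ k ∈ range N, ((-1) ^ k * s ^ k) * T k (fun v => Real.exp (GG g K s v)) u := by
    funext s u
    unfold EE
    congr 1
    refine Finset.sum_congr rfl fun k _ => ?_
    rw [← mul_pow]
    congr 2
    ring
  rw [h1]
  refine ExE_mul (ExE_exp hg K N) (ExE_sum N _ _ fun k _ => ?_)
  exact ExE_mul (ExE_pow N k _) (ExE_T h k N (ExE_exp hg K N) (fun s => expn_GG_cont hg K s))

end Pool.Agent.PCX
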