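import Pool.Agent.PCX.Stmts

/-!
# [Final] : assembly of the asymptotic expansion
Paper: /team-store/PCX_paper.md
-/

set_option autoImplicit false

namespace Pool.Agent.PCX

open Finset Filter Pool.Agent.PC Pool.Agent.PrimeCircle

theorem Final.wt_mono {C C' : ℝ} (hC : 0 < C) (h : C ≤ C') {m : ℕ} {x : ℕ → ℝ} (hx : Wt C m x) :
    Wt C' m x := by
  have h0 : 0 ≤ √(Real.log m / m) := Real.sqrt_nonneg _
  refine ⟨fun i hi => ⟨?_, ?_⟩, fun i hi j hj => ?_⟩
  · refine le_trans ?_ (hx.1 i hi).1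
    have : C'⁻¹ ≤ C⁻¹ := inv_anti₀ hC h
    gcongr
  · refine (hx.1 i hi).2.trans ?_
    gcongr
  · refine (hx.2 i hi j hj).trans ?_
    gcongr

theorem main_Final (h1 : Stmt_Smooth) (h2 : Stmt_Row) (h3 : Stmt_Low) (h4 : Stmt_Up) :
    Stmt_Final := by
  obtain ⟨c, hc1, hc⟩ := h1
  refine ⟨c, hc1, fun K => ?_⟩
  obtain ⟨C, hC, hsm⟩ := hc K
  obtain ⟨C', hrow⟩ := h2 K C hC
  set D : ℝ := C + |C'| with hD
  have hD0 : 0 < D := by positivity
  have hCD : C ≤ D := by rw [hD]; linarith [abs_nonneg C']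
  obtain ⟨C3, hlow⟩ := h3 K D hD0
  obtain ⟨C4, hup⟩ := h4 K D hD0
  refine ⟨C + |C3| + |C4|, ?_⟩
  filter_upwards [hsm, hrow, hlow, hup, eventually_ge_atTop 3] with m e1 e2 e3 e4 hm
  obtain ⟨x, hx, hs, hsum⟩ := e1
  have hm' : (3 : ℝ) ≤ m := by exact_mod_cast hm
  have hL : 0 < Real.log m := Real.log_pos (by linarith)
  have hLK : 0 < Real.log m ^ (K + 1) := by positivity
  have hxD : Wt D m x := Final.wt_mono hC hCD hx
  have hR : RowOK D K m x := by
    intro i hi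
    have f1 := e2 x hx i hi
    have f2 := hs i hi
    have f3 : |wdeg m x i - 1| ≤ |wdeg m x i - sdeg m x i| + |sdeg m x i - 1| := by
      have := abs_add_le (wdeg m x i - sdeg m x i) (sdeg m x i - 1)
      have e : wdeg m x i - sdeg m x i + (sdeg m x i - 1) = wdeg m x i - 1 := by ring
      rwa [e] at this
    have f4 : C' / Real.log m ^ (K + 1) ≤ |C'| / Real.log m ^ (K + 1) := by
      have := le_abs_self C'
      gcongr
    have f5 : D / Real.log m ^ (K + 1) =
        C / Real.log m ^ (K + 1) + |C'| / Real.log m ^ (K + 1) := by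
      rw [hD, add_div]
    rw [f5]
    linarith
  obtain ⟨g1, g2⟩ := e3 x hxD hR
  have g3 := e4 x hxD hR
  refine ⟨g1, ?_⟩
  have hmL : 0 ≤ (m : ℝ) / Real.log m ^ (K + 1) := by positivity
  have a3 : C3 * m / Real.log m ^ (K + 1) ≤ |C3| * (m / Real.log m ^ (K + 1)) := by
    rw [mul_div_assoc]
    exact mul_le_mul_of_nonneg_right (le_abs_self _) hmL
  have a4 : C4 * m / Real.log m ^ (K + 1) ≤ |C4| * (m / Real.log m ^ (K + 1)) := by
    rw [mul_div_assoc]
    exact mul_le_mul_of_nonneg_right (le_abs_self _) hmL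
  have b3 : 0 ≤ |C3| * (m / Real.log m ^ (K + 1)) := by positivity
  have b4 : 0 ≤ |C4| * (m / Real.log m ^ (K + 1)) := by positivity
  have a5 : (C + |C3| + |C4|) * m / Real.log m ^ (K + 1) =
      C * m / Real.log m ^ (K + 1) + |C3| * (m / Real.log m ^ (K + 1)) +
        |C4| * (m / Real.log m ^ (K + 1)) := by ring
  rw [a5]
  rw [abs_le] at hsum ⊢
  obtain ⟨s1, s2⟩ := hsum
  constructor <;> linarith

end Pool.Agent.PCX
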