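import Pool.Agent.PCX.Stmts

/-!
# Frozen statements, part 2: the second coefficient
`c_2 = -(23/3) log(2)^2 + (31/3) log 2 - 43/12 - π^2/18`.
-/

set_option autoImplicit false

namespace Pool.Agent.PCX

open Finset Filter Pool.Agent.PC Pool.Agent.PrimeCircle

/-- [Fub] symmetry of the kernel -/
def Stmt_Fub : Prop := ∀ f : ℝ → ℝ, ContinuousOn f (Set.Icc 0 1) →
  ∫ u in (0 : ℝ)..1, T 1 f u = ∫ u in (0 : ℝ)..1, f u * T 1 (fun _ => 1) u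

/-- [C2a] the second coefficient in terms of integrals -/
def Stmt_C2a : Prop := ∀ g : ℕ → ℝ → ℝ, (∀ k, ∃ B, HB B (g k)) →
  (∃ C s₀ : ℝ, 0 < s₀ ∧ ∀ s, 0 < s → s ≤ s₀ → ∀ u ∈ Set.Icc (0 : ℝ) 1,
    |EE g 2 3 s u - 1| ≤ C * s ^ 3) →
  4 * (∫ u in (0 : ℝ)..1, g 2 u) = 2 * (∫ u in (0 : ℝ)..1, T 1 (fun _ => 1) u ^ 2) -
    2 * (∫ u in (0 : ℝ)..1, T 2 (fun _ => 1) u) - (∫ u in (0 : ℝ)..1, T 1 (fun _ => 1) u) ^ 2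

/-- [Mval] -/
def Stmt_Mval : Prop := ∫ u in (0 : ℝ)..1, T 1 (fun _ => 1) u ^ 2 =
  23 / 3 * Real.log 2 ^ 2 - 25 / 3 * Real.log 2 + 17 / 6 - Real.pi ^ 2 / 36

/-- [Qval] -/
def Stmt_Qval : Prop := ∫ u in (0 : ℝ)..1, T 2 (fun _ => 1) u =
  7 * Real.log 2 ^ 2 - 9 * Real.log 2 + 7 / 2

/-- [Final2] -/
def Stmt_Final2 : Prop := ∃ c : ℕ → ℝ, c 1 = 6 * Real.log 2 - 3 ∧
  c 2 = -(23 / 3) * Real.log 2 ^ 2 + 31 / 3 * Real.log 2 - 43 / 12 - Real.pi ^ 2 / 18 ∧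
  ∀ K : ℕ, ∃ C : ℝ, ∀ᶠ m : ℕ in atTop, 0 < numPrimeCircles m ∧
    |Real.log (numPrimeCircles m) -
      (2 * m * Real.log m - 2 * m * Real.log (Real.log m) + (2 * Real.log 2 - 2) * m -
        m * ∑ k ∈ Icc 1 K, c k / Real.log m ^ k)| ≤ C * m / Real.log m ^ (K + 1)

end Pool.Agent.PCX
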