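import Pool.Agent.PCX.Smooth
import Pool.Agent.PCX.Final
import Pool.Agent.PCX.Stmts2

/-!
# [Final2] : assembly with the first two coefficients
-/

set_option autoImplicit false

namespace Pool.Agent.PCX

open Finset Filter Pool.Agent.PC Pool.Agent.PrimeCircle

/-- weights for the smooth model, for given coefficient functions -/
theorem final2_smooth (g : ℕ → ℝ → ℝ) (hg : ∀ k, ∃ B, HB B (g k))
    (hrec : ∀ K : ℕ, ∃ C s₀ : ℝ, 0 < s₀ ∧ ∀ s, 0 < s → s ≤ s₀ → ∀ u ∈ Set.Icc (0 : ℝ) 1,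
      |EE g K (K + 1) s u - 1| ≤ C * s ^ (K + 1)) (h2 : Stmt_Abs) (h3 : Stmt_Riem) :
    ∀ K : ℕ, ∃ C : ℝ, 0 < C ∧
      ∀ᶠ m : ℕ in atTop, ∃ x : ℕ → ℝ, Wt C m x ∧
        (∀ i < m, |sdeg m x i - 1| ≤ C / Real.log m ^ (K + 1)) ∧
        |-4 * ∑ i ∈ range m, Real.log (x i) -
          (2 * m * Real.log m - 2 * m * Real.log (Real.log m) + 2 * Real.log 2 * m -
            m * ∑ k ∈ Icc 1 K, (fun k => 4 * ∫ u in (0 : ℝ)..1, g k u) k / Real.log m ^ k)| ≤
              C * m / Real.log m ^ (K + 1) := by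
  choose B hB using hg
  intro K
  obtain ⟨C1, s0, hs0, hC1⟩ := hrec K
  set M := ∑ k ∈ Icc 1 K, B k with hM
  have hM0 : 0 ≤ M := sum_nonneg fun k _ => smooth_HB_nonneg (hB k)
  obtain ⟨C2, hC2, hC2'⟩ := smooth_sdeg h2 h3 K M
  have hT0 : ∀ (f : ℝ → ℝ) (u : ℝ), T 0 f u = ∫ v in (0 : ℝ)..1, f v := by
    intro f u
    simp [T]
  have hR := fun k => h3 0 (B k)
  choose C3 hC3 using hR
  -- the constant
  set D := 2 * Real.exp M * (1 + M) + |C1| + 2 * Real.exp M * C2 +
    4 * ∑ k ∈ Icc 1 K, |C3 k| with hD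
  have hexpM : 1 ≤ Real.exp M := Real.one_le_exp hM0
  have hD1 : 2 * Real.exp M * (1 + M) ≤ D := by
    have : 0 ≤ |C1| + 2 * Real.exp M * C2 + 4 * ∑ k ∈ Icc 1 K, |C3 k| := by positivity
    linarith
  have hD2 : |C1| + 2 * Real.exp M * C2 ≤ D := by
    have : 0 ≤ 2 * Real.exp M * (1 + M) + 4 * ∑ k ∈ Icc 1 K, |C3 k| := by positivity
    linarith
  have hD3 : 4 * ∑ k ∈ Icc 1 K, |C3 k| ≤ D := by
    have : 0 ≤ 2 * Real.exp M * (1 + M) + (|C1| + 2 * Real.exp M * C2) := by positivity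
    linarith
  have hD0 : 0 < D := by
    have : 0 < 2 * Real.exp M * (1 + M) := by positivity
    linarith
  refine ⟨D, hD0, ?_⟩
  filter_upwards [smooth_log_small (K + 1), smooth_log_large (1 / s0), eventually_ge_atTop 3]
    with m hm1 hm2 hm3
  have hm0 : (0 : ℝ) < m := by exact_mod_cast (by omega : 0 < m)
  have hL : 0 < Real.log m := Real.log_pos (by exact_mod_cast (by omega : 1 < m))
  set L := Real.log m with hLdef
  have hs1 : 1 / L ≤ 1 := by
    rw [div_le_one hL, hLdef, Real.le_log_iff_exp_le hm0]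
    have h1 := Real.exp_one_lt_d9
    have h2 : (3 : ℝ) ≤ m := by exact_mod_cast hm3
    linarith
  have hsp : 0 < 1 / L := by positivity
  have hss : 1 / L ≤ s0 := by
    rw [div_le_iff₀ hL]
    rw [div_le_iff₀ hs0] at hm2
    linarith
  set G : ℝ → ℝ := GG g K (1 / L) with hG
  have hGB : HB M G := smooth_GG_HB hB K hsp.le hs1
  have hfB := smooth_exp_HB hGB
  have hu : ∀ i : ℕ, i < m → ((i : ℝ) / m) ∈ Set.Icc (0 : ℝ) 1 := by
    intro i hi
    constructor
    · positivity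
    · rw [div_le_one hm0]
      exact_mod_cast hi.le
  set ρ := √(L / m) with hρ
  have hρ0 : 0 < ρ := Real.sqrt_pos.mpr (by positivity)
  have hq : √(L / (2 * m)) = ρ / √2 := by
    rw [hρ, ← Real.sqrt_div (by positivity)]
    congr 1
    field_simp
  have hr2 : 0 < √(2 : ℝ) := by positivity
  have hr2' : 1 ≤ √(2 : ℝ) := Real.one_le_sqrt.mpr (by norm_num)
  have hr2'' : √(2 : ℝ) ≤ 2 := by
    rw [Real.sqrt_le_left (by norm_num)]
    norm_num
  refine ⟨fun i => √(L / (2 * m)) * Real.exp (G (i / m)), ⟨?_, ?_⟩, ?_, ?_⟩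
  · intro i hi
    have hGi := hGB.1 _ (hu i hi)
    rw [abs_le] at hGi
    have e1 : Real.exp (G (i / m)) ≤ Real.exp M := Real.exp_le_exp.mpr hGi.2
    have e2 : (Real.exp M)⁻¹ ≤ Real.exp (G (i / m)) := by
      rw [← Real.exp_neg]
      exact Real.exp_le_exp.mpr hGi.1
    have hD4 : 2 * Real.exp M ≤ D := by nlinarith
    simp only
    rw [hq]
    constructor
    · rw [div_mul_eq_mul_div, mul_comm D⁻¹, mul_div_assoc]
      apply mul_le_mul_of_nonneg_left _ hρ0.le
      rw [le_div_iff₀ hr2]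
      refine le_trans ?_ e2
      have e3 : D⁻¹ ≤ (2 * Real.exp M)⁻¹ := by
        apply inv_anti₀ (by positivity) hD4
      have e4 : (2 * Real.exp M)⁻¹ * 2 = (Real.exp M)⁻¹ := by
        field_simp
      rw [← e4]
      exact mul_le_mul e3 hr2'' (by positivity) (by positivity)
    · rw [div_mul_eq_mul_div, mul_comm D, div_le_iff₀ hr2, mul_assoc]
      apply mul_le_mul_of_nonneg_left _ hρ0.le
      nlinarith
  · intro i hi j hj
    simp only
    rw [hq, ← mul_sub, abs_mul, abs_of_pos (by positivity)]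
    have e1 := hfB.2 _ (hu i hi) _ (hu j hj)
    have e2 : |(i : ℝ) / m - j / m| = |(i : ℝ) - j| / m := by
      rw [← sub_div, abs_div, abs_of_pos hm0]
    rw [e2] at e1
    have e3 : ρ / √2 ≤ ρ := div_le_self hρ0.le hr2'
    calc ρ / √2 * |Real.exp (G (i / m)) - Real.exp (G (j / m))|
        ≤ ρ * (Real.exp M * (1 + M) * √(|(i : ℝ) - j| / m)) :=
          mul_le_mul e3 e1 (abs_nonneg _) hρ0.le
      _ ≤ ρ * (D * √(|(i : ℝ) - j| / m)) := by
          apply mul_le_mul_of_nonneg_left _ hρ0.le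
          apply mul_le_mul_of_nonneg_right _ (Real.sqrt_nonneg _)
          have : 0 ≤ Real.exp M * (1 + M) := by positivity
          linarith
      _ = D * ρ * √(|(i : ℝ) - j| / m) := by ring
  · intro i hi
    have e1 : sdeg m (fun i => √(L / (2 * m)) * Real.exp (G (i / m))) i =
        Real.exp (G (i / m)) * (1 / (m : ℝ) * ∑ j ∈ range m, Real.exp (G (j / m)) *
          (L / Real.log (2 * ((i : ℝ) + j) + 3))) := by
      unfold sdeg
      rw [mul_sum, mul_sum]
      refine sum_congr rfl fun j _ => ?_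
      have e2 : √(L / (2 * m)) * √(L / (2 * m)) = L / (2 * m) :=
        Real.mul_self_sqrt (by positivity)
      calc √(L / (2 * m)) * Real.exp (G (i / m)) * (√(L / (2 * m)) * Real.exp (G (j / m))) *
            (2 / Real.log (2 * ((i : ℝ) + j) + 3))
          = (√(L / (2 * m)) * √(L / (2 * m))) * (Real.exp (G (i / m)) * Real.exp (G (j / m)) *
            (2 / Real.log (2 * ((i : ℝ) + j) + 3))) := by ring
        _ = _ := by
          rw [e2]
          field_simp
    have e2 := hC2' G hGB m hm3 i hi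
    have e3 := hC1 (1 / L) hsp hss (i / m) (hu i hi)
    have e4 : EE g K (K + 1) (1 / L) (i / m) = Real.exp (G (i / m)) *
        ∑ k ∈ range (K + 1), (-(1 / L)) ^ k * T k (fun v => Real.exp (G v)) (i / m) := rfl
    rw [e1]
    set P := 1 / (m : ℝ) * ∑ j ∈ range m, Real.exp (G (j / m)) *
          (L / Real.log (2 * ((i : ℝ) + j) + 3)) with hP
    set Q := ∑ k ∈ range (K + 1), (-(1 / L)) ^ k * T k (fun v => Real.exp (G v)) (i / m) with hQ
    have e5 : Real.exp (G (i / m)) * P - 1 = Real.exp (G (i / m)) * (P - Q) +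
        (EE g K (K + 1) (1 / L) (i / m) - 1) := by
      rw [e4]; ring
    have e6 : Real.exp (G (i / m)) ≤ Real.exp M :=
      Real.exp_le_exp.mpr ((le_abs_self _).trans (hGB.1 _ (hu i hi)))
    have hp : 0 < (1 / L) ^ (K + 1) := by positivity
    rw [e5]
    calc |Real.exp (G (i / m)) * (P - Q) + (EE g K (K + 1) (1 / L) (i / m) - 1)|
        ≤ Real.exp M * (C2 * (2 * (1 / L) ^ (K + 1))) + |C1| * (1 / L) ^ (K + 1) := by
          refine (abs_add_le _ _).trans (add_le_add ?_ ?_)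
          · rw [abs_mul, abs_of_pos (Real.exp_pos _)]
            apply mul_le_mul e6 _ (abs_nonneg _) (Real.exp_pos _).le
            refine e2.trans (mul_le_mul_of_nonneg_left ?_ hC2)
            linarith
          · exact e3.trans (mul_le_mul_of_nonneg_right (le_abs_self _) hp.le)
      _ = (|C1| + 2 * Real.exp M * C2) * (1 / L) ^ (K + 1) := by ring
      _ ≤ D * (1 / L) ^ (K + 1) := mul_le_mul_of_nonneg_right hD2 hp.le
      _ = D / L ^ (K + 1) := by rw [one_div_pow, mul_one_div]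
  · have e1 : ∀ i ∈ range m, Real.log (√(L / (2 * m)) * Real.exp (G (i / m))) =
        (Real.log L - Real.log 2 - L) / 2 + G (i / m) := by
      intro i _
      rw [Real.log_mul (by positivity) (Real.exp_pos _).ne', Real.log_exp,
        Real.log_sqrt (by positivity), Real.log_div hL.ne' (by positivity),
        Real.log_mul (by norm_num) hm0.ne', ← hLdef]
      ring
    simp only
    rw [sum_congr rfl e1, sum_add_distrib, sum_const, card_range, nsmul_eq_mul]
    have e2 : ∑ i ∈ range m, G (i / m) =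
        ∑ k ∈ Icc 1 K, (1 / L) ^ k * ∑ i ∈ range m, g k (i / m) := by
      simp only [hG, GG]
      rw [sum_comm]
      refine sum_congr rfl fun k _ => ?_
      rw [mul_sum]
    have e3 : (m : ℝ) * ∑ k ∈ Icc 1 K, (4 * ∫ u in (0 : ℝ)..1, g k u) / L ^ k =
        4 * ∑ k ∈ Icc 1 K, (1 / L) ^ k * (m * ∫ u in (0 : ℝ)..1, g k u) := by
      rw [mul_sum, mul_sum]
      refine sum_congr rfl fun k _ => ?_
      rw [one_div_pow]
      field_simp
    rw [e2, e3]
    have e4 : -4 * (↑m * ((Real.log L - Real.log 2 - L) / 2) +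
        ∑ k ∈ Icc 1 K, (1 / L) ^ k * ∑ i ∈ range m, g k (i / m)) -
        (2 * ↑m * L - 2 * ↑m * Real.log L + 2 * Real.log 2 * ↑m -
        4 * ∑ k ∈ Icc 1 K, (1 / L) ^ k * (m * ∫ u in (0 : ℝ)..1, g k u)) =
        -4 * ∑ k ∈ Icc 1 K, (1 / L) ^ k * (∑ i ∈ range m, g k (i / m) -
          m * ∫ u in (0 : ℝ)..1, g k u) := by
      simp_rw [mul_sub]
      rw [sum_sub_distrib]
      ring
    rw [e4, abs_mul]
    have e5 : |∑ k ∈ Icc 1 K, (1 / L) ^ k * (∑ i ∈ range m, g k (i / m) -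
          m * ∫ u in (0 : ℝ)..1, g k u)| ≤
        (∑ k ∈ Icc 1 K, |C3 k|) * (m * (1 / L) ^ (K + 1)) := by
      rw [sum_mul]
      refine (abs_sum_le_sum_abs _ _).trans (sum_le_sum fun k _ => ?_)
      rw [abs_mul, abs_of_pos (by positivity)]
      have e6 := hC3 k (g k) (hB k) m (by omega) 0 (by omega)
      rw [hT0] at e6
      simp only [pow_zero, one_mul] at e6
      have e7 : ∑ i ∈ range m, g k (i / m) - m * ∫ u in (0 : ℝ)..1, g k u =
          m * (1 / (m : ℝ) * ∑ i ∈ range m, g k (i / m) - ∫ u in (0 : ℝ)..1, g k u) := by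
        field_simp
      rw [e7, abs_mul, abs_of_pos hm0]
      have e8 : C3 k / (m : ℝ) ^ (1 / 4 : ℝ) ≤ |C3 k| * (1 / L) ^ (K + 1) := by
        calc C3 k / (m : ℝ) ^ (1 / 4 : ℝ) ≤ |C3 k| / (m : ℝ) ^ (1 / 4 : ℝ) :=
              div_le_div_of_nonneg_right (le_abs_self _) (by positivity)
          _ = |C3 k| * (1 / (m : ℝ) ^ (1 / 4 : ℝ)) := by rw [mul_one_div]
          _ ≤ _ := mul_le_mul_of_nonneg_left hm1 (abs_nonneg _)
      have e9 : (1 / L) ^ k ≤ 1 := pow_le_one₀ hsp.le hs1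
      have e10 := e6.trans e8
      calc (1 / L) ^ k * (m * |1 / (m : ℝ) * ∑ i ∈ range m, g k (i / m) -
            ∫ u in (0 : ℝ)..1, g k u|) ≤ 1 * (m * (|C3 k| * (1 / L) ^ (K + 1))) :=
            mul_le_mul e9 (mul_le_mul_of_nonneg_left e10 hm0.le) (by positivity) zero_le_one
        _ = _ := by ring
    have e11 : |(-4 : ℝ)| = 4 := by norm_num
    rw [e11]
    have hp : 0 < (m : ℝ) * (1 / L) ^ (K + 1) := by positivity
    calc 4 * |∑ k ∈ Icc 1 K, (1 / L) ^ k * (∑ i ∈ range m, g k (i / m) -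
          m * ∫ u in (0 : ℝ)..1, g k u)| ≤
          4 * ((∑ k ∈ Icc 1 K, |C3 k|) * (m * (1 / L) ^ (K + 1))) := by linarith
      _ = (4 * ∑ k ∈ Icc 1 K, |C3 k|) * (m * (1 / L) ^ (K + 1)) := by ring
      _ ≤ D * (m * (1 / L) ^ (K + 1)) := mul_le_mul_of_nonneg_right hD3 hp.le
      _ = D * m / L ^ (K + 1) := by rw [one_div_pow]; ring



/-- from the smooth model to prime circles, for given coefficients -/
theorem final2_gen (c : ℕ → ℝ) (hc : ∀ K : ℕ, ∃ C : ℝ, 0 < C ∧
      ∀ᶠ m : ℕ in atTop, ∃ x : ℕ → ℝ, Wt C m x ∧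
        (∀ i < m, |sdeg m x i - 1| ≤ C / Real.log m ^ (K + 1)) ∧
        |-4 * ∑ i ∈ range m, Real.log (x i) -
          (2 * m * Real.log m - 2 * m * Real.log (Real.log m) + 2 * Real.log 2 * m -
            m * ∑ k ∈ Icc 1 K, c k / Real.log m ^ k)| ≤ C * m / Real.log m ^ (K + 1))
    (h2 : Stmt_Row) (h3 : Stmt_Low) (h4 : Stmt_Up) :
    ∀ K : ℕ, ∃ C : ℝ, ∀ᶠ m : ℕ in atTop, 0 < numPrimeCircles m ∧
    |Real.log (numPrimeCircles m) -
      (2 * m * Real.log m - 2 * m * Real.log (Real.log m) + (2 * Real.log 2 - 2) * m -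
        m * ∑ k ∈ Icc 1 K, c k / Real.log m ^ k)| ≤ C * m / Real.log m ^ (K + 1) := by
  intro K
  obtain ⟨C, hC, hsm⟩ := hc K
  obtain ⟨C', hrow⟩ := h2 K C hC
  set D : ℝ := C + |C'| with hD
  have hD0 : 0 < D := by positivity
  have hCD : C ≤ D := by rw [hD]; linarith [abs_nonneg C']
  obtain ⟨C3, hlow⟩ := h3 K D hD0
  obtain ⟨C4, hup⟩ := h4 K D hD0
  refine ⟨C + |C3| + |C4|, ?_⟩
  filter_upwards [hsm, hrow, hlow, hup, eventually_ge_atTop 3] with m e1 e2 e3 e4 hm
  obtain ⟨x, hx, hs, hsum⟩ := e1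
  have hm' : (3 : ℝ) ≤ m := by exact_mod_cast hm
  have hL : 0 < Real.log m := Real.log_pos (by linarith)
  have hLK : 0 < Real.log m ^ (K + 1) := by positivity
  have hxD : Wt D m x := Final.wt_mono hC hCD hx
  have hR : RowOK D K m x := by
    intro i hi
    have f1 := e2 x hx i hi
    have f2 := hs i hi
    have f3 : |wdeg m x i - 1| ≤ |wdeg m x i - sdeg m x i| + |sdeg m x i - 1| := by
      have := abs_add_le (wdeg m x i - sdeg m x i) (sdeg m x i - 1)
      have e : wdeg m x i - sdeg m x i + (sdeg m x i - 1) = wdeg m x i - 1 := by ring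
      rwa [e] at this
    have f4 : C' / Real.log m ^ (K + 1) ≤ |C'| / Real.log m ^ (K + 1) := by
      have := le_abs_self C'
      gcongr
    have f5 : D / Real.log m ^ (K + 1) =
        C / Real.log m ^ (K + 1) + |C'| / Real.log m ^ (K + 1) := by
      rw [hD, add_div]
    rw [f5]
    linarith
  obtain ⟨g1, g2⟩ := e3 x hxD hR
  have g3 := e4 x hxD hR
  refine ⟨g1, ?_⟩
  have hmL : 0 ≤ (m : ℝ) / Real.log m ^ (K + 1) := by positivity
  have a3 : C3 * m / Real.log m ^ (K + 1) ≤ |C3| * (m / Real.log m ^ (K + 1)) := by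
    rw [mul_div_assoc]
    exact mul_le_mul_of_nonneg_right (le_abs_self _) hmL
  have a4 : C4 * m / Real.log m ^ (K + 1) ≤ |C4| * (m / Real.log m ^ (K + 1)) := by
    rw [mul_div_assoc]
    exact mul_le_mul_of_nonneg_right (le_abs_self _) hmL
  have b3 : 0 ≤ |C3| * (m / Real.log m ^ (K + 1)) := by positivity
  have b4 : 0 ≤ |C4| * (m / Real.log m ^ (K + 1)) := by positivity
  have a5 : (C + |C3| + |C4|) * m / Real.log m ^ (K + 1) =
      C * m / Real.log m ^ (K + 1) + |C3| * (m / Real.log m ^ (K + 1)) +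
        |C4| * (m / Real.log m ^ (K + 1)) := by ring
  rw [a5]
  rw [abs_le] at hsum ⊢
  obtain ⟨s1, s2⟩ := hsum
  constructor <;> linarith


theorem main_Final2 (hRec : Stmt_Rec) (hLam : Stmt_Lam) (hC : Stmt_C2a) (hM : Stmt_Mval)
    (hQ : Stmt_Qval) (hAbs : Stmt_Abs) (hRiem : Stmt_Riem) (h2 : Stmt_Row) (h3 : Stmt_Low)
    (h4 : Stmt_Up) : Stmt_Final2 := by
  obtain ⟨g, hg, hg1, hrec⟩ := hRec
  refine ⟨fun k => 4 * ∫ u in (0 : ℝ)..1, g k u, hg1, ?_,
    final2_gen _ (final2_smooth g hg hrec hAbs hRiem) h2 h3 h4⟩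
  have h := hC g hg (hrec 2)
  unfold Stmt_Mval at hM
  unfold Stmt_Qval at hQ
  unfold Stmt_Lam at hLam
  simp only
  rw [h, hM, hQ, hLam]
  ring

end Pool.Agent.PCX
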