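import Pool.Agent.PCX.Stmts

/-!
# The operators `T_k` on Hoelder functions. Paper: /team-store/PCX_paper.md, [Tk]
-/

set_option autoImplicit false

namespace Pool.Agent.PCX

open MeasureTheory Set

/-- the constant in the majorant of powers of the logarithm -/
noncomputable def TkM (n : ℕ) : ℝ := (n.factorial : ℝ) * 4 ^ n * Real.exp (1 / 2)

theorem TkM_pos (n : ℕ) : 0 < TkM n := by
  unfold TkM
  have := n.factorial_pos
  positivity

theorem Tk_two_sub_log (v : ℝ) (h0 : 0 < v) (h1 : v ≤ 1) : 2 ≤ 2 - Real.log v := by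
  have := Real.log_nonpos h0.le h1
  linarith

theorem Tk_major (n : ℕ) (v : ℝ) (h0 : 0 < v) (h1 : v ≤ 1) :
    (2 - Real.log v) ^ n ≤ TkM n * v ^ (-(1 / 4) : ℝ) := by
  have ht := Tk_two_sub_log v h0 h1
  set t := 2 - Real.log v with htd
  have h2 := Real.pow_div_factorial_le_exp (t / 4) (by linarith) n
  have hf : (0 : ℝ) < n.factorial := by exact_mod_cast n.factorial_pos
  have h3 : t ^ n ≤ n.factorial * 4 ^ n * Real.exp (t / 4) := by
    rw [div_le_iff₀ hf, div_pow, div_le_iff₀ (by positivity)] at h2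
    calc t ^ n ≤ Real.exp (t / 4) * n.factorial * 4 ^ n := h2
      _ = n.factorial * 4 ^ n * Real.exp (t / 4) := by ring
  have h4 : Real.exp (t / 4) = Real.exp (1 / 2) * v ^ (-(1 / 4) : ℝ) := by
    rw [Real.rpow_def_of_pos h0, ← Real.exp_add]
    congr 1
    rw [htd]; ring
  rw [h4] at h3
  calc t ^ n ≤ _ := h3
    _ = TkM n * v ^ (-(1 / 4) : ℝ) := by unfold TkM; ring

theorem Tk_abs_log (u v : ℝ) (hu0 : 0 ≤ u) (hu1 : u ≤ 1) (h0 : 0 < v) (h1 : v ≤ 1) :
    |Real.log (2 * (u + v))| ≤ 2 - Real.log v := by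
  have hl := Real.log_nonpos h0.le h1
  rw [abs_le]
  constructor
  · have : Real.log v ≤ Real.log (2 * (u + v)) := Real.log_le_log h0 (by linarith)
    linarith
  · have h2 : Real.log (2 * (u + v)) ≤ Real.log 4 :=
      Real.log_le_log (by positivity) (by linarith)
    have h3 : Real.log 4 = 2 * Real.log 2 := by
      rw [show (4 : ℝ) = 2 ^ 2 by norm_num, Real.log_pow]; norm_num
    have h4 := Real.log_two_lt_d9
    linarith

theorem Tk_log_add_one (y : ℝ) (hy : 0 ≤ y) : Real.log (1 + y) ≤ 2 * √y := by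
  have h1 : (1 + y) = √(1 + y) ^ 2 := (Real.sq_sqrt (by linarith)).symm
  have h2 : 0 < √(1 + y) := Real.sqrt_pos.2 (by linarith)
  have h3 : Real.log (1 + y) = 2 * Real.log √(1 + y) := by
    conv_lhs => rw [h1]
    rw [Real.log_pow]; norm_num
  have h4 := Real.log_le_sub_one_of_pos h2
  have h5 : √(1 + y) ≤ 1 + √y := by
    rw [Real.sqrt_le_left (by positivity)]
    nlinarith [Real.sq_sqrt hy, Real.sqrt_nonneg y]
  rw [h3]; linarith

theorem Tk_log_diff (u u' v : ℝ) (hu0 : 0 ≤ u) (huu : u ≤ u') (h0 : 0 < v) :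
    |Real.log (2 * (u' + v)) - Real.log (2 * (u + v))| ≤
      2 * √(u' - u) * v ^ (-(1 / 2) : ℝ) := by
  have hp : 0 < 2 * (u + v) := by positivity
  have h1 : Real.log (2 * (u + v)) ≤ Real.log (2 * (u' + v)) :=
    Real.log_le_log hp (by linarith)
  rw [abs_of_nonneg (by linarith), ← Real.log_div (by linarith) hp.ne']
  have h2 : 2 * (u' + v) / (2 * (u + v)) ≤ 1 + (u' - u) / v := by
    rw [div_le_iff₀ hp]
    have e : (1 + (u' - u) / v) * (2 * (u + v)) = 2 * (u + v) + 2 * (u' - u) +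
        2 * (u' - u) * (u / v) := by
      field_simp; ring
    rw [e]
    have : 0 ≤ 2 * (u' - u) * (u / v) := by
      have : 0 ≤ u' - u := by linarith
      positivity
    linarith
  have hq : 0 < 2 * (u' + v) / (2 * (u + v)) := div_pos (by linarith) hp
  have hd : 0 ≤ (u' - u) / v := div_nonneg (by linarith) h0.le
  calc Real.log (2 * (u' + v) / (2 * (u + v))) ≤ Real.log (1 + (u' - u) / v) :=
        Real.log_le_log hq h2
    _ ≤ 2 * √((u' - u) / v) := Tk_log_add_one _ hd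
    _ = 2 * √(u' - u) * v ^ (-(1 / 2) : ℝ) := by
        rw [Real.sqrt_div' _ h0.le, Real.rpow_neg h0.le, ← Real.sqrt_eq_rpow]
        ring

theorem Tk_integrable_rpow (r : ℝ) (hr : -1 < r) (c : ℝ) :
    IntervalIntegrable (fun v : ℝ => c * v ^ r) volume 0 1 :=
  (intervalIntegral.intervalIntegrable_rpow' hr).const_mul c

theorem Tk_integral_rpow (r : ℝ) (hr : -1 < r) (c : ℝ) :
    ∫ v in (0 : ℝ)..1, c * v ^ r = c / (r + 1) := by
  rw [intervalIntegral.integral_const_mul, integral_rpow (Or.inl hr), Real.one_rpow,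
    Real.zero_rpow (by linarith)]
  ring

theorem Tk_integrand (k : ℕ) (η : ℝ) (f : ℝ → ℝ) (hη : 0 ≤ η)
    (hf : ∀ v ∈ Icc (0 : ℝ) 1, |f v| ≤ η) (u : ℝ) (hu : u ∈ Icc (0 : ℝ) 1) (v : ℝ)
    (hv : v ∈ Ioc (0 : ℝ) 1) :
    ‖Real.log (2 * (u + v)) ^ k * f v‖ ≤ η * TkM k * v ^ (-(1 / 4) : ℝ) := by
  rw [Real.norm_eq_abs, abs_mul, abs_pow]
  have h1 := Tk_abs_log u v hu.1 hu.2 hv.1 hv.2
  have h2 := Tk_major k v hv.1 hv.2
  have h3 : |Real.log (2 * (u + v))| ^ k ≤ (2 - Real.log v) ^ k :=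
    pow_le_pow_left₀ (abs_nonneg _) h1 k
  have h4 := hf v ⟨hv.1.le, hv.2⟩
  calc |Real.log (2 * (u + v))| ^ k * |f v| ≤ (TkM k * v ^ (-(1 / 4) : ℝ)) * η :=
        mul_le_mul (h3.trans h2) h4 (abs_nonneg _)
          (mul_nonneg (TkM_pos k).le (Real.rpow_nonneg hv.1.le _))
    _ = η * TkM k * v ^ (-(1 / 4) : ℝ) := by ring

theorem Tk_integrable (k : ℕ) (η : ℝ) (f : ℝ → ℝ) (hη : 0 ≤ η)
    (hc : ContinuousOn f (Icc 0 1))
    (hf : ∀ v ∈ Icc (0 : ℝ) 1, |f v| ≤ η) (u : ℝ) (hu : u ∈ Icc (0 : ℝ) 1) :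
    IntervalIntegrable (fun v => Real.log (2 * (u + v)) ^ k * f v) volume 0 1 := by
  refine (Tk_integrable_rpow (-(1 / 4)) (by norm_num) (η * TkM k)).mono_fun' ?_ ?_
  · rw [uIoc_of_le zero_le_one]
    refine AEStronglyMeasurable.mul ?_ ?_
    · have : Measurable fun v : ℝ => Real.log (2 * (u + v)) ^ k := by fun_prop
      exact this.aestronglyMeasurable
    · exact (hc.mono Ioc_subset_Icc_self).aestronglyMeasurable measurableSet_Ioc
  · rw [uIoc_of_le zero_le_one]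
    refine (ae_restrict_iff' measurableSet_Ioc).2 (Filter.Eventually.of_forall ?_)
    intro v hv
    exact Tk_integrand k η f hη hf u hu v hv

theorem Tk_sup (k : ℕ) (η : ℝ) (f : ℝ → ℝ) (hη : 0 ≤ η)
    (hf : ∀ v ∈ Icc (0 : ℝ) 1, |f v| ≤ η) (u : ℝ) (hu : u ∈ Icc (0 : ℝ) 1) :
    |T k f u| ≤ 4 / 3 * TkM k * η := by
  unfold T
  rw [← Real.norm_eq_abs]
  refine (intervalIntegral.norm_integral_le_of_norm_le zero_le_one
    (g := fun v => η * TkM k * v ^ (-(1 / 4) : ℝ)) (Filter.Eventually.of_forall ?_)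
    (Tk_integrable_rpow _ (by norm_num) _)).trans ?_
  · intro v hv
    exact Tk_integrand k η f hη hf u hu v hv
  · rw [Tk_integral_rpow _ (by norm_num)]
    apply le_of_eq
    norm_num
    ring

theorem Tk_HB_cont (B : ℝ) (f : ℝ → ℝ) (hB : 0 ≤ B) (h : HB B f) :
    ContinuousOn f (Icc 0 1) := by
  intro x hx
  rw [ContinuousWithinAt, tendsto_iff_dist_tendsto_zero]
  have h1 : Filter.Tendsto (fun y : ℝ => B * √|y - x|) (nhdsWithin x (Icc 0 1)) (nhds 0) := by
    have : Continuous fun y : ℝ => B * √|y - x| := by fun_prop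
    have h2 := this.tendsto x
    simp only [sub_self, abs_zero, Real.sqrt_zero, mul_zero] at h2
    exact h2.mono_left nhdsWithin_le_nhds
  refine squeeze_zero' (Filter.Eventually.of_forall fun y => dist_nonneg) ?_ h1
  filter_upwards [self_mem_nhdsWithin] with y hy
  rw [Real.dist_eq]
  exact h.2 y hy x hx

theorem Tk_holder_le (k : ℕ) (B : ℝ) (f : ℝ → ℝ) (hB : 0 ≤ B) (h : HB B f) (u u' : ℝ)
    (hu : u ∈ Icc (0 : ℝ) 1) (hu' : u' ∈ Icc (0 : ℝ) 1) (huu : u ≤ u') :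
    |T k f u' - T k f u| ≤ 8 * k * TkM (k - 1) * B * √(u' - u) := by
  have hc := Tk_HB_cont B f hB h
  have i1 := Tk_integrable k B f hB hc h.1 u' hu'
  have i2 := Tk_integrable k B f hB hc h.1 u hu
  unfold T
  rw [← intervalIntegral.integral_sub i1 i2, ← Real.norm_eq_abs]
  refine (intervalIntegral.norm_integral_le_of_norm_le zero_le_one
    (g := fun v => (2 * k * TkM (k - 1) * B * √(u' - u)) * v ^ (-(3 / 4) : ℝ))
    (Filter.Eventually.of_forall ?_)
    (Tk_integrable_rpow _ (by norm_num) _)).trans ?_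
  · intro v hv
    rw [← sub_mul, Real.norm_eq_abs, abs_mul]
    have a1 := Tk_abs_log u v hu.1 hu.2 hv.1 hv.2
    have a2 := Tk_abs_log u' v hu'.1 hu'.2 hv.1 hv.2
    have a3 := Tk_log_diff u u' v hu.1 huu hv.1
    have a4 := abs_pow_sub_pow_le (Real.log (2 * (u' + v))) (Real.log (2 * (u + v))) k
    have a5 : max |Real.log (2 * (u' + v))| |Real.log (2 * (u + v))| ^ (k - 1) ≤
        TkM (k - 1) * v ^ (-(1 / 4) : ℝ) :=
      (pow_le_pow_left₀ (le_max_of_le_left (abs_nonneg _)) (max_le a2 a1) (k - 1)).trans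
        (Tk_major (k - 1) v hv.1 hv.2)
    have a6 := h.1 v ⟨hv.1.le, hv.2⟩
    have hvv : (0 : ℝ) ≤ v ^ (-(1 / 2) : ℝ) := Real.rpow_nonneg hv.1.le _
    have hvw : (0 : ℝ) ≤ v ^ (-(1 / 4) : ℝ) := Real.rpow_nonneg hv.1.le _
    have hs : 0 ≤ √(u' - u) := Real.sqrt_nonneg _
    have hM := (TkM_pos (k - 1)).le
    have hmul : v ^ (-(1 / 2) : ℝ) * v ^ (-(1 / 4) : ℝ) = v ^ (-(3 / 4) : ℝ) := by
      rw [← Real.rpow_add hv.1]; norm_num
    have b1 : |Real.log (2 * (u' + v)) ^ k - Real.log (2 * (u + v)) ^ k| ≤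
        (2 * √(u' - u) * v ^ (-(1 / 2) : ℝ)) * k * (TkM (k - 1) * v ^ (-(1 / 4) : ℝ)) := by
      refine a4.trans ?_
      refine mul_le_mul (mul_le_mul_of_nonneg_right a3 (Nat.cast_nonneg k)) a5 ?_ (by positivity)
      exact pow_nonneg (le_max_of_le_left (abs_nonneg _)) _
    calc |Real.log (2 * (u' + v)) ^ k - Real.log (2 * (u + v)) ^ k| * |f v|
        ≤ ((2 * √(u' - u) * v ^ (-(1 / 2) : ℝ)) * k * (TkM (k - 1) * v ^ (-(1 / 4) : ℝ))) * B :=
          mul_le_mul b1 a6 (abs_nonneg _) (by positivity)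
      _ = (2 * k * TkM (k - 1) * B * √(u' - u)) *
          (v ^ (-(1 / 2) : ℝ) * v ^ (-(1 / 4) : ℝ)) := by ring
      _ = (2 * k * TkM (k - 1) * B * √(u' - u)) * v ^ (-(3 / 4) : ℝ) := by rw [hmul]
  · rw [Tk_integral_rpow _ (by norm_num)]
    apply le_of_eq
    norm_num
    ring

theorem main_Tk : Stmt_Tk := by
  intro k
  have hM := TkM_pos k
  have hM' := TkM_pos (k - 1)
  set C := 4 / 3 * TkM k + 8 * k * TkM (k - 1) with hC
  have hC0 : 0 < C := by positivity
  have hC1 : 4 / 3 * TkM k ≤ C := by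
    have : 0 ≤ 8 * k * TkM (k - 1) := by positivity
    linarith
  have hC2 : 8 * k * TkM (k - 1) ≤ C := by
    have : 0 ≤ 4 / 3 * TkM k := by positivity
    linarith
  refine ⟨C, hC0, ?_, ?_, ?_⟩
  · intro B f hB h
    refine ⟨?_, ?_⟩
    · intro u hu
      exact (Tk_sup k B f hB h.1 u hu).trans (mul_le_mul_of_nonneg_right hC1 hB)
    · have key : ∀ u ∈ Icc (0 : ℝ) 1, ∀ u' ∈ Icc (0 : ℝ) 1, u ≤ u' →
          |T k f u' - T k f u| ≤ C * B * √(u' - u) := by
        intro u hu u' hu' huu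
        refine (Tk_holder_le k B f hB h u u' hu hu' huu).trans ?_
        exact mul_le_mul_of_nonneg_right (mul_le_mul_of_nonneg_right hC2 hB)
          (Real.sqrt_nonneg _)
      intro u hu v hv
      rcases le_total u v with huv | huv
      · have := key u hu v hv huv
        rw [abs_sub_comm (T k f u), abs_sub_comm u v, abs_of_nonneg (sub_nonneg.2 huv)]
        exact this
      · have := key v hv u hu huv
        rw [abs_of_nonneg (sub_nonneg.2 huv)]
        exact this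
  · intro η f hη _ hf u hu
    exact (Tk_sup k η f hη hf u hu).trans (mul_le_mul_of_nonneg_right hC1 hη)
  · intro c f g hf hg u hu
    obtain ⟨a, ha⟩ : ∃ a : ℝ, ∀ v ∈ Icc (0 : ℝ) 1, |f v| ≤ a := by
      obtain ⟨a, ha⟩ := isCompact_Icc.exists_bound_of_continuousOn hf
      exact ⟨a, fun v hv => by simpa [Real.norm_eq_abs] using ha v hv⟩
    obtain ⟨b, hb⟩ : ∃ b : ℝ, ∀ v ∈ Icc (0 : ℝ) 1, |g v| ≤ b := by
      obtain ⟨b, hb⟩ := isCompact_Icc.exists_bound_of_continuousOn hg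
      exact ⟨b, fun v hv => by simpa [Real.norm_eq_abs] using hb v hv⟩
    have ha0 : 0 ≤ a := (abs_nonneg _).trans (ha u hu)
    have hb0 : 0 ≤ b := (abs_nonneg _).trans (hb u hu)
    have i1 := Tk_integrable k a f ha0 hf ha u hu
    have i2 := Tk_integrable k b g hb0 hg hb u hu
    unfold T
    rw [← intervalIntegral.integral_const_mul, ← intervalIntegral.integral_add i1 (i2.const_mul c)]
    refine intervalIntegral.integral_congr fun v _ => ?_
    simp only
    ring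

end Pool.Agent.PCX
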