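import Pool.Agent.PCX.Stmts2
import Pool.Agent.PCX.Tk

/-!
# [Fub] Fubini for the kernel `log (2 (u + v))`
-/

set_option autoImplicit false

namespace Pool.Agent.PCX

open Finset Filter MeasureTheory

theorem Fub_integrable (f : ℝ → ℝ) (hf : ContinuousOn f (Set.Icc 0 1)) :
    Integrable (fun z : ℝ × ℝ => Real.log (2 * (z.1 + z.2)) * f z.2)
      ((volume.restrict (Set.Ioc (0 : ℝ) 1)).prod (volume.restrict (Set.Ioc (0 : ℝ) 1))) := by
  obtain ⟨B, hB⟩ := isCompact_Icc.exists_bound_of_continuousOn hf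
  have hlog : Integrable (fun v : ℝ => B * (2 - Real.log v)) (volume.restrict (Set.Ioc (0 : ℝ) 1)) := by
    have h1 : IntervalIntegrable (fun v : ℝ => B * (2 - Real.log v)) volume 0 1 :=
      (intervalIntegrable_const.sub intervalIntegral.intervalIntegrable_log').const_mul B
    exact (intervalIntegrable_iff_integrableOn_Ioc_of_le zero_le_one).1 h1
  refine Integrable.mono' (hlog.comp_snd (volume.restrict (Set.Ioc (0 : ℝ) 1))) ?_ ?_
  · apply AEStronglyMeasurable.mul
    · apply Measurable.aestronglyMeasurable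
      fun_prop
    · exact ((hf.mono Set.Ioc_subset_Icc_self).aestronglyMeasurable measurableSet_Ioc).comp_snd
  · rw [Measure.prod_restrict]
    refine (ae_restrict_iff' (measurableSet_Ioc.prod measurableSet_Ioc)).2 (Eventually.of_forall ?_)
    rintro ⟨u, v⟩ ⟨hu, hv⟩
    simp only at hu hv ⊢
    rw [Real.norm_eq_abs, abs_mul, mul_comm B]
    have h1 := Tk_abs_log u v hu.1.le hu.2 hv.1 hv.2
    have h2 := hB v ⟨hv.1.le, hv.2⟩
    rw [Real.norm_eq_abs] at h2
    have h3 : 0 ≤ |Real.log (2 * (u + v))| := abs_nonneg _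
    exact mul_le_mul h1 h2 (abs_nonneg _) (h3.trans h1)

theorem main_Fub : Stmt_Fub := by
  intro f hf
  have h := integral_integral_swap (f := fun u v : ℝ => Real.log (2 * (u + v)) * f v)
    (Fub_integrable f hf)
  have e1 : ∫ u in (0 : ℝ)..1, T 1 f u =
      ∫ u in Set.Ioc (0 : ℝ) 1, ∫ v in Set.Ioc (0 : ℝ) 1, Real.log (2 * (u + v)) * f v := by
    rw [intervalIntegral.integral_of_le zero_le_one]
    congr 1
    funext u
    unfold T
    rw [intervalIntegral.integral_of_le zero_le_one]
    simp only [pow_one]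
  have e2 : ∫ u in (0 : ℝ)..1, f u * T 1 (fun _ => 1) u =
      ∫ v in Set.Ioc (0 : ℝ) 1, ∫ u in Set.Ioc (0 : ℝ) 1, Real.log (2 * (u + v)) * f v := by
    rw [intervalIntegral.integral_of_le zero_le_one]
    congr 1
    funext v
    unfold T
    rw [intervalIntegral.integral_of_le zero_le_one, mul_comm, ← integral_mul_const]
    congr 1
    funext u
    rw [pow_one, mul_one, add_comm v u]
  rw [e1, e2]
  exact h

end Pool.Agent.PCX
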