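import Pool.Agent.PCX.Stmts

/-!
# [Lam] A double integral of the logarithm
-/

set_option autoImplicit false

namespace Pool.Agent.PCX

open Finset Filter

theorem Lam_inner (u : ℝ) : T 1 (fun _ => 1) u =
    (1 / 2) * ((2 * (u + 1)) * Real.log (2 * (u + 1))) -
      (1 / 2) * ((2 * u) * Real.log (2 * u)) - 1 := by
  unfold T
  have h1 : (fun v : ℝ => Real.log (2 * (u + v)) ^ 1 * (1 : ℝ)) =
      fun v : ℝ => Real.log (2 * v + 2 * u) := by
    funext v
    rw [pow_one, mul_one]
    congr 1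
    ring
  have h2 : (∫ v in (0 : ℝ)..1, Real.log (2 * (u + v)) ^ 1 * (1 : ℝ)) =
      ∫ v in (0 : ℝ)..1, Real.log (2 * v + 2 * u) := by
    rw [h1]
  have h3 := intervalIntegral.integral_comp_mul_add (fun y : ℝ => Real.log y)
    (c := 2) (a := 0) (b := 1) (by norm_num) (2 * u)
  rw [h2, h3, integral_log]
  have e1 : (2 : ℝ) * 1 + 2 * u = 2 * (u + 1) := by ring
  have e2 : (2 : ℝ) * 0 + 2 * u = 2 * u := by ring
  rw [e1, e2, smul_eq_mul]
  ring

/-- an antiderivative of `w log (2 w)` -/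
noncomputable def LamPsi (w : ℝ) : ℝ := (w / 4) * ((2 * w) * Real.log (2 * w)) - w ^ 2 / 4

theorem Lam_cont_mul : Continuous fun w : ℝ => (2 * w) * Real.log (2 * w) :=
  Real.continuous_mul_log.comp (continuous_const.mul continuous_id)

theorem LamPsi_cont : Continuous LamPsi := by
  unfold LamPsi
  exact ((continuous_id.div_const 4).mul Lam_cont_mul).sub ((continuous_pow 2).div_const 4)

theorem LamPsi_deriv {w : ℝ} (hw : 0 < w) :
    HasDerivAt LamPsi ((1 / 2) * ((2 * w) * Real.log (2 * w))) w := by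
  have hw2 : (2 : ℝ) * w ≠ 0 := by positivity
  have h1 : HasDerivAt (fun y : ℝ => 2 * y) 2 w := by
    simpa using (hasDerivAt_id w).const_mul (2 : ℝ)
  have h2 : HasDerivAt (fun y : ℝ => Real.log (2 * y)) (2 / (2 * w)) w := h1.log hw2
  have h3 : HasDerivAt (fun y : ℝ => (2 * y) * Real.log (2 * y))
      (2 * Real.log (2 * w) + (2 * w) * (2 / (2 * w))) w := h1.mul h2
  have h4 : HasDerivAt (fun y : ℝ => y / 4) (1 / 4) w := by
    simpa using (hasDerivAt_id w).div_const (4 : ℝ)
  have h5 := h4.mul h3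
  have h6 : HasDerivAt (fun y : ℝ => y ^ 2 / 4) ((2 * w) / 4) w := by
    have := (hasDerivAt_pow 2 w).div_const (4 : ℝ)
    simpa using this
  have h7 := h5.sub h6
  refine h7.congr_deriv ?_
  field_simp
  ring

theorem main_Lam : Stmt_Lam := by
  unfold Stmt_Lam
  have h1 : (∫ u in (0 : ℝ)..1, T 1 (fun _ => 1) u) =
      ∫ u in (0 : ℝ)..1, ((1 / 2) * ((2 * (u + 1)) * Real.log (2 * (u + 1))) -
        (1 / 2) * ((2 * u) * Real.log (2 * u)) - 1) := by
    congr 1
    funext u
    exact Lam_inner u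
  rw [h1]
  have hc : Continuous fun u : ℝ => (1 / 2) * ((2 * (u + 1)) * Real.log (2 * (u + 1))) -
      (1 / 2) * ((2 * u) * Real.log (2 * u)) - 1 := by
    have c1 : Continuous fun u : ℝ => (2 * (u + 1)) * Real.log (2 * (u + 1)) :=
      Lam_cont_mul.comp (continuous_id.add continuous_const)
    exact ((continuous_const.mul c1).sub (continuous_const.mul Lam_cont_mul)).sub continuous_const
  have hF : ContinuousOn (fun u : ℝ => LamPsi (u + 1) - LamPsi u - u) (Set.Icc 0 1) := by
    have c1 : Continuous fun u : ℝ => LamPsi (u + 1) :=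
      LamPsi_cont.comp (continuous_id.add continuous_const)
    exact ((c1.sub LamPsi_cont).sub continuous_id).continuousOn
  have hd : ∀ u ∈ Set.Ioo (0 : ℝ) 1, HasDerivAt (fun u : ℝ => LamPsi (u + 1) - LamPsi u - u)
      ((1 / 2) * ((2 * (u + 1)) * Real.log (2 * (u + 1))) -
        (1 / 2) * ((2 * u) * Real.log (2 * u)) - 1) u := by
    intro u hu
    have d1 : HasDerivAt (fun y : ℝ => LamPsi (y + 1))
        ((1 / 2) * ((2 * (u + 1)) * Real.log (2 * (u + 1)))) u := by
      have := (LamPsi_deriv (w := u + 1) (by linarith [hu.1])).comp_add_const u 1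
      exact this
    exact (d1.sub (LamPsi_deriv hu.1)).sub (hasDerivAt_id u)
  rw [intervalIntegral.integral_eq_sub_of_hasDerivAt_of_le zero_le_one hF hd
    (hc.intervalIntegrable 0 1)]
  unfold LamPsi
  have hl4 : Real.log (2 * (1 + 1)) = 2 * Real.log 2 := by
    rw [show (2 : ℝ) * (1 + 1) = 2 ^ 2 by norm_num, Real.log_pow]
    norm_num
  rw [hl4]
  norm_num
  ring

end Pool.Agent.PCX
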