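import Pool.Agent.PCX.Stmts
import Pool.Agent.PC.Final
import Pool.Agent.PC.Switch
import Pool.Agent.PC.Reservoir

/-!
# [Low]: assembly of the lower bound
-/

set_option autoImplicit false

namespace Pool.Agent.PCX

open Finset Filter Pool.Agent.PC Pool.Agent.PrimeCircle

/-- the combinatorial part: few cycles, reservoir and merging -/
private theorem low_comb : ∀ᶠ m : ℕ in atTop, ∃ U V : Finset ℕ, Small m U V ∧
    ((Nat.card (Mt PA (range m \ U) (range m \ V)) : ℝ)) ^ 2 ≤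
      numPrimeCircles m * (4 * ((m : ℝ) * m) ^ ⌊(m : ℝ) ^ (0.85 : ℝ)⌋₊) := by
  filter_upwards [few_cycles pg_PA, merge_of_reservoir pg_PA (reservoir pg_PA),
    eventually_ge_atTop 2] with m hF hM hm2
  obtain ⟨U, V, hUV, hmg⟩ := hM
  refine ⟨U, V, hUV, ?_⟩
  have hne : (range m \ U).Nonempty := by
    rw [Finset.sdiff_nonempty]
    intro h1
    have h2 : m ≤ U.card := by
      have := Finset.card_le_card h1
      rwa [Finset.card_range] at this
    have h3 : (m : ℝ) ≤ (m : ℝ) ^ (0.9 : ℝ) := by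
      have : (m : ℝ) ≤ U.card := by exact_mod_cast h2
      exact this.trans hUV.2.2.2
    have h4 : (m : ℝ) ^ (0.9 : ℝ) < (m : ℝ) ^ (1 : ℝ) :=
      Real.rpow_lt_rpow_of_exponent_lt (by exact_mod_cast hm2) (by norm_num)
    rw [Real.rpow_one] at h4
    linarith
  have h1 := count_pairs (m := m) (c := ⌊(m : ℝ) ^ (0.85 : ℝ)⌋₊) (U := U) (V := V)
    (z := (m : ℝ) ^ (0.85 : ℝ)) (fun n hn => Nat.le_floor hn) hne (hF U V hUV) hmg
  have h2 := card_HP_le (m := m) (by omega)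
  have h4 : Nat.card (Mt PA (range m \ U) (range m \ V)) ^ 2 ≤
      2 * ((2 * numPrimeCircles m) * (m * m) ^ ⌊(m : ℝ) ^ (0.85 : ℝ)⌋₊) :=
    h1.trans (Nat.mul_le_mul_left _ (Nat.mul_le_mul_right _ h2))
  have h5 : ((Nat.card (Mt PA (range m \ U) (range m \ V)) : ℝ)) ^ 2 ≤
      2 * ((2 * numPrimeCircles m) * ((m : ℝ) * m) ^ ⌊(m : ℝ) ^ (0.85 : ℝ)⌋₊) := by
    exact_mod_cast h4
  calc _ ≤ _ := h5
    _ = _ := by ring

private theorem low_growth (K : ℕ) : ∀ᶠ m : ℕ in atTop,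
    11 * Real.log (m : ℝ) ^ (K + 2) ≤ (m : ℝ) ^ (0.1 : ℝ) := by
  have h1 : (fun x : ℝ => Real.log x ^ (K + 2)) =o[atTop] fun x => x ^ (0.1 : ℝ) := by
    have h0 := isLittleO_log_rpow_rpow_atTop (s := 0.1) ((K + 2 : ℕ) : ℝ) (by norm_num)
    simpa only [Real.rpow_natCast] using h0
  have h2 := h1.def (c := 1 / 11) (by norm_num)
  have h3 := tendsto_natCast_atTop_atTop (R := ℝ) |>.eventually h2
  filter_upwards [h3, eventually_ge_atTop 1] with m hm hm1
  have hl : 0 ≤ Real.log (m : ℝ) := Real.log_natCast_nonneg m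
  rw [Real.norm_eq_abs, Real.norm_eq_abs, abs_of_nonneg (by positivity),
    abs_of_nonneg (by positivity)] at hm
  linarith

theorem main_Low (h1 : Stmt_Pm) (h2 : Stmt_Cond) : Stmt_Low := by
  intro K C hC
  obtain ⟨C₁, hC₁, hcond⟩ := h2 K C hC
  refine ⟨2 * C₁ + 1, ?_⟩
  have hlogtend : Tendsto (fun N : ℕ => Real.log (N : ℝ)) atTop atTop :=
    Real.tendsto_log_atTop.comp tendsto_natCast_atTop_atTop
  filter_upwards [hcond, low_comb, low_growth K, hlogtend.eventually_ge_atTop 2,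
    hlogtend.eventually_ge_atTop |Real.log C|, eventually_ge_atTop 2]
    with m hcond hcomb hgr hL2 hLC hm2 x hx hrow
  obtain ⟨U, V, hUV, hN⟩ := hcomb
  have hU := hUV.1
  have hV := hUV.2.1
  have hcardUV := hUV.2.2.1
  have hUs := hUV.2.2.2
  have hm0 : (0 : ℝ) < m := by positivity
  have hm1 : (1 : ℝ) ≤ m := by exact_mod_cast (by omega : 1 ≤ m)
  set L := Real.log (m : ℝ) with hL
  have hL0 : 0 < L := by linarith
  set n := m - U.card with hn
  have hUm : U.card ≤ m := by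
    have := card_le_card hU
    rwa [card_range] at this
  have hnr : (n : ℝ) = m - U.card := by rw [hn, Nat.cast_sub hUm]
  have hS : (range m \ U).card = n := by
    rw [card_sdiff_of_subset hU, card_range]
  have hS' : (range m \ V).card = n := by
    rw [card_sdiff_of_subset hV, card_range, ← hcardUV]
  set δ := C₁ / L ^ (K + 1) with hδ
  have hδ0 : 0 < δ := by positivity
  have hρ : 0 < √(L / m) := Real.sqrt_pos.mpr (by positivity)
  have hxpos : ∀ i < m, 0 < x i := fun i hi =>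
    lt_of_lt_of_le (by positivity) (hx.1 i hi).1
  obtain ⟨hpos, hlow⟩ := h1 PA (range m \ U) (range m \ V) n hS hS' x (1 + δ) (δ / 2)
    (by linarith) (by linarith)
    (fun i hi => hxpos i (mem_range.mp (mem_sdiff.mp hi).1))
    (fun i hi => hxpos i (mem_range.mp (mem_sdiff.mp hi).1))
    (by
      intro X hX Y hY hXY
      have := hcond x hx hrow U V hUV X hX Y hY hXY
      rw [hnr]
      exact this)
  set P : ℝ := (Nat.card (Mt PA (range m \ U) (range m \ V)) : ℝ) with hP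
  have hP0 : 0 < P := by rw [hP]; exact_mod_cast hpos
  set c := ⌊(m : ℝ) ^ (0.85 : ℝ)⌋₊ with hc
  have hB0 : 0 < (4 : ℝ) * ((m : ℝ) * m) ^ c := by positivity
  have hNpos : (0 : ℝ) < numPrimeCircles m := by
    by_contra hcon
    have h3 : (numPrimeCircles m : ℝ) = 0 :=
      le_antisymm (not_lt.mp hcon) (Nat.cast_nonneg _)
    rw [h3, zero_mul] at hN
    have : 0 < P ^ 2 := by positivity
    linarith
  refine ⟨by exact_mod_cast hNpos, ?_⟩
  have hlog : 2 * Real.log P ≤ Real.log (numPrimeCircles m) +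
      (Real.log 4 + c * (2 * L)) := by
    have h3 := Real.log_le_log (by positivity) hN
    rw [Real.log_pow, Real.log_mul hNpos.ne' hB0.ne', Real.log_mul (by norm_num) (by positivity),
      Real.log_pow, Real.log_mul hm0.ne' hm0.ne', ← hL] at h3
    push_cast at h3
    linarith
  -- sums of logarithms
  have hsumU : ∑ i ∈ range m \ U, Real.log (x i) =
      ∑ i ∈ range m, Real.log (x i) - ∑ i ∈ U, Real.log (x i) := by
    rw [← sum_sdiff hU]; ring
  have hsumV : ∑ i ∈ range m \ V, Real.log (x i) =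
      ∑ i ∈ range m, Real.log (x i) - ∑ i ∈ V, Real.log (x i) := by
    rw [← sum_sdiff hV]; ring
  have hlx : ∀ i < m, -(2 * L) ≤ Real.log (x i) := by
    intro i hi
    have h3 := Real.log_le_log (by positivity) (hx.1 i hi).1
    rw [Real.log_mul (by positivity) hρ.ne', Real.log_inv, Real.log_sqrt (by positivity),
      Real.log_div hL0.ne' hm0.ne', ← hL] at h3
    have h4 : 0 ≤ Real.log L := Real.log_nonneg (by linarith)
    have h5 := le_abs_self (Real.log C)
    linarith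
  have hsmall : ∀ W : Finset ℕ, W ⊆ range m → (W.card : ℝ) ≤ (m : ℝ) ^ (0.9 : ℝ) →
      -((m : ℝ) ^ (0.9 : ℝ) * (2 * L)) ≤ ∑ i ∈ W, Real.log (x i) := by
    intro W hW hWc
    have h3 : ∑ _i ∈ W, (-(2 * L)) ≤ ∑ i ∈ W, Real.log (x i) :=
      sum_le_sum fun i hi => hlx i (mem_range.mp (hW hi))
    rw [sum_const, nsmul_eq_mul] at h3
    have h4 : (W.card : ℝ) * (2 * L) ≤ (m : ℝ) ^ (0.9 : ℝ) * (2 * L) :=
      mul_le_mul_of_nonneg_right hWc (by positivity)
    linarith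
  have hsU := hsmall U hU hUs
  have hsV := hsmall V hV (by rw [← hcardUV]; exact hUs)
  have hκ : Real.log (1 + δ) ≤ δ := by
    have := Real.log_le_sub_one_of_pos (by linarith : 0 < 1 + δ)
    linarith
  have hκ0 : 0 ≤ Real.log (1 + δ) := Real.log_nonneg (by linarith)
  have hnm : (n : ℝ) ≤ m := by rw [hnr]; linarith [Nat.cast_nonneg (α := ℝ) U.card]
  have hn0 : (0 : ℝ) ≤ n := Nat.cast_nonneg n
  have hnκ : (n : ℝ) * Real.log (1 + δ) ≤ m * δ := mul_le_mul hnm hκ hκ0 hm0.le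
  -- error terms
  have hm9 : (1 : ℝ) ≤ (m : ℝ) ^ (0.9 : ℝ) := Real.one_le_rpow hm1 (by norm_num)
  have hc9 : (c : ℝ) ≤ (m : ℝ) ^ (0.9 : ℝ) := by
    have h3 : (c : ℝ) ≤ (m : ℝ) ^ (0.85 : ℝ) := Nat.floor_le (by positivity)
    exact h3.trans (Real.rpow_le_rpow_of_exponent_le hm1 (by norm_num))
  have hlog4 : Real.log 4 ≤ (m : ℝ) ^ (0.9 : ℝ) * L := by
    have h3 : Real.log 4 ≤ 2 := by
      have : (4 : ℝ) = 2 ^ 2 := by norm_num
      rw [this, Real.log_pow]
      have := Real.log_two_lt_d9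
      push_cast; linarith
    nlinarith
  have hcL : (c : ℝ) * (2 * L) ≤ (m : ℝ) ^ (0.9 : ℝ) * (2 * L) :=
    mul_le_mul_of_nonneg_right hc9 (by positivity)
  have herr : 11 * ((m : ℝ) ^ (0.9 : ℝ) * L) ≤ m / L ^ (K + 1) := by
    rw [le_div_iff₀ (by positivity)]
    have h3 : (m : ℝ) ^ (0.9 : ℝ) * (m : ℝ) ^ (0.1 : ℝ) = m := by
      rw [← Real.rpow_add hm0]; norm_num
    calc 11 * ((m : ℝ) ^ (0.9 : ℝ) * L) * L ^ (K + 1) =
          (m : ℝ) ^ (0.9 : ℝ) * (11 * L ^ (K + 2)) := by ring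
      _ ≤ (m : ℝ) ^ (0.9 : ℝ) * (m : ℝ) ^ (0.1 : ℝ) :=
          mul_le_mul_of_nonneg_left hgr (by positivity)
      _ = m := h3
  have hC' : (2 * C₁ + 1) * m / L ^ (K + 1) = 2 * (m * δ) + m / L ^ (K + 1) := by
    rw [hδ]; ring
  rw [hC']
  rw [hsumU, hsumV] at hlow
  linarith

end Pool.Agent.PCX
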