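import Pool.Agent.PCX.Stmts2
import Pool.Agent.PCX.Lam

/-!
# [Mval] The integral of the square of `T_1 1` (dilogarithm type)
-/

set_option autoImplicit false

namespace Pool.Agent.PCX

open Finset Filter MeasureTheory

/-! ### `∫_0^1 log u / (1 + u) du = -π² / 12` -/

theorem Mval_pow_log (n : ℕ) :
    ∫ u in (0 : ℝ)..1, u ^ n * Real.log u = -1 / ((n : ℝ) + 1) ^ 2 := by
  have hn : (n : ℝ) + 1 ≠ 0 := by positivity
  have hcont : Continuous fun u : ℝ => u ^ n * (u * Real.log u) / ((n : ℝ) + 1) -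
      u ^ (n + 1) / ((n : ℝ) + 1) ^ 2 :=
    (((continuous_pow n).mul Real.continuous_mul_log).div_const _).sub
      ((continuous_pow (n + 1)).div_const _)
  have hd : ∀ u ∈ Set.Ioo (0 : ℝ) 1, HasDerivAt (fun u : ℝ => u ^ n * (u * Real.log u) /
      ((n : ℝ) + 1) - u ^ (n + 1) / ((n : ℝ) + 1) ^ 2) (u ^ n * Real.log u) u := by
    intro u hu
    have h1 : HasDerivAt (fun y : ℝ => y ^ (n + 1)) (((n + 1 : ℕ) : ℝ) * u ^ n) u := by
      simpa using hasDerivAt_pow (n + 1) u
    have h2 := Real.hasDerivAt_log hu.1.ne'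
    have h3 := ((h1.mul h2).div_const ((n : ℝ) + 1)).sub (h1.div_const (((n : ℝ) + 1) ^ 2))
    have h4 : (fun u : ℝ => u ^ n * (u * Real.log u) / ((n : ℝ) + 1) -
        u ^ (n + 1) / ((n : ℝ) + 1) ^ 2) = fun y : ℝ => y ^ (n + 1) * Real.log y /
        ((n : ℝ) + 1) - y ^ (n + 1) / ((n : ℝ) + 1) ^ 2 := by
      funext y
      rw [pow_succ, mul_assoc]
    rw [h4]
    refine h3.congr_deriv ?_
    have hu0 : u ≠ 0 := hu.1.ne'
    push_cast
    field_simp
    ring
  have hint : IntervalIntegrable (fun u : ℝ => u ^ n * Real.log u) volume 0 1 := by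
    have h := (intervalIntegral.intervalIntegrable_log' (a := 0) (b := 1)).mul_continuousOn
      (g := fun u : ℝ => u ^ n) (continuous_pow n).continuousOn
    refine h.congr (fun u _ => ?_)
    exact mul_comm _ _
  rw [intervalIntegral.integral_eq_sub_of_hasDerivAt_of_le zero_le_one hcont.continuousOn hd hint]
  simp [neg_div]

theorem Mval_int_pow_log (n : ℕ) :
    Integrable (fun u : ℝ => (-u) ^ n * Real.log u) (volume.restrict (Set.Ioc 0 1)) := by
  have h := (intervalIntegral.intervalIntegrable_log' (a := 0) (b := 1)).mul_continuousOn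
      (g := fun u : ℝ => (-u) ^ n) (continuous_neg.pow n).continuousOn
  have h2 := (intervalIntegrable_iff_integrableOn_Ioc_of_le zero_le_one).1 h
  refine h2.congr (Filter.Eventually.of_forall fun u => ?_)
  exact mul_comm _ _

theorem Mval_log_div :
    ∫ u in (0 : ℝ)..1, Real.log u / (1 + u) = -Real.pi ^ 2 / 12 := by
  rw [intervalIntegral.integral_of_le zero_le_one]
  -- norms
  have hnorm : ∀ n : ℕ, ∫ u in Set.Ioc (0 : ℝ) 1, ‖(-u) ^ n * Real.log u‖ =
      1 / ((n : ℝ) + 1) ^ 2 := by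
    intro n
    have h1 : ∫ u in Set.Ioc (0 : ℝ) 1, ‖(-u) ^ n * Real.log u‖ =
        ∫ u in Set.Ioc (0 : ℝ) 1, -(u ^ n * Real.log u) := by
      refine setIntegral_congr_fun measurableSet_Ioc fun u hu => ?_
      show ‖(-u) ^ n * Real.log u‖ = -(u ^ n * Real.log u)
      rw [norm_mul, norm_pow, norm_neg, Real.norm_of_nonneg hu.1.le, Real.norm_of_nonpos
        (Real.log_nonpos hu.1.le hu.2)]
      ring
    rw [h1, integral_neg, ← intervalIntegral.integral_of_le zero_le_one, Mval_pow_log n]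
    ring
  have hval : ∀ n : ℕ, ∫ u in Set.Ioc (0 : ℝ) 1, (-u) ^ n * Real.log u =
      (-1) ^ n * (-1 / ((n : ℝ) + 1) ^ 2) := by
    intro n
    rw [← Mval_pow_log n, intervalIntegral.integral_of_le zero_le_one, ← integral_const_mul]
    refine setIntegral_congr_fun measurableSet_Ioc fun u _ => ?_
    show (-u) ^ n * Real.log u = (-1) ^ n * (u ^ n * Real.log u)
    rw [neg_pow]
    ring
  have hs1 : HasSum (fun n : ℕ => 1 / (((n : ℝ) + 1) ^ 2)) (Real.pi ^ 2 / 6) := by
    have h := (hasSum_nat_add_iff' (f := fun n : ℕ => 1 / (n : ℝ) ^ 2) 1).2 hasSum_zeta_two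
    simpa using h
  have hsum := hasSum_integral_of_summable_integral_norm (μ := volume.restrict (Set.Ioc 0 1))
    (F := fun (n : ℕ) (u : ℝ) => (-u) ^ n * Real.log u) Mval_int_pow_log
    (by simp only [hnorm]; exact hs1.summable)
  simp only [hval] at hsum
  have htsum : ∫ u in Set.Ioc (0 : ℝ) 1, Real.log u / (1 + u) =
      ∫ u in Set.Ioc (0 : ℝ) 1, ∑' n : ℕ, (-u) ^ n * Real.log u := by
    refine setIntegral_congr_fun measurableSet_Ioc fun u hu => ?_
    show Real.log u / (1 + u) = ∑' n : ℕ, (-u) ^ n * Real.log u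
    rcases hu.2.eq_or_lt with h | h
    · subst h; simp
    · rw [tsum_mul_right, tsum_geometric_of_norm_lt_one]
      · rw [sub_neg_eq_add]; ring
      · rw [norm_neg, Real.norm_of_nonneg hu.1.le]; exact h
  rw [htsum]
  refine hsum.unique ?_
  -- the alternating sum
  set f : ℕ → ℝ := fun n => 1 / ((n : ℝ) + 1) ^ 2 with hf
  have hodd : HasSum (fun k : ℕ => f (2 * k + 1)) (Real.pi ^ 2 / 24) := by
    have h := hs1.mul_left (1 / 4 : ℝ)
    have e : (1 / 4 : ℝ) * (Real.pi ^ 2 / 6) = Real.pi ^ 2 / 24 := by ring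
    rw [e] at h
    have e2 : (fun k : ℕ => f (2 * k + 1)) = fun k : ℕ => 1 / 4 * (1 / ((k : ℝ) + 1) ^ 2) := by
      funext k
      rw [hf]
      push_cast
      have : (k : ℝ) + 1 ≠ 0 := by positivity
      have h3 : 2 * (k : ℝ) + 1 + 1 ≠ 0 := by positivity
      field_simp
      ring
    rw [e2]; exact h
  obtain ⟨m, hm⟩ : Summable fun k : ℕ => f (2 * k) :=
    hs1.summable.comp_injective (i := fun k : ℕ => 2 * k) (fun a b h => by
      have : 2 * a = 2 * b := h
      omega)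
  have hmv : m = Real.pi ^ 2 / 8 := by
    have h := (hm.even_add_odd hodd).unique hs1
    linarith
  have hE : HasSum (fun k : ℕ => (fun n : ℕ => (-1 : ℝ) ^ n * (-1 / ((n : ℝ) + 1) ^ 2)) (2 * k))
      (-m) := by
    have e2 : (fun k : ℕ => (fun n : ℕ => (-1 : ℝ) ^ n * (-1 / ((n : ℝ) + 1) ^ 2)) (2 * k)) =
        fun k : ℕ => -f (2 * k) := by
      funext k
      show (-1 : ℝ) ^ (2 * k) * (-1 / (((2 * k : ℕ) : ℝ) + 1) ^ 2) = -f (2 * k)
      rw [pow_mul, hf]
      norm_num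
      ring
    rw [e2]; exact hm.neg
  have hO : HasSum (fun k : ℕ => (fun n : ℕ => (-1 : ℝ) ^ n * (-1 / ((n : ℝ) + 1) ^ 2))
      (2 * k + 1)) (Real.pi ^ 2 / 24) := by
    have e2 : (fun k : ℕ => (fun n : ℕ => (-1 : ℝ) ^ n * (-1 / ((n : ℝ) + 1) ^ 2)) (2 * k + 1)) =
        fun k : ℕ => f (2 * k + 1) := by
      funext k
      show (-1 : ℝ) ^ (2 * k + 1) * (-1 / (((2 * k + 1 : ℕ) : ℝ) + 1) ^ 2) = f (2 * k + 1)
      rw [pow_succ, pow_mul, hf]
      norm_num
      ring
    rw [e2]; exact hodd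
  have h := HasSum.even_add_odd (f := fun n : ℕ => (-1 : ℝ) ^ n * (-1 / ((n : ℝ) + 1) ^ 2)) hE hO
  rw [hmv] at h
  have e : -(Real.pi ^ 2 / 8) + Real.pi ^ 2 / 24 = -Real.pi ^ 2 / 12 := by ring
  rw [e] at h
  exact h

/-! ### The antiderivative -/

/-- `T_1 1` in terms of `u log u` -/
noncomputable def Mval_lb (u : ℝ) : ℝ :=
  Real.log 2 - 1 + (1 + u) * Real.log (1 + u) - u * Real.log u

theorem Mval_T {u : ℝ} (hu : u ∈ Set.Icc (0 : ℝ) 1) : T 1 (fun _ => 1) u = Mval_lb u := by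
  rw [Lam_inner, Mval_lb]
  have h1 : Real.log (2 * (u + 1)) = Real.log 2 + Real.log (1 + u) := by
    rw [Real.log_mul (by norm_num) (by linarith [hu.1]), add_comm u 1]
  rcases hu.1.eq_or_lt with h | h
  · rw [← h]; norm_num; ring
  · rw [h1, Real.log_mul (by norm_num) h.ne']
    ring

/-- the antiderivative of `lb² - (1/3) log u / (1 + u)` -/
noncomputable def Mval_F (u : ℝ) : ℝ :=
  (Real.log 2 - 1) ^ 2 * u +
  2 * (Real.log 2 - 1) * ((1 + u) ^ 2 / 2 * Real.log (1 + u) - (1 + u) ^ 2 / 4 -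
    (u / 2 * (u * Real.log u) - u ^ 2 / 4)) +
  ((1 + u) ^ 3 / 3 * Real.log (1 + u) ^ 2 - 2 * (1 + u) ^ 3 / 9 * Real.log (1 + u) +
    2 * (1 + u) ^ 3 / 27) +
  (u / 3 * (u * Real.log u) ^ 2 - 2 * u ^ 2 / 9 * (u * Real.log u) + 2 * u ^ 3 / 27) -
  2 * ((u / 2 + u ^ 2 / 3) * (u * Real.log u) * Real.log (1 + u) -
    ((u ^ 2 / 4 + u ^ 3 / 9) * Real.log (1 + u) - u ^ 3 / 27 - 5 * u ^ 2 / 72 + 5 * u / 36 -
      5 / 36 * Real.log (1 + u)) -
    ((u ^ 2 / 9 + u / 12 - 1 / 6) * (u * Real.log u) - u ^ 3 / 27 - u ^ 2 / 24 + u / 6))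

theorem Mval_F_cont : ContinuousOn Mval_F (Set.Icc 0 1) := by
  have h1 : ContinuousOn (fun u : ℝ => Real.log (1 + u)) (Set.Icc 0 1) := by
    refine ContinuousOn.log (by fun_prop) ?_
    intro u hu
    linarith [hu.1]
  have h2 : ContinuousOn (fun u : ℝ => u * Real.log u) (Set.Icc 0 1) :=
    Real.continuous_mul_log.continuousOn
  unfold Mval_F
  fun_prop

theorem Mval_F_deriv {u : ℝ} (hu : 0 < u) :
    HasDerivAt Mval_F (Mval_lb u ^ 2 - 1 / 3 * (Real.log u / (1 + u))) u := by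
  have hu0 : u ≠ 0 := hu.ne'
  have hu1 : 1 + u ≠ 0 := by positivity
  have hid := hasDerivAt_id u
  have hA : HasDerivAt (fun y : ℝ => 1 + y) 1 u := by simpa using hid.const_add 1
  have hL : HasDerivAt (fun y : ℝ => Real.log (1 + y)) (1 / (1 + u)) u := by
    simpa using hA.log hu1
  have hb : HasDerivAt (fun y : ℝ => y * Real.log y) (Real.log u + 1) u := by
    have := hid.mul (Real.hasDerivAt_log hu0)
    refine this.congr_deriv ?_
    simp [hu0]
  have hp : ∀ n : ℕ, HasDerivAt (fun y : ℝ => y ^ n) ((n : ℝ) * u ^ (n - 1)) u := fun n =>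
    hasDerivAt_pow n u
  have hA2 : HasDerivAt (fun y : ℝ => (1 + y) ^ 2) (2 * (1 + u)) u :=
    (hA.pow 2).congr_deriv (by norm_num)
  have hA3 : HasDerivAt (fun y : ℝ => (1 + y) ^ 3) (3 * (1 + u) ^ 2) u :=
    (hA.pow 3).congr_deriv (by norm_num)
  have hp2 : HasDerivAt (fun y : ℝ => y ^ 2) (2 * u) u := by simpa using hp 2
  have hp3 : HasDerivAt (fun y : ℝ => y ^ 3) (3 * u ^ 2) u := by simpa using hp 3
  have hL2 : HasDerivAt (fun y : ℝ => Real.log (1 + y) ^ 2)
      (2 * Real.log (1 + u) * (1 / (1 + u))) u := (hL.pow 2).congr_deriv (by norm_num)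
  have hb2 : HasDerivAt (fun y : ℝ => (y * Real.log y) ^ 2)
      (2 * (u * Real.log u) * (Real.log u + 1)) u := (hb.pow 2).congr_deriv (by norm_num)
  have t1 := hid.const_mul ((Real.log 2 - 1) ^ 2)
  have t2 := (((hA2.div_const 2).mul hL).sub (hA2.div_const 4)).sub
    (((hid.div_const 2).mul hb).sub (hp2.div_const 4))
  have t3 := (((hA3.div_const 3).mul hL2).sub (((hA3.const_mul 2).div_const 9).mul hL)).add
    ((hA3.const_mul 2).div_const 27)
  have t4 := (((hid.div_const 3).mul hb2).sub (((hp2.const_mul 2).div_const 9).mul hb)).add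
    ((hp3.const_mul 2).div_const 27)
  have t5 := (((hid.div_const 2).add (hp2.div_const 3)).mul hb).mul hL
  have t6 := (((((hp2.div_const 4).add (hp3.div_const 9)).mul hL).sub (hp3.div_const 27)).sub
    ((hp2.const_mul 5).div_const 72)).add ((hid.const_mul 5).div_const 36) |>.sub
    (hL.const_mul (5 / 36))
  have t7 := ((((((hp2.div_const 9).add (hid.div_const 12)).sub_const (1 / 6)).mul hb).sub
    (hp3.div_const 27)).sub (hp2.div_const 24)).add (hid.div_const 6)
  have t := (((t1.add (t2.const_mul (2 * (Real.log 2 - 1)))).add t3).add t4).sub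
    (((t5.sub t6).sub t7).const_mul 2)
  refine t.congr_deriv ?_
  simp only [id, Mval_lb, Pi.mul_apply, Pi.add_apply, Pi.sub_apply]
  field_simp
  ring

theorem main_Mval : Stmt_Mval := by
  unfold Stmt_Mval
  have h1 : ∫ u in (0 : ℝ)..1, T 1 (fun _ => 1) u ^ 2 = ∫ u in (0 : ℝ)..1, Mval_lb u ^ 2 := by
    refine intervalIntegral.integral_congr fun u hu => ?_
    rw [Set.uIcc_of_le zero_le_one] at hu
    show T 1 (fun _ => 1) u ^ 2 = Mval_lb u ^ 2
    rw [Mval_T hu]
  rw [h1]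
  have hlbc : ContinuousOn Mval_lb (Set.Icc 0 1) := by
    have h1 : ContinuousOn (fun u : ℝ => Real.log (1 + u)) (Set.Icc 0 1) := by
      refine ContinuousOn.log (by fun_prop) ?_
      intro u hu
      linarith [hu.1]
    have h2 : ContinuousOn (fun u : ℝ => u * Real.log u) (Set.Icc 0 1) :=
      Real.continuous_mul_log.continuousOn
    unfold Mval_lb
    fun_prop
  have hi1 : IntervalIntegrable (fun u => Mval_lb u ^ 2) volume 0 1 := by
    refine ContinuousOn.intervalIntegrable ?_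
    rw [Set.uIcc_of_le zero_le_one]
    exact hlbc.pow 2
  have hi2 : IntervalIntegrable (fun u : ℝ => Real.log u / (1 + u)) volume 0 1 := by
    have h := (intervalIntegral.intervalIntegrable_log' (a := 0) (b := 1)).mul_continuousOn
      (g := fun u : ℝ => (1 + u)⁻¹) (by
        rw [Set.uIcc_of_le zero_le_one]
        refine ContinuousOn.inv₀ (by fun_prop) ?_
        intro u hu
        linarith [hu.1])
    refine h.congr (fun u _ => ?_)
    exact (div_eq_mul_inv _ _).symm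
  have hF := intervalIntegral.integral_eq_sub_of_hasDerivAt_of_le zero_le_one Mval_F_cont
    (fun u hu => Mval_F_deriv hu.1) (hi1.sub (hi2.const_mul (1 / 3)))
  rw [intervalIntegral.integral_sub hi1 (hi2.const_mul (1 / 3)),
    intervalIntegral.integral_const_mul, Mval_log_div] at hF
  have h3 : ∫ u in (0 : ℝ)..1, Mval_lb u ^ 2 = Mval_F 1 - Mval_F 0 + 1 / 3 * (-Real.pi ^ 2 / 12) := by
    linarith
  rw [h3]
  unfold Mval_F
  have e1 : (1 : ℝ) + 1 = 2 := by norm_num
  rw [e1]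
  simp only [Real.log_one, mul_zero, zero_mul, add_zero, zero_add, Real.log_zero]
  ring

end Pool.Agent.PCX
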