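import Pool.Agent.PCX.Stmts
import Pool.Agent.PC.VdW

/-!
# [Pm] Number of perfect matchings from a fractional one below the weights
-/

set_option autoImplicit false

namespace Pool.Agent.PCX

open Finset Filter Pool.Agent.PC

open scoped Classical in
theorem main_Pm (hDs : Stmt_Ds) : Stmt_Pm := by
  intro A S S' n hS hT x κ η hκ hη hxS hxT hcut
  let eS : S ≃ Fin n := S.equivFinOfCardEq hS
  let eT : S' ≃ Fin n := S'.equivFinOfCardEq hT
  let w : Fin n → Fin n → ℝ := fun a b =>
    if A (eS.symm a : ℕ) (eT.symm b : ℕ) then κ * (x (eS.symm a) * x (eT.symm b)) else 0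
  have hpos : ∀ a b : Fin n, 0 < κ * (x (eS.symm a) * x (eT.symm b)) := fun a b =>
    mul_pos hκ (mul_pos (hxS _ (eS.symm a).2) (hxT _ (eT.symm b).2))
  have hw : ∀ a b, 0 ≤ w a b := by
    intro a b
    simp only [w]
    split_ifs
    · exact (hpos a b).le
    · exact le_refl _
  have hwle : ∀ a b, w a b ≤ κ * (x (eS.symm a) * x (eT.symm b)) := by
    intro a b
    simp only [w]
    split_ifs
    · exact le_refl _
    · exact (hpos a b).le
  have hcond : ∀ X Y : Finset (Fin n), n < X.card + Y.card →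
      (1 + η) * ((X.card : ℝ) + Y.card - n) ≤ ∑ i ∈ X, ∑ j ∈ Y, w i j := by
    intro X Y hXY
    let X' : Finset ℕ := X.map (eS.symm.toEmbedding.trans (Function.Embedding.subtype _))
    let Y' : Finset ℕ := Y.map (eT.symm.toEmbedding.trans (Function.Embedding.subtype _))
    have hX' : X' ⊆ S := by
      intro i hi
      simp only [X', Finset.mem_map] at hi
      obtain ⟨a, _, rfl⟩ := hi
      exact (eS.symm a).2
    have hY' : Y' ⊆ S' := by
      intro i hi
      simp only [Y', Finset.mem_map] at hi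
      obtain ⟨a, _, rfl⟩ := hi
      exact (eT.symm a).2
    have hcX : X'.card = X.card := Finset.card_map _
    have hcY : Y'.card = Y.card := Finset.card_map _
    have h := hcut X' hX' Y' hY' (by rw [hcX, hcY]; exact hXY)
    rw [hcX, hcY] at h
    have hW : κ * WW A x X' Y' = ∑ i ∈ X, ∑ j ∈ Y, w i j := by
      unfold WW
      simp only [X', Y', Finset.sum_map]
      rw [Finset.mul_sum]
      refine Finset.sum_congr rfl fun a _ => ?_
      rw [Finset.mul_sum]
      refine Finset.sum_congr rfl fun b _ => ?_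
      simp only [w, mul_ite, mul_zero]
      rfl
    rw [hW] at h
    exact h
  obtain ⟨P, hP, hPw⟩ := hDs n w η hη hw hcond
  have hPnn : ∀ i j, 0 ≤ P i j := (mem_doublyStochastic_iff_sum.1 hP).1
  -- the number of good permutations
  let N : ℕ := (univ.filter (fun σ : Equiv.Perm (Fin n) =>
      ∀ i, A (eS.symm (σ i) : ℕ) (eT.symm i : ℕ))).card
  let Z : ℝ := κ ^ n * ((∏ i ∈ S, x i) * ∏ i ∈ S', x i)
  have hZ : 0 < Z := mul_pos (pow_pos hκ n) (mul_pos (Finset.prod_pos hxS) (Finset.prod_pos hxT))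
  have hperm : P.permanent ≤ (N : ℝ) * Z := by
    unfold Matrix.permanent
    simp only [N]
    rw [Finset.card_filter, Nat.cast_sum, Finset.sum_mul]
    refine Finset.sum_le_sum fun σ _ => ?_
    by_cases hσ : ∀ i, A (eS.symm (σ i) : ℕ) (eT.symm i : ℕ)
    · rw [if_pos hσ, Nat.cast_one, one_mul]
      have h1 : ∏ i, P (σ i) i ≤ ∏ i, (κ * (x (eS.symm (σ i)) * x (eT.symm i))) :=
        Finset.prod_le_prod (fun i _ => hPnn _ _) (fun i _ => (hPw _ _).trans (hwle _ _))
      refine h1.trans (le_of_eq ?_)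
      rw [Finset.prod_mul_distrib, Finset.prod_mul_distrib, Finset.prod_const, Finset.card_univ,
        Fintype.card_fin]
      have h2 : ∏ i : Fin n, x (eS.symm (σ i)) = ∏ i ∈ S, x i := by
        rw [← Finset.prod_coe_sort S]
        exact Equiv.prod_comp (σ.trans eS.symm) (fun i : S => x (i : ℕ))
      have h3 : ∏ i : Fin n, x (eT.symm i) = ∏ i ∈ S', x i := by
        rw [← Finset.prod_coe_sort S']
        exact Equiv.prod_comp eT.symm (fun i : S' => x (i : ℕ))
      rw [h2, h3]
    · rw [if_neg hσ]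
      push Not at hσ
      obtain ⟨i, hi⟩ := hσ
      have h1 : P (σ i) i ≤ 0 := by
        have := hPw (σ i) i
        simp only [w, if_neg hi] at this
        exact this
      have h2 : P (σ i) i = 0 := le_antisymm h1 (hPnn _ _)
      have h3 : ∏ i, P (σ i) i = 0 :=
        Finset.prod_eq_zero (f := fun i => P (σ i) i) (Finset.mem_univ i) h2
      rw [h3]
      simp
  have hcount : N ≤ Nat.card (Mt A S S') := by
    have : Finite (Mt A S S') := by
      unfold Mt
      infer_instance
    simp only [N]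
    rw [← Fintype.card_subtype, ← Nat.card_eq_fintype_card]
    refine Nat.card_le_card_of_injective
      (fun σ : {σ : Equiv.Perm (Fin n) // ∀ i, A (eS.symm (σ i) : ℕ) (eT.symm i : ℕ)} =>
        (⟨(eS.trans σ.1.symm).trans eT.symm, fun i => by
          have := σ.2 (σ.1.symm (eS i))
          simpa using this⟩ : Mt A S S')) ?_
    intro σ τ hst
    have h1 : (eS.trans σ.1.symm).trans eT.symm = (eS.trans τ.1.symm).trans eT.symm :=
      congrArg Subtype.val hst
    apply Subtype.ext
    have h2 : σ.1.symm = τ.1.symm := by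
      ext x
      have h3 := DFunLike.congr_fun h1 (eS.symm x)
      simp only [Equiv.trans_apply, Equiv.apply_symm_apply] at h3
      exact congrArg _ (eT.symm.injective h3)
    calc σ.1 = σ.1.symm.symm := (Equiv.symm_symm _).symm
      _ = τ.1.symm.symm := by rw [h2]
      _ = τ.1 := Equiv.symm_symm _
  have hv := vdw n P hP
  have hexp : (n : ℝ) ^ n / n.factorial ≤ Real.exp n :=
    Real.pow_div_factorial_le_exp (n : ℝ) (by positivity) n
  have hfac : (0 : ℝ) < n.factorial := by exact_mod_cast n.factorial_pos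
  have hnn : (0 : ℝ) < (n : ℝ) ^ n := by
    rcases Nat.eq_zero_or_pos n with h0 | h0
    · rw [h0]; norm_num
    · positivity
  have h1 : Real.exp (-(n : ℝ)) ≤ (n.factorial : ℝ) / (n : ℝ) ^ n := by
    rw [Real.exp_neg, inv_le_comm₀ (Real.exp_pos _) (by positivity), inv_div]
    exact hexp
  have hcR : (N : ℝ) ≤ (Nat.card (Mt A S S') : ℝ) := by exact_mod_cast hcount
  have h2 : Real.exp (-(n : ℝ)) ≤ (Nat.card (Mt A S S') : ℝ) * Z :=
    (h1.trans (hv.trans hperm)).trans (mul_le_mul_of_nonneg_right hcR hZ.le)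
  have hcpos : (0 : ℝ) < (Nat.card (Mt A S S') : ℝ) := by
    by_contra hneg
    have h3 : (Nat.card (Mt A S S') : ℝ) * Z ≤ 0 :=
      mul_nonpos_of_nonpos_of_nonneg (not_lt.1 hneg) hZ.le
    have h4 := Real.exp_pos (-(n : ℝ))
    linarith
  refine ⟨by exact_mod_cast hcpos, ?_⟩
  have h5 : -(n : ℝ) ≤ Real.log ((Nat.card (Mt A S S') : ℝ) * Z) := by
    rw [Real.le_log_iff_exp_le (mul_pos hcpos hZ)]
    exact h2
  rw [Real.log_mul hcpos.ne' hZ.ne'] at h5
  have h6 : Real.log Z = n * Real.log κ + (∑ i ∈ S, Real.log (x i) + ∑ i ∈ S', Real.log (x i)) := by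
    simp only [Z]
    rw [Real.log_mul (pow_pos hκ n).ne'
      (mul_pos (Finset.prod_pos hxS) (Finset.prod_pos hxT)).ne',
      Real.log_mul (Finset.prod_pos hxS).ne' (Finset.prod_pos hxT).ne', Real.log_pow,
      Real.log_prod (fun i hi => (hxS i hi).ne'), Real.log_prod (fun i hi => (hxT i hi).ne')]
  rw [h6] at h5
  linarith

end Pool.Agent.PCX
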