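import Pool.Agent.PCX.Stmts

/-!
# [Pnt]: from `psi` to the number of odd primes
-/

set_option autoImplicit false

namespace Pool.Agent.PCX

open Finset Filter

private theorem pnt_logpow (j : ℕ) : ∃ K : ℝ, 0 < K ∧ ∀ n : ℕ, 1 ≤ n →
    Real.log n ^ j ≤ K * √(n : ℝ) := by
  refine ⟨(2 * ((j : ℝ) + 1)) ^ j, by positivity, fun n hn => ?_⟩
  have hn1 : (1 : ℝ) ≤ n := by exact_mod_cast hn
  have hn0 : (0 : ℝ) ≤ n := by linarith
  have hε : (0 : ℝ) < 1 / (2 * ((j : ℝ) + 1)) := by positivity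
  have h1 := Real.log_le_rpow_div hn0 hε
  have h2 : Real.log n ≤ 2 * ((j : ℝ) + 1) * (n : ℝ) ^ (1 / (2 * ((j : ℝ) + 1))) := by
    refine h1.trans (le_of_eq ?_)
    rw [div_div_eq_mul_div, div_one]; ring
  have h3 : Real.log n ^ j ≤ (2 * ((j : ℝ) + 1) * (n : ℝ) ^ (1 / (2 * ((j : ℝ) + 1)))) ^ j :=
    pow_le_pow_left₀ (Real.log_natCast_nonneg n) h2 j
  refine h3.trans ?_
  rw [mul_pow]
  apply mul_le_mul_of_nonneg_left _ (by positivity)
  rw [← Real.rpow_natCast, ← Real.rpow_mul hn0, Real.sqrt_eq_rpow]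
  apply Real.rpow_le_rpow_of_exponent_le hn1
  rw [one_div_mul_eq_div, div_le_div_iff₀ (by positivity) (by norm_num)]
  linarith

private theorem pnt_theta_succ (k : ℕ) : Chebyshev.theta ((k + 1 : ℕ) : ℝ) =
    Chebyshev.theta (k : ℝ) + if (k + 1).Prime then Real.log ((k + 1 : ℕ) : ℝ) else 0 := by
  unfold Chebyshev.theta
  rw [Nat.floor_natCast, Nat.floor_natCast, sum_filter, sum_filter,
    sum_Ioc_succ_top (Nat.zero_le k)]

/-- `θ(2l+1) - (2l+1)` -/
private noncomputable def pntD (l : ℕ) : ℝ :=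
  Chebyshev.theta ((2 * l + 1 : ℕ) : ℝ) - ((2 * l + 1 : ℕ) : ℝ)

private noncomputable def pntW (l : ℕ) : ℝ := 1 / Real.log (2 * (l : ℝ) + 3)

private theorem pnt_D_zero : pntD 0 = -1 := by
  unfold pntD
  simp

private theorem pnt_diff (l : ℕ) : pntD (l + 1) - pntD l =
    (if (2 * l + 3).Prime then Real.log (2 * (l : ℝ) + 3) else 0) - 2 +
      (if l = 0 then Real.log 2 else 0) := by
  unfold pntD
  have e1 : 2 * (l + 1) + 1 = (2 * l + 2) + 1 := by ring
  have e2 : 2 * l + 2 = (2 * l + 1) + 1 := by ring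
  rw [e1, pnt_theta_succ (2 * l + 2), e2, pnt_theta_succ (2 * l + 1)]
  have h1 : (2 * l + 1 + 1 + 1) = 2 * l + 3 := by ring
  have h2 : (((2 * l + 3 : ℕ)) : ℝ) = 2 * (l : ℝ) + 3 := by push_cast; ring
  rw [h1, h2]
  have h3 : (if (2 * l + 1 + 1).Prime then Real.log ((2 * l + 1 + 1 : ℕ) : ℝ) else 0) =
      (if l = 0 then Real.log 2 else 0) := by
    rcases Nat.eq_zero_or_pos l with h | h
    · subst h; norm_num
    · have : ¬ (2 * l + 1 + 1).Prime := by
        intro hp
        rcases hp.eq_two_or_odd with h' | h' <;> omega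
      rw [if_neg this, if_neg (by omega)]
  rw [h3]
  push_cast
  ring

private theorem pnt_abel (n : ℕ) : ∑ l ∈ range (n + 1), pntW l * (pntD (l + 1) - pntD l) =
    pntW n * pntD (n + 1) - pntW 0 * pntD 0 +
      ∑ l ∈ range n, pntD (l + 1) * (pntW l - pntW (l + 1)) := by
  induction n with
  | zero => simp; ring
  | succ n ih =>
    rw [sum_range_succ, ih, sum_range_succ (fun l => pntD (l + 1) * (pntW l - pntW (l + 1)))]
    ring

private theorem pnt_log_pos (l : ℕ) : 1 ≤ Real.log (2 * (l : ℝ) + 3) := by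
  have h0 : (0 : ℝ) ≤ l := Nat.cast_nonneg l
  rw [Real.le_log_iff_exp_le (by positivity)]
  have := Real.exp_one_lt_d9
  linarith

private theorem pnt_W_anti (l : ℕ) : pntW (l + 1) ≤ pntW l := by
  unfold pntW
  apply one_div_le_one_div_of_le (by linarith [pnt_log_pos l])
  apply Real.log_le_log (by positivity)
  push_cast; linarith

private theorem pnt_W_nonneg (l : ℕ) : 0 ≤ pntW l := by
  unfold pntW
  have := pnt_log_pos l
  positivity

private theorem pnt_W_le (l : ℕ) : pntW l ≤ 1 := by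
  unfold pntW
  have := pnt_log_pos l
  rw [div_le_one (by linarith)]; exact this

private theorem pnt_eq (n : ℕ) : (pc (n + 1) : ℝ) - li (n + 1) =
    ∑ l ∈ range (n + 1), pntW l * (pntD (l + 1) - pntD l) - pntW 0 * Real.log 2 := by
  have h1 : (pc (n + 1) : ℝ) - li (n + 1) = ∑ l ∈ range (n + 1),
      ((if (2 * l + 3).Prime then (1 : ℝ) else 0) - 2 / Real.log (2 * (l : ℝ) + 3)) := by
    rw [sum_sub_distrib]
    unfold pc li
    congr 1
    rw [card_filter]
    push_cast
    rfl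
  have h2 : ∀ l ∈ range (n + 1), ((if (2 * l + 3).Prime then (1 : ℝ) else 0) -
      2 / Real.log (2 * (l : ℝ) + 3)) = pntW l * (pntD (l + 1) - pntD l) -
        (if l = 0 then pntW 0 * Real.log 2 else 0) := by
    intro l _
    have hl := pnt_log_pos l
    have hl0 : Real.log (2 * (l : ℝ) + 3) ≠ 0 := by linarith
    rw [pnt_diff l]
    rcases Nat.eq_zero_or_pos l with h | h
    · subst h
      have hp : (2 * 0 + 3).Prime := by norm_num
      rw [if_pos hp, if_pos hp, if_pos rfl, if_pos rfl]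
      unfold pntW
      field_simp
      ring
    · rw [if_neg (by omega : ¬ l = 0), if_neg (by omega : ¬ l = 0)]
      unfold pntW
      by_cases hp : (2 * l + 3).Prime
      · rw [if_pos hp, if_pos hp]; field_simp; ring
      · rw [if_neg hp, if_neg hp]; field_simp; ring
  rw [h1, sum_congr rfl h2, sum_sub_distrib, sum_ite_eq']
  simp

private theorem pnt_claim (h : Stmt_Psi) (A : ℕ) : ∃ C : ℝ, 0 < C ∧ ∀ n : ℕ, 2 ≤ n →
    1 ≤ C * n / Real.log n ^ A ∧ ∀ l ≤ n, |pntD l| ≤ C * n / Real.log n ^ A := by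
  obtain ⟨Cψ, hψ⟩ := h A
  obtain ⟨K, hK, hKn⟩ := pnt_logpow A
  obtain ⟨K', hK', hKn'⟩ := pnt_logpow (A + 1)
  refine ⟨3 * K + 3 * 2 ^ A * |Cψ| + 12 * K', by positivity, fun n hn => ?_⟩
  set C := 3 * K + 3 * 2 ^ A * |Cψ| + 12 * K' with hC
  have hn1 : (1 : ℝ) ≤ n := by exact_mod_cast (by omega : 1 ≤ n)
  have hn2 : (2 : ℝ) ≤ n := by exact_mod_cast hn
  have hn0 : (0 : ℝ) < n := by linarith
  set y := Real.log (n : ℝ) with hy
  have hy0 : 0 < y := Real.log_pos (by linarith)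
  have hyA : 0 < y ^ A := by positivity
  have hs : √(n : ℝ) ^ 2 = n := Real.sq_sqrt hn0.le
  have hs1 : 1 ≤ √(n : ℝ) := by rw [Real.one_le_sqrt]; exact hn1
  have hs0 : 0 < √(n : ℝ) := by linarith
  have hsn : √(n : ℝ) ≤ n := by nlinarith
  have hone : y ^ A ≤ K * n := (hKn n (by omega)).trans (mul_le_mul_of_nonneg_left hsn hK.le)
  have hC1 : K ≤ C := by
    have : 0 ≤ 3 * 2 ^ A * |Cψ| := by positivity
    linarith
  have hfirst : 1 ≤ C * n / y ^ A := by
    rw [le_div_iff₀ hyA, one_mul]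
    exact hone.trans (mul_le_mul_of_nonneg_right hC1 hn0.le)
  refine ⟨hfirst, fun l hl => ?_⟩
  rcases Nat.eq_zero_or_pos l with h0 | hlpos
  · subst h0
    rw [pnt_D_zero, abs_neg, abs_one]; exact hfirst
  set x : ℕ := 2 * l + 1 with hx
  have hD : pntD l = Chebyshev.theta (x : ℝ) - x := rfl
  have hx3 : 3 ≤ x := by omega
  have hx3r : (3 : ℝ) ≤ x := by exact_mod_cast hx3
  have hxn : (x : ℝ) ≤ 3 * n := by
    have : x ≤ 3 * n := by omega
    exact_mod_cast this
  rw [hD, le_div_iff₀ hyA]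
  by_cases hcase : (x : ℝ) ≤ √(n : ℝ)
  · -- small
    have h1 : Chebyshev.theta (x : ℝ) ≤ 2 * x := by
      have h2 := Chebyshev.theta_le_log4_mul_x (x := (x : ℝ)) (by linarith)
      have h3 : Real.log 4 ≤ 2 := by
        have : (4 : ℝ) = 2 ^ 2 := by norm_num
        rw [this, Real.log_pow]
        have := Real.log_two_lt_d9
        push_cast; linarith
      have h4 : Real.log 4 * (x : ℝ) ≤ 2 * x := mul_le_mul_of_nonneg_right h3 (by linarith)
      linarith
    have h2 := Chebyshev.theta_nonneg (x : ℝ)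
    have h3 : |Chebyshev.theta (x : ℝ) - x| ≤ 2 * √(n : ℝ) := by
      rw [abs_le]; constructor <;> linarith
    calc |Chebyshev.theta (x : ℝ) - x| * y ^ A ≤ 2 * √(n : ℝ) * (K * √(n : ℝ)) := by
          apply mul_le_mul h3 (hKn n (by omega)) hyA.le (by positivity)
      _ = 2 * K * √(n : ℝ) ^ 2 := by ring
      _ = 2 * K * n := by rw [hs]
      _ ≤ C * n := by
          apply mul_le_mul_of_nonneg_right _ hn0.le
          have : 0 ≤ 3 * 2 ^ A * |Cψ| := by positivity
          linarith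
  · -- large
    have hcase' : √(n : ℝ) < x := not_le.mp hcase
    have hlx : y / 2 ≤ Real.log x := by
      have h1 : Real.log √(n : ℝ) ≤ Real.log x := Real.log_le_log hs0 hcase'.le
      rw [Real.log_sqrt hn0.le] at h1
      exact h1
    have hlx0 : 0 < Real.log (x : ℝ) := by linarith
    have h1 : |Chebyshev.psi (x : ℝ) - x| ≤ |Cψ| * (3 * n) / (y / 2) ^ A := by
      refine (hψ x (by omega)).trans ?_
      have h2 : Cψ * x ≤ |Cψ| * (3 * n) :=
        (mul_le_mul_of_nonneg_right (le_abs_self Cψ) (by linarith)).trans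
          (mul_le_mul_of_nonneg_left hxn (abs_nonneg _))
      have h3 : (y / 2) ^ A ≤ Real.log (x : ℝ) ^ A := pow_le_pow_left₀ (by positivity) hlx A
      calc Cψ * x / Real.log (x : ℝ) ^ A ≤ |Cψ| * (3 * n) / Real.log (x : ℝ) ^ A :=
            div_le_div_of_nonneg_right h2 (by positivity)
        _ ≤ |Cψ| * (3 * n) / (y / 2) ^ A :=
            div_le_div_of_nonneg_left (by positivity) (by positivity) h3
    have h1' : |Chebyshev.psi (x : ℝ) - x| * y ^ A ≤ 3 * 2 ^ A * |Cψ| * n := by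
      refine (mul_le_mul_of_nonneg_right h1 hyA.le).trans (le_of_eq ?_)
      rw [div_pow]
      field_simp
    have h2 : |Chebyshev.psi (x : ℝ) - Chebyshev.theta (x : ℝ)| ≤ 12 * √(n : ℝ) * y := by
      refine (Chebyshev.abs_psi_sub_theta_le_sqrt_mul_log (by linarith)).trans ?_
      have h3 : √(x : ℝ) ≤ 2 * √(n : ℝ) := by
        rw [Real.sqrt_le_left (by positivity)]
        rw [mul_pow, hs]; linarith
      have h4 : Real.log (x : ℝ) ≤ 3 * y := by
        have h5 : (x : ℝ) ≤ (n : ℝ) ^ 3 := by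
          refine hxn.trans ?_
          nlinarith [mul_self_nonneg ((n : ℝ) - 2), mul_pos hn0 hn0]
        have h6 := Real.log_le_log (by linarith) h5
        rw [Real.log_pow] at h6
        exact_mod_cast h6
      calc 2 * √(x : ℝ) * Real.log (x : ℝ) ≤ 2 * (2 * √(n : ℝ)) * (3 * y) := by
            apply mul_le_mul _ h4 hlx0.le (by positivity)
            linarith
        _ = 12 * √(n : ℝ) * y := by ring
    have h2' : |Chebyshev.psi (x : ℝ) - Chebyshev.theta (x : ℝ)| * y ^ A ≤ 12 * K' * n := by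
      calc |Chebyshev.psi (x : ℝ) - Chebyshev.theta (x : ℝ)| * y ^ A
          ≤ 12 * √(n : ℝ) * y * y ^ A := mul_le_mul_of_nonneg_right h2 hyA.le
        _ = 12 * √(n : ℝ) * y ^ (A + 1) := by ring
        _ ≤ 12 * √(n : ℝ) * (K' * √(n : ℝ)) :=
            mul_le_mul_of_nonneg_left (hKn' n (by omega)) (by positivity)
        _ = 12 * K' * √(n : ℝ) ^ 2 := by ring
        _ = 12 * K' * n := by rw [hs]
    have h3 : |Chebyshev.theta (x : ℝ) - x| ≤
        |Chebyshev.psi (x : ℝ) - x| + |Chebyshev.psi (x : ℝ) - Chebyshev.theta (x : ℝ)| := by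
      have e : Chebyshev.theta (x : ℝ) - x =
          (Chebyshev.psi (x : ℝ) - x) - (Chebyshev.psi (x : ℝ) - Chebyshev.theta (x : ℝ)) := by
        ring
      rw [e]; exact abs_sub _ _
    calc |Chebyshev.theta (x : ℝ) - x| * y ^ A ≤
          (|Chebyshev.psi (x : ℝ) - x| + |Chebyshev.psi (x : ℝ) - Chebyshev.theta (x : ℝ)|) *
            y ^ A := mul_le_mul_of_nonneg_right h3 hyA.le
      _ ≤ 3 * 2 ^ A * |Cψ| * n + 12 * K' * n := by rw [add_mul]; exact add_le_add h1' h2'
      _ ≤ C * n := by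
          rw [← add_mul]
          apply mul_le_mul_of_nonneg_right _ hn0.le
          linarith

theorem main_Pnt (h : Stmt_Psi) : Stmt_Pnt := by
  intro A
  obtain ⟨C, hC, hCn⟩ := pnt_claim h A
  refine ⟨3 * C, fun n hn => ?_⟩
  obtain ⟨h1, h2⟩ := hCn n hn
  obtain ⟨m, rfl⟩ : ∃ m, n = m + 1 := ⟨n - 1, by omega⟩
  set E := C * ((m + 1 : ℕ) : ℝ) / Real.log ((m + 1 : ℕ) : ℝ) ^ A with hE
  have hE3 : 3 * C * ((m + 1 : ℕ) : ℝ) / Real.log ((m + 1 : ℕ) : ℝ) ^ A = 3 * E := by
    rw [hE]; ring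
  rw [hE3, pnt_eq m, pnt_abel m]
  have hE0 : 0 ≤ E := by linarith
  have hW0 := pnt_W_nonneg 0
  have hW1 := pnt_W_le 0
  have hsum : |∑ l ∈ range m, pntD (l + 1) * (pntW l - pntW (l + 1))| ≤
      E * (pntW 0 - pntW m) := by
    refine (abs_sum_le_sum_abs _ _).trans ?_
    have h3 : ∀ l ∈ range m, |pntD (l + 1) * (pntW l - pntW (l + 1))| ≤
        E * (pntW l - pntW (l + 1)) := by
      intro l hl
      rw [mem_range] at hl
      rw [abs_mul, abs_of_nonneg (by linarith [pnt_W_anti l] : 0 ≤ pntW l - pntW (l + 1))]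
      apply mul_le_mul_of_nonneg_right (h2 (l + 1) (by omega))
      linarith [pnt_W_anti l]
    refine (sum_le_sum h3).trans (le_of_eq ?_)
    rw [← mul_sum]
    congr 1
    have h4 := sum_range_sub' pntW m
    exact h4
  have hA1 : |pntW m * pntD (m + 1)| ≤ E * pntW m := by
    rw [abs_mul, abs_of_nonneg (pnt_W_nonneg m), mul_comm]
    exact mul_le_mul_of_nonneg_right (h2 (m + 1) le_rfl) (pnt_W_nonneg m)
  have hA2 : |pntW 0 * pntD 0| ≤ E * pntW 0 := by
    rw [abs_mul, abs_of_nonneg hW0, mul_comm]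
    exact mul_le_mul_of_nonneg_right (h2 0 (by omega)) hW0
  have hA3 : |pntW 0 * Real.log 2| ≤ 1 := by
    have hl2 := Real.log_two_lt_d9
    have hl2' : 0 < Real.log 2 := Real.log_pos (by norm_num)
    rw [abs_of_nonneg (by positivity)]
    nlinarith
  have hbound : |pntW m * pntD (m + 1) - pntW 0 * pntD 0 +
      ∑ l ∈ range m, pntD (l + 1) * (pntW l - pntW (l + 1)) - pntW 0 * Real.log 2| ≤
      E * pntW m + E * pntW 0 + E * (pntW 0 - pntW m) + 1 := by
    refine (abs_sub _ _).trans (add_le_add ?_ hA3)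
    refine (abs_add_le _ _).trans (add_le_add ?_ hsum)
    exact (abs_sub _ _).trans (add_le_add hA1 hA2)
  refine hbound.trans ?_
  have : E * pntW m + E * pntW 0 + E * (pntW 0 - pntW m) + 1 = 2 * (E * pntW 0) + 1 := by ring
  rw [this]
  have h5 : E * pntW 0 ≤ E * 1 := mul_le_mul_of_nonneg_left hW1 hE0
  linarith

end Pool.Agent.PCX
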