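import Pool.Agent.PCX.Stmts2
import Pool.Agent.PCX.Tk
import Pool.Agent.PCX.Lam

/-!
# [Qval] A double integral of the squared logarithm
-/

set_option autoImplicit false

namespace Pool.Agent.PCX

open Finset Filter MeasureTheory

theorem Qval_contS : ContinuousOn (fun x : ℝ => x * Real.log (2 * x) ^ 2) (Set.Ici 0) := by
  have h1 : Continuous fun x : ℝ => 2 * (√(2 * x) * Real.log √(2 * x)) ^ 2 := by
    have h2 : Continuous fun x : ℝ => √(2 * x) * Real.log √(2 * x) :=
      Real.continuous_mul_log.comp (Real.continuous_sqrt.comp (continuous_const.mul continuous_id))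
    exact continuous_const.mul (h2.pow 2)
  refine h1.continuousOn.congr ?_
  intro x hx
  have hx0 : (0 : ℝ) ≤ 2 * x := by
    have : (0 : ℝ) ≤ x := hx
    linarith
  simp only
  rw [mul_pow, Real.sq_sqrt hx0, Real.log_sqrt hx0]
  ring

/-- antiderivative of `log(2x)^2` -/
noncomputable def QvalH (x : ℝ) : ℝ := x * Real.log (2 * x) ^ 2 - (2 * x) * Real.log (2 * x) + 2 * x

/-- antiderivative of `QvalH` -/
noncomputable def QvalW (x : ℝ) : ℝ :=
  x ^ 2 / 2 * Real.log (2 * x) ^ 2 - 3 / 2 * x ^ 2 * Real.log (2 * x) + 7 / 4 * x ^ 2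

theorem QvalH_cont : ContinuousOn QvalH (Set.Ici 0) :=
  (Qval_contS.sub Lam_cont_mul.continuousOn).add (continuous_const.mul continuous_id).continuousOn

theorem QvalW_cont : ContinuousOn QvalW (Set.Ici 0) := by
  have h1 : ContinuousOn (fun x : ℝ => x / 2 * (x * Real.log (2 * x) ^ 2) -
      3 / 4 * x * ((2 * x) * Real.log (2 * x)) + 7 / 4 * x ^ 2) (Set.Ici 0) := by
    refine ContinuousOn.add (ContinuousOn.sub ?_ ?_) ?_
    · exact (continuous_id.div_const 2).continuousOn.mul Qval_contS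
    · exact (continuous_const.mul continuous_id).continuousOn.mul Lam_cont_mul.continuousOn
    · exact (continuous_const.mul (continuous_pow 2)).continuousOn
  refine h1.congr ?_
  intro x _
  unfold QvalW
  ring

theorem Qval_dlog {x : ℝ} (hx : 0 < x) : HasDerivAt (fun y : ℝ => Real.log (2 * y)) (1 / x) x := by
  have h1 : HasDerivAt (fun y : ℝ => 2 * y) 2 x := by
    simpa using (hasDerivAt_id x).const_mul (2 : ℝ)
  have h2 := h1.log (by positivity : (2 : ℝ) * x ≠ 0)
  refine h2.congr_deriv ?_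
  field_simp

theorem QvalH_deriv {x : ℝ} (hx : 0 < x) : HasDerivAt QvalH (Real.log (2 * x) ^ 2) x := by
  have h1 := Qval_dlog hx
  have h2 := (hasDerivAt_id x).mul (h1.pow 2)
  have h3 := ((hasDerivAt_id x).const_mul (2 : ℝ)).mul h1
  have h4 := (h2.sub h3).add ((hasDerivAt_id x).const_mul (2 : ℝ))
  refine h4.congr_deriv ?_
  simp only [id, Pi.pow_apply]
  field_simp
  ring

theorem QvalW_deriv {x : ℝ} (hx : 0 < x) : HasDerivAt QvalW (QvalH x) x := by
  have h1 := Qval_dlog hx
  have h2 := ((hasDerivAt_pow 2 x).div_const 2).mul (h1.pow 2)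
  have h3 := ((hasDerivAt_pow 2 x).const_mul (3 / 2 : ℝ)).mul h1
  have h4 := (h2.sub h3).add ((hasDerivAt_pow 2 x).const_mul (7 / 4 : ℝ))
  refine h4.congr_deriv ?_
  unfold QvalH
  simp only [Pi.pow_apply]
  field_simp
  ring

theorem Qval_inner {u : ℝ} (hu0 : 0 ≤ u) (hu1 : u ≤ 1) :
    T 2 (fun _ => 1) u = QvalH (u + 1) - QvalH u := by
  unfold T
  have hint := Tk_integrable 2 1 (fun _ => (1 : ℝ)) zero_le_one
    (continuous_const.continuousOn) (fun v _ => by simp) u ⟨hu0, hu1⟩
  have hF : ContinuousOn (fun v : ℝ => QvalH (u + v)) (Set.Icc 0 1) := by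
    refine QvalH_cont.comp (continuous_const.add continuous_id).continuousOn ?_
    intro v hv
    have : 0 ≤ v := hv.1
    show (0 : ℝ) ≤ u + v
    linarith
  have hd : ∀ v ∈ Set.Ioo (0 : ℝ) 1, HasDerivAt (fun v : ℝ => QvalH (u + v))
      (Real.log (2 * (u + v)) ^ 2 * 1) v := by
    intro v hv
    have h1 := (QvalH_deriv (x := u + v) (by linarith [hv.1])).comp_const_add u v
    rw [mul_one]
    exact h1
  rw [intervalIntegral.integral_eq_sub_of_hasDerivAt_of_le zero_le_one hF hd hint, add_zero]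

theorem main_Qval : Stmt_Qval := by
  unfold Stmt_Qval
  have h1 : (∫ u in (0 : ℝ)..1, T 2 (fun _ => 1) u) =
      ∫ u in (0 : ℝ)..1, (QvalH (u + 1) - QvalH u) := by
    apply intervalIntegral.integral_congr
    intro u hu
    rw [Set.uIcc_of_le zero_le_one] at hu
    exact Qval_inner hu.1 hu.2
  rw [h1]
  have hH1 : ContinuousOn (fun u : ℝ => QvalH (u + 1)) (Set.Icc 0 1) := by
    refine QvalH_cont.comp (continuous_id.add continuous_const).continuousOn ?_
    intro v hv
    have : 0 ≤ v := hv.1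
    show (0 : ℝ) ≤ v + 1
    linarith
  have hH0 : ContinuousOn QvalH (Set.Icc 0 1) := QvalH_cont.mono (fun v hv => hv.1)
  have hW1 : ContinuousOn (fun u : ℝ => QvalW (u + 1)) (Set.Icc 0 1) := by
    refine QvalW_cont.comp (continuous_id.add continuous_const).continuousOn ?_
    intro v hv
    have : 0 ≤ v := hv.1
    show (0 : ℝ) ≤ v + 1
    linarith
  have hW0 : ContinuousOn QvalW (Set.Icc 0 1) := QvalW_cont.mono (fun v hv => hv.1)
  have hd : ∀ u ∈ Set.Ioo (0 : ℝ) 1, HasDerivAt (fun u : ℝ => QvalW (u + 1) - QvalW u)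
      (QvalH (u + 1) - QvalH u) u := by
    intro u hu
    exact ((QvalW_deriv (x := u + 1) (by linarith [hu.1])).comp_add_const u 1).sub
      (QvalW_deriv hu.1)
  have hi : IntervalIntegrable (fun u : ℝ => QvalH (u + 1) - QvalH u) volume 0 1 := by
    apply ContinuousOn.intervalIntegrable
    rw [Set.uIcc_of_le zero_le_one]
    exact hH1.sub hH0
  have hW : ContinuousOn (fun u : ℝ => QvalW (u + 1) - QvalW u) (Set.Icc 0 1) := hW1.sub hW0
  rw [intervalIntegral.integral_eq_sub_of_hasDerivAt_of_le zero_le_one hW hd hi]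
  unfold QvalW
  have hl4 : Real.log (2 * (1 + 1)) = 2 * Real.log 2 := by
    rw [show (2 : ℝ) * (1 + 1) = 2 ^ 2 by norm_num, Real.log_pow]
    norm_num
  rw [hl4]
  norm_num
  ring

end Pool.Agent.PCX
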