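import Pool.Agent.PCX.Stmts

/-!
# Recursive construction of the coefficient functions
-/

set_option autoImplicit false

namespace Pool.Agent.PCX

open Finset Filter Topology

private theorem recn_poly (n : ℕ) : ∀ a : ℕ → ℝ,
    Tendsto (fun s : ℝ => (∑ k ∈ range (n + 1), s ^ k * a k) / s ^ n) (𝓝[>] 0) (𝓝 0) →
    ∀ k < n + 1, a k = 0 := by
  induction n with
  | zero =>
    intro a h k hk
    have hk0 : k = 0 := by omega
    subst hk0
    have h' : Tendsto (fun _ : ℝ => a 0) (𝓝[>] (0 : ℝ)) (𝓝 0) := by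
      refine h.congr fun s => ?_
      simp
    exact tendsto_nhds_unique tendsto_const_nhds h'
  | succ n ih =>
    intro a h
    have h0 : a 0 = 0 := by
      have e1 : Tendsto (fun s : ℝ => ∑ k ∈ range (n + 1 + 1), s ^ k * a k) (𝓝[>] 0)
          (𝓝 (a 0)) := by
        have hc : Continuous fun s : ℝ => ∑ k ∈ range (n + 1 + 1), s ^ k * a k := by fun_prop
        have h1 := hc.tendsto 0
        have e : ∑ k ∈ range (n + 1 + 1), (0 : ℝ) ^ k * a k = a 0 := by
          rw [Finset.sum_range_succ']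
          simp
        rw [e] at h1
        exact h1.mono_left nhdsWithin_le_nhds
      have e2 : Tendsto (fun s : ℝ => ∑ k ∈ range (n + 1 + 1), s ^ k * a k) (𝓝[>] 0)
          (𝓝 0) := by
        have hp : Tendsto (fun s : ℝ => s ^ (n + 1)) (𝓝[>] 0) (𝓝 0) := by
          have hc : Continuous fun s : ℝ => s ^ (n + 1) := by fun_prop
          have h1 := hc.tendsto 0
          simp only [ne_eq, Nat.add_eq_zero_iff, one_ne_zero, and_false, not_false_eq_true,
            zero_pow] at h1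
          exact h1.mono_left nhdsWithin_le_nhds
        have h2 := h.mul hp
        rw [zero_mul] at h2
        refine h2.congr' ?_
        filter_upwards [self_mem_nhdsWithin] with s hs
        have hs' : s ≠ 0 := ne_of_gt hs
        exact div_mul_cancel₀ _ (pow_ne_zero _ hs')
      exact tendsto_nhds_unique e1 e2
    have h1 : Tendsto (fun s : ℝ => (∑ k ∈ range (n + 1), s ^ k * a (k + 1)) / s ^ n)
        (𝓝[>] 0) (𝓝 0) := by
      refine h.congr' ?_
      filter_upwards [self_mem_nhdsWithin] with s hs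
      have hs' : s ≠ 0 := ne_of_gt hs
      rw [Finset.sum_range_succ', h0, mul_zero, add_zero]
      have e : ∑ k ∈ range (n + 1), s ^ (k + 1) * a (k + 1) =
          s * ∑ k ∈ range (n + 1), s ^ k * a (k + 1) := by
        rw [Finset.mul_sum]
        refine Finset.sum_congr rfl fun k _ => ?_
        ring
      rw [e, pow_succ' s n, mul_div_mul_left _ _ hs']
    intro k hk
    rcases k with _ | k
    · exact h0
    · exact ih _ h1 k (by omega)

private theorem recn_ident {F : ℝ → ℝ} {n : ℕ} {a : ℕ → ℝ} {C s₀ L : ℝ} (hs₀ : 0 < s₀)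
    (hF : ∀ s, 0 < s → s ≤ s₀ → |F s - ∑ k ∈ range (n + 1), s ^ k * a k| ≤ C * s ^ (n + 1))
    (h : Tendsto (fun s : ℝ => (F s - 1) / s ^ n) (𝓝[>] 0) (𝓝 L)) (s : ℝ) :
    ∑ k ∈ range (n + 1), s ^ k * a k = 1 + s ^ n * L := by
  set b : ℕ → ℝ := fun k => a k - (if k = 0 then 1 else 0) - (if k = n then L else 0) with hb
  have hsum : ∀ s : ℝ, ∑ k ∈ range (n + 1), s ^ k * b k =
      ∑ k ∈ range (n + 1), s ^ k * a k - 1 - s ^ n * L := by
    intro s
    simp only [hb, mul_sub, Finset.sum_sub_distrib, mul_ite, mul_one, mul_zero]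
    rw [Finset.sum_ite_eq' (range (n + 1)) n, if_pos (by simp), Finset.sum_ite_eq', if_pos (by simp)]
    simp
  have ht : Tendsto (fun s : ℝ => (∑ k ∈ range (n + 1), s ^ k * b k) / s ^ n) (𝓝[>] 0)
      (𝓝 0) := by
    have e1 : Tendsto (fun s : ℝ => (F s - ∑ k ∈ range (n + 1), s ^ k * a k) / s ^ n) (𝓝[>] 0)
        (𝓝 0) := by
      have e2 : Tendsto (fun s : ℝ => C * s) (𝓝[>] 0) (𝓝 0) := by
        have hc : Continuous fun s : ℝ => C * s := by fun_prop
        have h1 := hc.tendsto 0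
        rw [mul_zero] at h1
        exact h1.mono_left nhdsWithin_le_nhds
      refine squeeze_zero_norm' ?_ e2
      filter_upwards [Ioc_mem_nhdsGT hs₀] with s hs
      have hp : 0 < s ^ n := pow_pos hs.1 _
      rw [Real.norm_eq_abs, abs_div, abs_of_pos hp, div_le_iff₀ hp]
      calc _ ≤ C * s ^ (n + 1) := hF s hs.1 hs.2
        _ = C * s * s ^ n := by ring
    have e3 := (h.sub e1).sub_const L
    rw [sub_zero, sub_self] at e3
    refine e3.congr' ?_
    filter_upwards [self_mem_nhdsWithin] with s hs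
    have hp : s ^ n ≠ 0 := pow_ne_zero _ (ne_of_gt hs)
    rw [hsum]
    field_simp
    ring
  have hz := recn_poly n b ht
  have h0 : ∑ k ∈ range (n + 1), s ^ k * b k = 0 := by
    refine Finset.sum_eq_zero fun k hk => ?_
    rw [hz k (Finset.mem_range.1 hk), mul_zero]
  rw [hsum] at h0
  linarith

private theorem recn_cont {B : ℝ} {f : ℝ → ℝ} (h : HB B f) : ContinuousOn f (Set.Icc 0 1) := by
  intro u hu
  have h1 : Tendsto (fun v => B * √|v - u|) (𝓝[Set.Icc 0 1] u) (𝓝 0) := by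
    have hc : Continuous fun v : ℝ => B * √|v - u| := by fun_prop
    have h2 := hc.tendsto u
    rw [sub_self, abs_zero, Real.sqrt_zero, mul_zero] at h2
    exact h2.mono_left nhdsWithin_le_nhds
  have h3 : Tendsto (fun v => f v - f u) (𝓝[Set.Icc 0 1] u) (𝓝 0) := by
    refine squeeze_zero_norm' ?_ h1
    filter_upwards [self_mem_nhdsWithin] with v hv
    exact h.2 v hv u hu
  have h4 := h3.add_const (f u)
  simp only [sub_add_cancel, zero_add] at h4
  exact h4

private theorem recn_GG_cont {g : ℕ → ℝ → ℝ} (hg : ∀ k, ∃ B, HB B (g k)) (K : ℕ) (s : ℝ) :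
    ContinuousOn (GG g K s) (Set.Icc 0 1) := by
  unfold GG
  refine continuousOn_finsetSum _ fun k _ => ?_
  obtain ⟨B, hB⟩ := hg k
  exact continuousOn_const.mul (recn_cont hB)

private theorem recn_GG_bound {g : ℕ → ℝ → ℝ} (hg : ∀ k, ∃ B, HB B (g k)) (K : ℕ) :
    ∃ B : ℝ, 0 ≤ B ∧ ∀ s, 0 < s → s ≤ 1 → ∀ u ∈ Set.Icc (0 : ℝ) 1, |GG g K s u| ≤ B * s := by
  choose b hb using hg
  refine ⟨∑ k ∈ Icc 1 K, |b k|, Finset.sum_nonneg fun k _ => abs_nonneg _, ?_⟩
  intro s hs hs1 u hu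
  unfold GG
  refine (Finset.abs_sum_le_sum_abs _ _).trans ?_
  rw [Finset.sum_mul]
  refine Finset.sum_le_sum fun k hk => ?_
  have hk1 := (Finset.mem_Icc.1 hk).1
  rw [abs_mul, abs_of_pos (pow_pos hs k), mul_comm]
  have h1 : s ^ k ≤ s := by
    calc s ^ k ≤ s ^ 1 := pow_le_pow_of_le_one hs.le hs1 hk1
      _ = s := pow_one s
  exact mul_le_mul (((hb k).1 u hu).trans (le_abs_self _)) h1 (pow_pos hs k).le (abs_nonneg _)

private theorem recn_GG_update (g : ℕ → ℝ → ℝ) (h : ℝ → ℝ) (K : ℕ) (s u : ℝ) :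
    GG (Function.update g (K + 1) h) (K + 1) s u = GG g K s u + s ^ (K + 1) * h u := by
  unfold GG
  rw [Finset.sum_Icc_succ_top (by omega), Function.update_self]
  congr 1
  refine Finset.sum_congr rfl fun k hk => ?_
  have := (Finset.mem_Icc.1 hk).2
  rw [Function.update_of_ne (by omega)]

private theorem recn_T_diff (h1 : Stmt_Tk) (k : ℕ) : ∃ C : ℝ, 0 < C ∧
    ∀ (η : ℝ) (f g : ℝ → ℝ), 0 ≤ η → ContinuousOn f (Set.Icc 0 1) →
      ContinuousOn g (Set.Icc 0 1) → (∀ v ∈ Set.Icc (0 : ℝ) 1, |f v - g v| ≤ η) →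
      ∀ u ∈ Set.Icc (0 : ℝ) 1, |T k f u - T k g u| ≤ C * η := by
  obtain ⟨C, hC, -, h2, h3⟩ := h1 k
  refine ⟨C, hC, fun η f g hη hf hg hfg u hu => ?_⟩
  have e := h3 (-1) f g hf hg u hu
  have e2 : T k f u - T k g u = T k (fun v => f v + -1 * g v) u := by
    rw [e]; ring
  rw [e2]
  refine h2 η _ hη (hf.add (continuousOn_const.mul hg)) (fun v hv => ?_) u hu
  have := hfg v hv
  have e3 : f v + -1 * g v = f v - g v := by ring
  change |f v + -1 * g v| ≤ η
  rw [e3]
  exact this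

private theorem recn_T_zero (f : ℝ → ℝ) (u : ℝ) : T 0 f u = ∫ v in (0 : ℝ)..1, f v := by
  unfold T
  simp

/-- convergence of the sums over `k` -/
private theorem recn_sum (h1 : Stmt_Tk) {f : ℝ → ℝ → ℝ} {f₀ : ℝ → ℝ} {c s₁ : ℝ} (hs₁ : 0 < s₁)
    (hc : 0 ≤ c) (hf : ∀ s, 0 < s → s ≤ s₁ → ContinuousOn (f s) (Set.Icc 0 1))
    (hf₀ : ContinuousOn f₀ (Set.Icc 0 1))
    (h : ∀ s, 0 < s → s ≤ s₁ → ∀ v ∈ Set.Icc (0 : ℝ) 1, |f s v - f₀ v| ≤ c * s) (N : ℕ)
    {u : ℝ} (hu : u ∈ Set.Icc (0 : ℝ) 1) :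
    Tendsto (fun s : ℝ => ∑ k ∈ range (N + 1), (-s) ^ k * T k (f s) u) (𝓝[>] 0)
      (𝓝 (T 0 f₀ u)) := by
  have h2 : ∀ k : ℕ, Tendsto (fun s : ℝ => T k (f s) u) (𝓝[>] 0) (𝓝 (T k f₀ u)) := by
    intro k
    obtain ⟨C, hC, h3⟩ := recn_T_diff h1 k
    have h4 : Tendsto (fun s : ℝ => C * (c * s)) (𝓝[>] 0) (𝓝 0) := by
      have hcc : Continuous fun s : ℝ => C * (c * s) := by fun_prop
      have h5 := hcc.tendsto 0
      rw [mul_zero, mul_zero] at h5
      exact h5.mono_left nhdsWithin_le_nhds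
    have h6 : Tendsto (fun s : ℝ => T k (f s) u - T k f₀ u) (𝓝[>] 0) (𝓝 0) := by
      refine squeeze_zero_norm' ?_ h4
      filter_upwards [Ioc_mem_nhdsGT hs₁] with s hs
      exact h3 (c * s) (f s) f₀ (mul_nonneg hc hs.1.le) (hf s hs.1 hs.2) hf₀
        (h s hs.1 hs.2) u hu
    have h7 := h6.add_const (T k f₀ u)
    simp only [sub_add_cancel, zero_add] at h7
    exact h7
  have h3 : Tendsto (fun s : ℝ => ∑ k ∈ range (N + 1), (-s) ^ k * T k (f s) u) (𝓝[>] 0)
      (𝓝 (∑ k ∈ range (N + 1), (-0) ^ k * T k f₀ u)) := by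
    refine tendsto_finsetSum _ fun k _ => ?_
    refine Tendsto.mul ?_ (h2 k)
    have hcc : Continuous fun s : ℝ => (-s) ^ k := by fun_prop
    exact (hcc.tendsto 0).mono_left nhdsWithin_le_nhds
  have e : ∑ k ∈ range (N + 1), (-0 : ℝ) ^ k * T k f₀ u = T 0 f₀ u := by
    rw [Finset.sum_range_succ']
    simp
  rw [e] at h3
  exact h3

private def RecP (g : ℕ → ℝ → ℝ) (K : ℕ) : Prop :=
  ∃ C s₀ : ℝ, 0 < s₀ ∧ ∀ s, 0 < s → s ≤ s₀ → ∀ u ∈ Set.Icc (0 : ℝ) 1,
    |EE g K (K + 1) s u - 1| ≤ C * s ^ (K + 1)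

private theorem recn_HB_shift {B c : ℝ} {q : ℝ → ℝ} (h : HB B q) :
    HB (|B| + |c|) (fun u => -q u + c) := by
  constructor
  · intro u hu
    refine (abs_add_le _ _).trans ?_
    rw [abs_neg]
    have := (h.1 u hu).trans (le_abs_self B)
    linarith
  · intro u hu v hv
    have e : -q u + c - (-q v + c) = -(q u - q v) := by ring
    rw [e, abs_neg]
    refine (h.2 u hu v hv).trans ?_
    refine mul_le_mul_of_nonneg_right ?_ (Real.sqrt_nonneg _)
    linarith [le_abs_self B, abs_nonneg c]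

/-- estimates for `A = exp G` and `A' = exp (G + σ h)` -/
private theorem recn_exp_est {B b s σ x y : ℝ} (hB : 0 ≤ B) (hb : 0 ≤ b) (hs : 0 < s)
    (hσ : 0 < σ) (hσs : σ ≤ s) (hx : |x| ≤ B * s) (hy : |y| ≤ b) (h1 : (B + b) * s ≤ 1) :
    |Real.exp (x + σ * y) - 1| ≤ 2 * (B + b) * s ∧
    |(Real.exp (x + σ * y) - Real.exp x) / σ - y| ≤ (2 * B * b + 3 * b ^ 2) * s := by
  have hσy : |σ * y| ≤ b * s := by
    rw [abs_mul, abs_of_pos hσ, mul_comm b s]
    exact mul_le_mul hσs hy (abs_nonneg _) hs.le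
  have hxy : |x + σ * y| ≤ (B + b) * s := by
    refine (abs_add_le _ _).trans ?_
    linarith
  have hBs : B * s ≤ 1 := by nlinarith
  have hbs : b * s ≤ 1 := by nlinarith
  constructor
  · refine (Real.abs_exp_sub_one_le (hxy.trans h1)).trans ?_
    linarith
  · have e1 := Real.abs_exp_sub_one_le (hx.trans hBs)
    have e2 := Real.abs_exp_sub_one_sub_id_le (hσy.trans hbs)
    have e3 : Real.exp x ≤ 3 := by
      have : |Real.exp x - 1| ≤ 2 := by
        refine e1.trans ?_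
        linarith [hx.trans hBs]
      have := (abs_le.1 this).2
      linarith
    have e4 : (Real.exp (x + σ * y) - Real.exp x) / σ - y =
        (Real.exp x - 1) * y + Real.exp x * ((Real.exp (σ * y) - 1 - σ * y) / σ) := by
      rw [Real.exp_add]
      field_simp
      ring
    rw [e4]
    refine (abs_add_le _ _).trans ?_
    have f1 : |(Real.exp x - 1) * y| ≤ 2 * B * b * s := by
      rw [abs_mul]
      calc |Real.exp x - 1| * |y| ≤ (2 * (B * s)) * b := by
            refine mul_le_mul (e1.trans ?_) hy (abs_nonneg _) (by positivity)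
            linarith
        _ = 2 * B * b * s := by ring
    have f2 : |Real.exp x * ((Real.exp (σ * y) - 1 - σ * y) / σ)| ≤ 3 * b ^ 2 * s := by
      rw [abs_mul, abs_of_pos (Real.exp_pos x), abs_div, abs_of_pos hσ]
      have g1 : |Real.exp (σ * y) - 1 - σ * y| / σ ≤ b ^ 2 * s := by
        rw [div_le_iff₀ hσ]
        refine e2.trans ?_
        have g2 : (σ * y) ^ 2 = σ ^ 2 * |y| ^ 2 := by
          rw [mul_pow, sq_abs]
        rw [g2]
        have g3 : |y| ^ 2 ≤ b ^ 2 := pow_le_pow_left₀ (abs_nonneg _) hy 2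
        calc σ ^ 2 * |y| ^ 2 ≤ σ ^ 2 * b ^ 2 := mul_le_mul_of_nonneg_left g3 (sq_nonneg _)
          _ = b ^ 2 * (σ * σ) := by ring
          _ ≤ b ^ 2 * (s * σ) := by
              refine mul_le_mul_of_nonneg_left ?_ (sq_nonneg _)
              exact mul_le_mul_of_nonneg_right hσs hσ.le
          _ = b ^ 2 * s * σ := by ring
      calc Real.exp x * (|Real.exp (σ * y) - 1 - σ * y| / σ) ≤ 3 * (b ^ 2 * s) :=
            mul_le_mul e3 g1 (by positivity) (by norm_num)
        _ = 3 * b ^ 2 * s := by ring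
    linarith

private theorem recn_tendsto_of_bound {F : ℝ → ℝ} {L c s₁ : ℝ} (hs₁ : 0 < s₁)
    (h : ∀ s, 0 < s → s ≤ s₁ → |F s - L| ≤ c * s) : Tendsto F (𝓝[>] 0) (𝓝 L) := by
  have h4 : Tendsto (fun s : ℝ => c * s) (𝓝[>] 0) (𝓝 0) := by
    have hcc : Continuous fun s : ℝ => c * s := by fun_prop
    have h5 := hcc.tendsto 0
    rw [mul_zero] at h5
    exact h5.mono_left nhdsWithin_le_nhds
  have h6 : Tendsto (fun s : ℝ => F s - L) (𝓝[>] 0) (𝓝 0) := by
    refine squeeze_zero_norm' ?_ h4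
    filter_upwards [Ioc_mem_nhdsGT hs₁] with s hs
    exact h s hs.1 hs.2
  have h7 := h6.add_const L
  simp only [sub_add_cancel, zero_add] at h7
  exact h7

/-- adding a term changes the basic expression by `s^(K+1) (h + ∫ h)` -/
private theorem recn_change (h1 : Stmt_Tk) {g : ℕ → ℝ → ℝ} (hg : ∀ k, ∃ B, HB B (g k)) (K : ℕ)
    {h : ℝ → ℝ} {b : ℝ} (hh : HB b h) (N : ℕ) {u : ℝ} (hu : u ∈ Set.Icc (0 : ℝ) 1) :
    Tendsto (fun s : ℝ => (EE (Function.update g (K + 1) h) (K + 1) (N + 1) s u -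
      EE g K (N + 1) s u) / s ^ (K + 1)) (𝓝[>] 0) (𝓝 (h u + ∫ v in (0 : ℝ)..1, h v)) := by
  obtain ⟨B, hB, hG⟩ := recn_GG_bound hg K
  have hb : 0 ≤ b := (abs_nonneg _).trans (hh.1 0 ⟨le_rfl, zero_le_one⟩)
  set s₁ : ℝ := min 1 (1 / (B + b + 1)) with hs₁
  have hs₁p : 0 < s₁ := by positivity
  have hs₁1 : s₁ ≤ 1 := min_le_left _ _
  have hs₁2 : (B + b) * s₁ ≤ 1 := by
    have h2 : s₁ ≤ 1 / (B + b + 1) := min_le_right _ _
    have h3 : 0 < B + b + 1 := by positivity
    rw [le_div_iff₀ h3] at h2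
    nlinarith
  have hpow : ∀ s, 0 < s → s ≤ s₁ → 0 < s ^ (K + 1) ∧ s ^ (K + 1) ≤ s := by
    intro s hs hs1
    refine ⟨pow_pos hs _, ?_⟩
    calc s ^ (K + 1) ≤ s ^ 1 := pow_le_pow_of_le_one hs.le (hs1.trans hs₁1) (by omega)
      _ = s := pow_one s
  set A : ℝ → ℝ → ℝ := fun s v => Real.exp (GG g K s v) with hA
  set A' : ℝ → ℝ → ℝ := fun s v => Real.exp (GG g K s v + s ^ (K + 1) * h v) with hA'
  set D : ℝ → ℝ → ℝ := fun s v => (A' s v - A s v) / s ^ (K + 1) with hD
  have hAc : ∀ s, ContinuousOn (A s) (Set.Icc 0 1) := fun s =>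
    (recn_GG_cont hg K s).rexp
  have hA'c : ∀ s, ContinuousOn (A' s) (Set.Icc 0 1) := fun s =>
    ((recn_GG_cont hg K s).add (continuousOn_const.mul (recn_cont hh))).rexp
  have hDc : ∀ s, ContinuousOn (D s) (Set.Icc 0 1) := fun s =>
    ((hA'c s).sub (hAc s)).div_const _
  have hest : ∀ s, 0 < s → s ≤ s₁ → ∀ v ∈ Set.Icc (0 : ℝ) 1,
      |A' s v - 1| ≤ 2 * (B + b) * s ∧ |D s v - h v| ≤ (2 * B * b + 3 * b ^ 2) * s := by
    intro s hs hs1 v hv
    exact recn_exp_est hB hb hs (hpow s hs hs1).1 (hpow s hs hs1).2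
      (hG s hs (hs1.trans hs₁1) v hv) (hh.1 v hv)
      ((mul_le_mul_of_nonneg_left hs1 (by positivity)).trans hs₁2)
  have hestA : ∀ s, 0 < s → s ≤ s₁ → ∀ v ∈ Set.Icc (0 : ℝ) 1, |A s v - 1| ≤ 2 * B * s := by
    intro s hs hs1 v hv
    have h2 := hG s hs (hs1.trans hs₁1) v hv
    have h3 : B * s ≤ 1 := by
      have := (mul_le_mul_of_nonneg_left hs1 (by positivity : 0 ≤ B + b)).trans hs₁2
      nlinarith
    refine (Real.abs_exp_sub_one_le (h2.trans h3)).trans ?_
    linarith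
  have t1 : Tendsto (fun s : ℝ => ∑ k ∈ range (N + 1), (-s) ^ k * T k (A' s) u) (𝓝[>] 0)
      (𝓝 1) := by
    have h2 := recn_sum h1 (f := A') (f₀ := fun _ => 1) hs₁p (c := 2 * (B + b)) (by positivity)
      (fun s _ _ => hA'c s) continuousOn_const (fun s hs hs1 v hv => (hest s hs hs1 v hv).1) N hu
    rw [recn_T_zero] at h2
    simpa using h2
  have t2 : Tendsto (fun s : ℝ => ∑ k ∈ range (N + 1), (-s) ^ k * T k (D s) u) (𝓝[>] 0)
      (𝓝 (∫ v in (0 : ℝ)..1, h v)) := by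
    have h2 := recn_sum h1 (f := D) (f₀ := h) hs₁p (c := 2 * B * b + 3 * b ^ 2) (by positivity)
      (fun s _ _ => hDc s) (recn_cont hh) (fun s hs hs1 v hv => (hest s hs hs1 v hv).2) N hu
    rw [recn_T_zero] at h2
    exact h2
  have t3 : Tendsto (fun s : ℝ => D s u) (𝓝[>] 0) (𝓝 (h u)) :=
    recn_tendsto_of_bound hs₁p fun s hs hs1 => (hest s hs hs1 u hu).2
  have t4 : Tendsto (fun s : ℝ => A s u) (𝓝[>] 0) (𝓝 1) :=
    recn_tendsto_of_bound hs₁p fun s hs hs1 => hestA s hs hs1 u hu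
  have t5 := (t3.mul t1).add (t4.mul t2)
  rw [mul_one, one_mul] at t5
  refine t5.congr' ?_
  filter_upwards [self_mem_nhdsWithin] with s hs
  have hs' : s ^ (K + 1) ≠ 0 := pow_ne_zero _ (ne_of_gt hs)
  have e1 : EE (Function.update g (K + 1) h) (K + 1) (N + 1) s u =
      A' s u * ∑ k ∈ range (N + 1), (-s) ^ k * T k (A' s) u := by
    unfold EE
    rw [recn_GG_update]
    congr 1
    refine Finset.sum_congr rfl fun k _ => ?_
    have : (fun v => Real.exp (GG (Function.update g (K + 1) h) (K + 1) s v)) = A' s := by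
      ext v
      rw [recn_GG_update]
    rw [this]
  have e2 : EE g K (N + 1) s u = A s u * ∑ k ∈ range (N + 1), (-s) ^ k * T k (A s) u := rfl
  have e3 : ∀ k : ℕ, T k (A' s) u = T k (A s) u + s ^ (K + 1) * T k (D s) u := by
    intro k
    obtain ⟨C, -, -, -, h3⟩ := h1 k
    rw [← h3 (s ^ (K + 1)) (A s) (D s) (hAc s) (hDc s) u hu]
    congr 1
    ext v
    simp only [hD]
    field_simp
    ring
  have e4 : ∑ k ∈ range (N + 1), (-s) ^ k * T k (A' s) u =
      ∑ k ∈ range (N + 1), (-s) ^ k * T k (A s) u +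
        s ^ (K + 1) * ∑ k ∈ range (N + 1), (-s) ^ k * T k (D s) u := by
    rw [Finset.mul_sum, ← Finset.sum_add_distrib]
    refine Finset.sum_congr rfl fun k _ => ?_
    rw [e3]
    ring
  have e5 : A' s u = A s u + s ^ (K + 1) * D s u := by
    simp only [hD]
    field_simp
    ring
  rw [e1, e2, e4, e5]
  field_simp
  ring

private theorem recn_T_tendsto (h1 : Stmt_Tk) {g : ℕ → ℝ → ℝ} (hg : ∀ k, ∃ B, HB B (g k))
    (K k : ℕ) {u : ℝ} (hu : u ∈ Set.Icc (0 : ℝ) 1) :
    Tendsto (fun s : ℝ => Real.exp (GG g K s u) * T k (fun v => Real.exp (GG g K s v)) u)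
      (𝓝[>] 0) (𝓝 (T k (fun _ => 1) u)) := by
  obtain ⟨B, hB, hG⟩ := recn_GG_bound hg K
  obtain ⟨C, hC, h3⟩ := recn_T_diff h1 k
  set s₁ : ℝ := min 1 (1 / (B + 1)) with hs₁
  have hs₁p : 0 < s₁ := by positivity
  have hs₁1 : s₁ ≤ 1 := min_le_left _ _
  have hs₁2 : B * s₁ ≤ 1 := by
    have h2 : s₁ ≤ 1 / (B + 1) := min_le_right _ _
    have h3 : 0 < B + 1 := by positivity
    rw [le_div_iff₀ h3] at h2
    nlinarith
  have hest : ∀ s, 0 < s → s ≤ s₁ → ∀ v ∈ Set.Icc (0 : ℝ) 1,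
      |Real.exp (GG g K s v) - 1| ≤ 2 * B * s := by
    intro s hs hs1 v hv
    have h2 := hG s hs (hs1.trans hs₁1) v hv
    have h3 : B * s ≤ 1 := (mul_le_mul_of_nonneg_left hs1 hB).trans hs₁2
    refine (Real.abs_exp_sub_one_le (h2.trans h3)).trans ?_
    linarith
  have t1 : Tendsto (fun s : ℝ => Real.exp (GG g K s u)) (𝓝[>] 0) (𝓝 1) :=
    recn_tendsto_of_bound hs₁p fun s hs hs1 => hest s hs hs1 u hu
  have t2 : Tendsto (fun s : ℝ => T k (fun v => Real.exp (GG g K s v)) u) (𝓝[>] 0)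
      (𝓝 (T k (fun _ => 1) u)) := by
    refine recn_tendsto_of_bound hs₁p (c := C * (2 * B)) fun s hs hs1 => ?_
    have h4 := h3 (2 * B * s) _ (fun _ => 1) (by positivity) (recn_GG_cont hg K s).rexp
      continuousOn_const (hest s hs hs1) u hu
    calc _ ≤ C * (2 * B * s) := h4
      _ = C * (2 * B) * s := by ring
  have t3 := t1.mul t2
  rw [one_mul] at t3
  exact t3

private theorem recn_integral {B : ℝ} {q : ℝ → ℝ} (h : HB B q) (c : ℝ) :
    ∫ v in (0 : ℝ)..1, (-q v + c) = -(∫ v in (0 : ℝ)..1, q v) + c := by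
  have hi : IntervalIntegrable q MeasureTheory.volume 0 1 := by
    refine ContinuousOn.intervalIntegrable ?_
    rw [Set.uIcc_of_le zero_le_one]
    exact recn_cont h
  have hi' : IntervalIntegrable (fun v => -q v) MeasureTheory.volume 0 1 := hi.neg
  rw [intervalIntegral.integral_add hi' intervalIntegrable_const, intervalIntegral.integral_neg]
  simp

private theorem recn_step (h1 : Stmt_Tk) (h2 : Stmt_Exp) {g : ℕ → ℝ → ℝ}
    (hg : ∀ k, ∃ B, HB B (g k)) {K : ℕ} (hP : RecP g K) {q : ℕ → ℝ → ℝ}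
    (hq : Ex (K + 1 + 1) (EE g K (K + 1 + 1)) q) :
    (∀ k, ∃ B, HB B (Function.update g (K + 1)
      (fun u => -q (K + 1) u + (∫ v in (0 : ℝ)..1, q (K + 1) v) / 2) k)) ∧
    RecP (Function.update g (K + 1)
      (fun u => -q (K + 1) u + (∫ v in (0 : ℝ)..1, q (K + 1) v) / 2)) (K + 1) := by
  obtain ⟨hqB, C1, s1, hs1, hE⟩ := hq
  set c : ℝ := (∫ v in (0 : ℝ)..1, q (K + 1) v) / 2 with hc
  obtain ⟨b, hb⟩ := hqB (K + 1)
  set h : ℝ → ℝ := fun u => -q (K + 1) u + c with hh0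
  have hh : HB (|b| + |c|) h := recn_HB_shift hb
  have hint : ∫ v in (0 : ℝ)..1, h v = -c := by
    rw [hh0, recn_integral hb]
    linarith
  have hg' : ∀ k, ∃ B, HB B (Function.update g (K + 1) h k) := by
    intro k
    by_cases hk : k = K + 1
    · subst hk
      rw [Function.update_self]
      exact ⟨_, hh⟩
    · rw [Function.update_of_ne hk]
      exact hg k
  refine ⟨hg', ?_⟩
  obtain ⟨q', -, C2, s2, hs2, hE'⟩ := h2 _ hg' (K + 1) (K + 1 + 1)
  refine ⟨C2, s2, hs2, fun s hs hss u hu => ?_⟩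
  obtain ⟨C0, s0, hs0, hP'⟩ := hP
  -- the coefficients of the old expression
  have y1 : ∀ s : ℝ, ∑ k ∈ range (K + 1), s ^ k * q k u = 1 := by
    intro s
    have hF : ∀ s, 0 < s → s ≤ min s1 1 →
        |EE g K (K + 1 + 1) s u - ∑ k ∈ range (K + 1), s ^ k * q k u| ≤
          (C1 + |q (K + 1) u|) * s ^ (K + 1) := by
      intro s hs hss
      have h3 := hE s hs (hss.trans (min_le_left _ _)) u hu
      rw [Finset.sum_range_succ] at h3
      have e : EE g K (K + 1 + 1) s u - ∑ k ∈ range (K + 1), s ^ k * q k u =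
          (EE g K (K + 1 + 1) s u - (∑ k ∈ range (K + 1), s ^ k * q k u +
            s ^ (K + 1) * q (K + 1) u)) + s ^ (K + 1) * q (K + 1) u := by ring
      rw [e]
      refine (abs_add_le _ _).trans ?_
      rw [abs_mul, abs_of_pos (pow_pos hs _)]
      have hC1 : 0 ≤ C1 := by
        have h4 : 0 ≤ C1 * s ^ (K + 1 + 1) := (abs_nonneg _).trans h3
        exact nonneg_of_mul_nonneg_left h4 (pow_pos hs _)
      have h4 : s ^ (K + 1 + 1) ≤ s ^ (K + 1) :=
        pow_le_pow_of_le_one hs.le (hss.trans (min_le_right _ _)) (by omega)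
      have h5 : C1 * s ^ (K + 1 + 1) ≤ C1 * s ^ (K + 1) := mul_le_mul_of_nonneg_left h4 hC1
      linarith
    have hl : Tendsto (fun s : ℝ => (EE g K (K + 1 + 1) s u - 1) / s ^ K) (𝓝[>] 0) (𝓝 0) := by
      have t1 : Tendsto (fun s : ℝ => (EE g K (K + 1) s u - 1) / s ^ K) (𝓝[>] 0) (𝓝 0) := by
        refine recn_tendsto_of_bound hs0 (c := C0) fun s hs hss => ?_
        have hp : 0 < s ^ K := pow_pos hs _
        rw [sub_zero, abs_div, abs_of_pos hp, div_le_iff₀ hp]
        calc _ ≤ C0 * s ^ (K + 1) := hP' s hs hss u hu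
          _ = C0 * s * s ^ K := by ring
      have t2 := recn_T_tendsto h1 hg K (K + 1) hu
      have t3 : Tendsto (fun s : ℝ => (-1) ^ (K + 1) * s) (𝓝[>] 0) (𝓝 0) := by
        have hcc : Continuous fun s : ℝ => (-1) ^ (K + 1) * s := by fun_prop
        have h5 := hcc.tendsto 0
        rw [mul_zero] at h5
        exact h5.mono_left nhdsWithin_le_nhds
      have t4 := t1.add (t3.mul t2)
      rw [zero_mul, zero_add] at t4
      refine t4.congr' ?_
      filter_upwards [self_mem_nhdsWithin] with s hs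
      have hs' : s ^ K ≠ 0 := pow_ne_zero _ (ne_of_gt hs)
      have e : EE g K (K + 1 + 1) s u = EE g K (K + 1) s u + (-s) ^ (K + 1) *
          (Real.exp (GG g K s u) * T (K + 1) (fun v => Real.exp (GG g K s v)) u) := by
        unfold EE
        rw [Finset.sum_range_succ _ (K + 1)]
        ring
      rw [e, neg_pow s]
      field_simp
      ring
    have h3 := recn_ident (lt_min hs1 one_pos) hF hl s
    rw [h3]
    ring
  have y2 : Tendsto (fun s : ℝ => (EE g K (K + 1 + 1) s u - 1) / s ^ (K + 1)) (𝓝[>] 0)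
      (𝓝 (q (K + 1) u)) := by
    refine recn_tendsto_of_bound hs1 (c := C1) fun s hs hss => ?_
    have h3 := hE s hs hss u hu
    rw [Finset.sum_range_succ, y1] at h3
    have hp : 0 < s ^ (K + 1) := pow_pos hs _
    have e : (EE g K (K + 1 + 1) s u - 1) / s ^ (K + 1) - q (K + 1) u =
        (EE g K (K + 1 + 1) s u - (1 + s ^ (K + 1) * q (K + 1) u)) / s ^ (K + 1) := by
      field_simp
      ring
    rw [e, abs_div, abs_of_pos hp, div_le_iff₀ hp]
    calc _ ≤ C1 * s ^ (K + 1 + 1) := h3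
      _ = C1 * s * s ^ (K + 1) := by ring
  have y3 := recn_change h1 hg K hh (K + 1) hu
  rw [hint] at y3
  have y4 := y3.add y2
  have e0 : h u + -c + q (K + 1) u = 0 := by
    simp only [hh0]
    ring
  rw [e0] at y4
  have y5 : Tendsto (fun s : ℝ => (EE (Function.update g (K + 1) h) (K + 1) (K + 1 + 1) s u - 1) /
      s ^ (K + 1)) (𝓝[>] 0) (𝓝 0) := by
    refine y4.congr fun s => ?_
    rw [← add_div]
    congr 1
    ring
  have y6 := recn_ident hs2 (fun s hs hss => hE' s hs hss u hu) y5 s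
  have y7 := hE' s hs hss u hu
  rw [y6, mul_zero, add_zero] at y7
  exact y7

private theorem recn_first {g q : ℕ → ℝ → ℝ} (h3 : Stmt_Lam)
    (hq : Ex (0 + 1 + 1) (EE g 0 (0 + 1 + 1)) q) :
    4 * (∫ u in (0 : ℝ)..1, (-q (0 + 1) u + (∫ v in (0 : ℝ)..1, q (0 + 1) v) / 2)) =
      6 * Real.log 2 - 3 := by
  obtain ⟨hqB, C1, s1, hs1, hE⟩ := hq
  have hq1 : ∀ u ∈ Set.Icc (0 : ℝ) 1, q (0 + 1) u = -T 1 (fun _ => 1) u := by
    intro u hu
    have hEE : ∀ s : ℝ, EE g 0 (0 + 1 + 1) s u = 1 - s * T 1 (fun _ => 1) u := by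
      intro s
      unfold EE GG
      simp only [Finset.sum_range_succ, Finset.sum_range_zero]
      simp [recn_T_zero]
      ring
    have hl : Tendsto (fun s : ℝ => (EE g 0 (0 + 1 + 1) s u - 1) / s ^ (0 + 1)) (𝓝[>] 0)
        (𝓝 (-T 1 (fun _ => 1) u)) := by
      refine tendsto_const_nhds.congr' ?_
      filter_upwards [self_mem_nhdsWithin] with s hs
      have hs' : s ≠ 0 := ne_of_gt hs
      rw [hEE]
      field_simp
      ring
    have e := recn_ident hs1 (fun s hs hss => hE s hs hss u hu) hl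
    have e0 := e 0
    have e1 := e 1
    simp only [Finset.sum_range_succ, Finset.sum_range_zero] at e0 e1
    simp only [zero_add, pow_zero, one_mul, zero_mul, add_zero, pow_one] at e0 e1
    simp only [zero_add]
    linarith
  obtain ⟨b, hb⟩ := hqB (0 + 1)
  rw [recn_integral hb]
  have e : ∫ v in (0 : ℝ)..1, q (0 + 1) v = -(3 * Real.log 2 - 3 / 2) := by
    have h3' : ∫ u in (0 : ℝ)..1, T 1 (fun _ => 1) u = 3 * Real.log 2 - 3 / 2 := h3
    rw [← h3', ← intervalIntegral.integral_neg]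
    refine intervalIntegral.integral_congr fun v hv => ?_
    rw [Set.uIcc_of_le zero_le_one] at hv
    exact hq1 v hv
  rw [e]
  ring

/-- [Rec] -/
theorem main_Rec (h1 : Stmt_Tk) (h2 : Stmt_Exp) (h3 : Stmt_Lam) : Stmt_Rec := by
  classical
  let X : ℕ → Type := fun K => {g : ℕ → ℝ → ℝ // (∀ k, ∃ B, HB B (g k)) ∧ RecP g K}
  have hbase : (∀ k : ℕ, ∃ B, HB B ((fun _ _ => 0 : ℕ → ℝ → ℝ) k)) ∧
      RecP (fun _ _ => 0) 0 := by
    constructor
    · intro k
      exact ⟨0, fun u _ => by simp, fun u _ v _ => by simp⟩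
    · refine ⟨0, 1, one_pos, fun s _ _ u _ => ?_⟩
      unfold EE GG
      simp [recn_T_zero]
  have hstep : ∀ (K : ℕ) (G : X K), ∃ G' : X (K + 1), ∃ h : ℝ → ℝ,
      G'.1 = Function.update G.1 (K + 1) h ∧
      (K = 0 → 4 * (∫ u in (0 : ℝ)..1, h u) = 6 * Real.log 2 - 3) := by
    intro K G
    obtain ⟨q, hq⟩ := h2 G.1 G.2.1 K (K + 1 + 1)
    have h4 := recn_step h1 h2 G.2.1 G.2.2 hq
    refine ⟨⟨_, h4⟩, _, rfl, ?_⟩
    intro hK
    subst hK
    exact recn_first h3 hq
  choose f fh hf hf1 using hstep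
  let St : ∀ K, X K := fun K => Nat.rec (motive := X) ⟨_, hbase⟩ (fun K G => f K G) K
  have hSt : ∀ K, (St (K + 1)).1 = Function.update (St K).1 (K + 1) (fh K (St K)) := fun K =>
    hf K (St K)
  have hstab : ∀ K j, j ≤ K → (St K).1 j = (St j).1 j := by
    intro K
    induction K with
    | zero =>
      intro j hj
      have : j = 0 := by omega
      subst this
      rfl
    | succ K ih =>
      intro j hj
      rcases Nat.lt_or_ge j (K + 1) with h | h
      · rw [hSt, Function.update_of_ne (by omega), ih j (by omega)]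
      · have : j = K + 1 := by omega
        subst this
        rfl
  refine ⟨fun k => (St k).1 k, fun k => (St k).2.1 k, ?_, ?_⟩
  · have e : (St 1).1 1 = fh 0 (St 0) := by
      have e1 := hSt 0
      have e2 : (St (0 + 1)).1 (0 + 1) = fh 0 (St 0) := by
        rw [e1, Function.update_self]
      exact e2
    change 4 * (∫ u in (0 : ℝ)..1, (St 1).1 1 u) = 6 * Real.log 2 - 3
    rw [e]
    exact hf1 0 (St 0) rfl
  · intro K
    obtain ⟨C, s₀, hs₀, h⟩ := (St K).2.2
    refine ⟨C, s₀, hs₀, fun s hs hss u hu => ?_⟩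
    have e : ∀ s u, GG (fun k => (St k).1 k) K s u = GG (St K).1 K s u := by
      intro s u
      unfold GG
      refine Finset.sum_congr rfl fun k hk => ?_
      rw [hstab K k (Finset.mem_Icc.1 hk).2]
    have e2 : EE (fun k => (St k).1 k) K (K + 1) s u = EE (St K).1 K (K + 1) s u := by
      unfold EE
      rw [e]
      congr 1
      refine Finset.sum_congr rfl fun k _ => ?_
      have e3 : (fun v => Real.exp (GG (fun k => (St k).1 k) K s v)) =
          fun v => Real.exp (GG (St K).1 K s v) := by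
        ext v
        rw [e]
      rw [e3]
    rw [e2]
    exact h s hs hss u hu

end Pool.Agent.PCX
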