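import Pool.Agent.PCX.Stmts

/-!
# [Riem] Riemann sums with the logarithmic kernel
-/

set_option autoImplicit false

namespace Pool.Agent.PCX

open Finset Filter MeasureTheory

/-- powers of a linear function against an exponential -/
theorem riem_pow (n : ℕ) : ∃ C : ℝ, 0 < C ∧ ∀ t : ℝ, 0 ≤ t → (t + 2) ^ n ≤ C * Real.exp (t / 4) := by
  refine ⟨4 ^ n * n.factorial * Real.exp (1 / 2), by positivity, fun t ht => ?_⟩
  have h := Real.pow_div_factorial_le_exp ((t + 2) / 4) (by linarith) n
  have hf : (0 : ℝ) < n.factorial := by exact_mod_cast Nat.factorial_pos n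
  rw [div_le_iff₀ hf] at h
  have h4 : (t + 2) ^ n = 4 ^ n * ((t + 2) / 4) ^ n := by
    rw [← mul_pow]; congr 1; ring
  have he : Real.exp ((t + 2) / 4) = Real.exp (1 / 2) * Real.exp (t / 4) := by
    rw [← Real.exp_add]; congr 1; ring
  rw [h4]
  calc 4 ^ n * ((t + 2) / 4) ^ n ≤ 4 ^ n * (Real.exp ((t + 2) / 4) * n.factorial) := by gcongr
    _ = 4 ^ n * n.factorial * Real.exp (1 / 2) * Real.exp (t / 4) := by rw [he]; ring

theorem riem_log4 : Real.log 4 ≤ 2 := by
  have h := Real.log_two_lt_d9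
  rw [show (4 : ℝ) = 2 ^ 2 by norm_num, Real.log_pow]
  push_cast
  linarith

/-- the kernel near zero -/
theorem riem_ker {u v : ℝ} (hu : 0 ≤ u) (hu1 : u ≤ 1) (hv : 0 < v) (hv1 : v ≤ 1) :
    |Real.log (2 * (u + v))| ≤ -Real.log v + 2 := by
  rw [abs_le]
  constructor
  · have : Real.log v ≤ Real.log (2 * (u + v)) := Real.log_le_log hv (by linarith)
    linarith
  · have : Real.log (2 * (u + v)) ≤ Real.log 4 := Real.log_le_log (by positivity) (by linarith)
    have h2 := riem_log4
    have h3 : Real.log v ≤ 0 := Real.log_nonpos hv.le hv1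
    linarith

theorem riem_kerpow (k : ℕ) : ∃ C : ℝ, 0 < C ∧ ∀ u v : ℝ, 0 ≤ u → u ≤ 1 → 0 < v → v ≤ 1 →
    |Real.log (2 * (u + v)) ^ k| ≤ C * v ^ (-(1 / 4) : ℝ) := by
  obtain ⟨C, hC, h⟩ := riem_pow k
  refine ⟨C, hC, fun u v hu hu1 hv hv1 => ?_⟩
  rw [abs_pow]
  have h1 := riem_ker hu hu1 hv hv1
  have h2 := h (-Real.log v) (by have := Real.log_nonpos hv.le hv1; linarith)
  calc |Real.log (2 * (u + v))| ^ k ≤ (-Real.log v + 2) ^ k := by gcongr
    _ ≤ C * Real.exp (-Real.log v / 4) := h2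
    _ = C * v ^ (-(1 / 4) : ℝ) := by
      rw [Real.rpow_def_of_pos hv]; congr 2; ring

theorem riem_cont {B : ℝ} {f : ℝ → ℝ} (hf : HB B f) : ContinuousOn f (Set.Icc 0 1) := by
  have hB : 0 ≤ B := (abs_nonneg _).trans (hf.1 0 ⟨le_rfl, zero_le_one⟩)
  intro u hu
  rw [ContinuousWithinAt, tendsto_iff_dist_tendsto_zero]
  have h1 : Tendsto (fun v : ℝ => B * √|v - u|) (nhdsWithin u (Set.Icc 0 1)) (nhds 0) := by
    have : Continuous fun v : ℝ => B * √|v - u| := by fun_prop
    have h := this.tendsto u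
    simp only [sub_self, abs_zero, Real.sqrt_zero, mul_zero] at h
    exact h.mono_left nhdsWithin_le_nhds
  refine squeeze_zero' (Eventually.of_forall fun v => dist_nonneg) ?_ h1
  filter_upwards [self_mem_nhdsWithin] with v hv
  rw [Real.dist_eq]
  exact hf.2 v hv u hu

theorem riem_int {B : ℝ} {f : ℝ → ℝ} (hf : HB B f) (k : ℕ) {u : ℝ} (hu : 0 ≤ u) (hu1 : u ≤ 1) :
    IntervalIntegrable (fun v => Real.log (2 * (u + v)) ^ k * f v) volume 0 1 := by
  obtain ⟨C, hC, h⟩ := riem_kerpow k
  have hB : 0 ≤ B := (abs_nonneg _).trans (hf.1 0 ⟨le_rfl, zero_le_one⟩)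
  have hg : IntervalIntegrable (fun v : ℝ => C * v ^ (-(1 / 4) : ℝ) * B) volume 0 1 :=
    ((intervalIntegral.intervalIntegrable_rpow' (by norm_num)).const_mul C).mul_const B
  refine hg.mono_fun' ?_ ?_
  · have h1 : AEStronglyMeasurable (fun v => Real.log (2 * (u + v)) ^ k)
        (volume.restrict (Set.uIoc 0 1)) :=
      ((Real.measurable_log.comp ((measurable_const.add measurable_id).const_mul 2)).pow_const
        k).aestronglyMeasurable
    refine h1.mul ?_
    rw [Set.uIoc_of_le zero_le_one]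
    exact (riem_cont hf |>.mono Set.Ioc_subset_Icc_self).aestronglyMeasurable measurableSet_Ioc
  · rw [Set.uIoc_of_le zero_le_one]
    refine (ae_restrict_iff' measurableSet_Ioc).mpr (Eventually.of_forall fun v hv => ?_)
    show ‖Real.log (2 * (u + v)) ^ k * f v‖ ≤ C * v ^ (-(1 / 4) : ℝ) * B
    rw [Real.norm_eq_abs, abs_mul]
    exact mul_le_mul (h u v hu hu1 hv.1 hv.2) (hf.1 v ⟨hv.1.le, hv.2⟩) (abs_nonneg _)
      (mul_nonneg hC.le (Real.rpow_nonneg hv.1.le _))

/-- [Riem] -/
theorem main_Riem : Stmt_Riem := by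
  intro k B
  obtain ⟨Ck, hCk, hker⟩ := riem_kerpow k
  obtain ⟨C1, hC1, hpow⟩ := riem_pow (k + 1)
  refine ⟨((2 * k + 2) * C1 + 2 * Ck) * B, fun f hf m hm i him => ?_⟩
  have hB : 0 ≤ B := (abs_nonneg _).trans (hf.1 0 ⟨le_rfl, zero_le_one⟩)
  have hm0 : (0 : ℝ) < m := by exact_mod_cast (by omega : 0 < m)
  have hm1 : (1 : ℝ) ≤ m := by exact_mod_cast (by omega : 1 ≤ m)
  set L := Real.log m with hL
  have hL0 : 0 ≤ L := Real.log_nonneg hm1
  set u : ℝ := (i : ℝ) / m with hu
  have hu0 : 0 ≤ u := by positivity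
  have hu1 : u ≤ 1 := by
    rw [hu, div_le_one hm0]; exact_mod_cast him.le
  have hint := riem_int hf k hu0 hu1
  set M := L + 2 with hM
  have hM1 : 1 ≤ M := by linarith
  -- the bound of both kernels away from zero
  have ha : ∀ j : ℕ, j < m → |Real.log ((2 * ((i : ℝ) + j) + 3) / m)| ≤ M := by
    intro j hj
    have hi' : (i : ℝ) + 1 ≤ m := by exact_mod_cast him
    have hj' : (j : ℝ) + 1 ≤ m := by exact_mod_cast hj
    have hi0 : (0 : ℝ) ≤ i := Nat.cast_nonneg i
    have hj0 : (0 : ℝ) ≤ j := Nat.cast_nonneg j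
    rw [abs_le]
    constructor
    · have h1 : Real.log (1 / m) ≤ Real.log ((2 * ((i : ℝ) + j) + 3) / m) := by
        refine Real.log_le_log (by positivity) ?_
        gcongr
        linarith
      rw [one_div, Real.log_inv] at h1
      linarith
    · have h1 : Real.log ((2 * ((i : ℝ) + j) + 3) / m) ≤ Real.log 4 := by
        refine Real.log_le_log (by positivity) ?_
        rw [div_le_iff₀ hm0]
        linarith
      have := riem_log4
      linarith
  have hvb : ∀ v : ℝ, 1 / (m : ℝ) ≤ v → v ≤ 1 → |Real.log (2 * (u + v))| ≤ M := by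
    intro v hv hv1
    have hv0 : 0 < v := lt_of_lt_of_le (by positivity) hv
    refine (riem_ker hu0 hu1 hv0 hv1).trans ?_
    have h1 : Real.log (1 / m) ≤ Real.log v := Real.log_le_log (by positivity) hv
    rw [one_div, Real.log_inv] at h1
    linarith
  -- decomposition into cells
  set g : ℝ → ℝ := fun v => Real.log (2 * (u + v)) ^ k * f v with hg
  set a : ℕ → ℝ := fun j => (j : ℝ) / m with hadef
  set c : ℕ → ℝ := fun j => Real.log ((2 * ((i : ℝ) + j) + 3) / m) ^ k * f (j / m) with hc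
  have haj : ∀ j, a (j + 1) - a j = 1 / m := by
    intro j
    simp only [hadef]
    push_cast
    ring
  have hmono : ∀ j, a j ≤ a (j + 1) := fun j => by
    have := haj j
    have h1 : (0 : ℝ) < 1 / m := by positivity
    linarith
  have ha0 : ∀ j, 0 ≤ a j := fun j => by simp only [hadef]; positivity
  have ha1 : ∀ j, j ≤ m → a j ≤ 1 := fun j hj => by
    simp only [hadef]
    rw [div_le_one hm0]
    exact_mod_cast hj
  have hcell : ∀ j < m, IntervalIntegrable g volume (a j) (a (j + 1)) := by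
    intro j hj
    refine hint.mono_set ?_
    rw [Set.uIcc_of_le (hmono j), Set.uIcc_of_le zero_le_one]
    exact Set.Icc_subset_Icc (ha0 j) (ha1 (j + 1) hj)
  have hsum : ∑ j ∈ range m, ∫ v in a j..a (j + 1), g v = T k f u := by
    rw [intervalIntegral.sum_integral_adjacent_intervals hcell]
    have h1 : a 0 = 0 := by simp [hadef]
    have h2 : a m = 1 := by simp only [hadef]; exact div_self hm0.ne'
    rw [h1, h2]
    rfl
  have hD : 1 / (m : ℝ) * ∑ j ∈ range m, c j - T k f u =
      ∑ j ∈ range m, ∫ v in a j..a (j + 1), (c j - g v) := by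
    rw [← hsum, mul_sum, ← sum_sub_distrib]
    refine sum_congr rfl fun j hj => ?_
    rw [intervalIntegral.integral_sub intervalIntegrable_const (hcell j (mem_range.mp hj)),
      intervalIntegral.integral_const, haj, smul_eq_mul]
  -- the first cell
  have hs0 : (0 : ℝ) < √m := Real.sqrt_pos.mpr hm0
  have hcb : ∀ j < m, |c j| ≤ M ^ k * B := by
    intro j hj
    simp only [hc]
    rw [abs_mul, abs_pow]
    exact mul_le_mul (pow_le_pow_left₀ (abs_nonneg _) (ha j hj) k)
      (hf.1 _ ⟨ha0 j, ha1 j hj.le⟩) (abs_nonneg _) (by positivity)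
  set R : ℝ := (m : ℝ) ^ (1 / 4 : ℝ) with hR
  have hR1 : 1 ≤ R := Real.one_le_rpow hm1 (by norm_num)
  have hR0 : 0 < R := by linarith
  have hR4 : R ^ 4 = m := by
    rw [hR, ← Real.rpow_natCast, ← Real.rpow_mul hm0.le]
    norm_num
  have hRsq : √(m : ℝ) = R ^ 2 := by
    rw [← hR4, show R ^ 4 = (R ^ 2) ^ 2 by ring, Real.sqrt_sq (by positivity)]
  have hMR : M ^ (k + 1) ≤ C1 * R := by
    have h1 := hpow L hL0
    have h2 : Real.exp (L / 4) = R := by
      rw [hR, Real.rpow_def_of_pos hm0]; congr 1; ring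
    rwa [h2] at h1
  have hMk : M ^ k ≤ C1 * R := (pow_le_pow_right₀ hM1 (Nat.le_succ k)).trans hMR
  have hR3 : 1 / R ^ 3 ≤ 1 / R :=
    one_div_le_one_div_of_le hR0 (le_self_pow₀ hR1 (by norm_num))
  -- the first cell
  have h0cell : |∫ v in a 0..a (0 + 1), (c 0 - g v)| ≤ (C1 + 2 * Ck) * B / R := by
    have e0 : a 0 = 0 := by simp [hadef]
    have e1 : a (0 + 1) = 1 / m := by simp [hadef]
    rw [e0, e1, ← Real.norm_eq_abs]
    have hm' : (0 : ℝ) ≤ 1 / m := by positivity
    have hbi : IntervalIntegrable (fun v : ℝ => M ^ k * B + Ck * v ^ (-(1 / 4) : ℝ) * B) volume 0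
        (1 / m) :=
      intervalIntegrable_const.add
        (((intervalIntegral.intervalIntegrable_rpow' (by norm_num)).const_mul Ck).mul_const B)
    have h1 := intervalIntegral.norm_integral_le_of_norm_le (f := fun v => c 0 - g v) hm'
      (Eventually.of_forall fun v hv => by
        have hv1 : v ≤ 1 := hv.2.trans (by rw [div_le_one hm0]; exact hm1)
        have h2 : |c 0 - g v| ≤ |c 0| + |g v| := abs_sub _ _
        have h3 : |g v| ≤ Ck * v ^ (-(1 / 4) : ℝ) * B := by
          simp only [hg]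
          rw [abs_mul]
          exact mul_le_mul (hker u v hu0 hu1 hv.1 hv1) (hf.1 v ⟨hv.1.le, hv1⟩) (abs_nonneg _)
            (mul_nonneg hCk.le (Real.rpow_nonneg hv.1.le _))
        have h4 := hcb 0 (by omega)
        show ‖c 0 - g v‖ ≤ M ^ k * B + Ck * v ^ (-(1 / 4) : ℝ) * B
        rw [Real.norm_eq_abs]
        linarith) hbi
    refine h1.trans ?_
    have h5 : IntervalIntegrable (fun v : ℝ => v ^ (-(1 / 4) : ℝ)) volume 0 (1 / m) :=
      intervalIntegral.intervalIntegrable_rpow' (by norm_num)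
    rw [intervalIntegral.integral_add intervalIntegrable_const
      ((h5.const_mul Ck).mul_const B), intervalIntegral.integral_const,
      intervalIntegral.integral_mul_const, intervalIntegral.integral_const_mul,
      integral_rpow (Or.inl (by norm_num)), smul_eq_mul]
    have h6 : ((1 / (m : ℝ)) ^ (-(1 / 4) + 1 : ℝ) - 0 ^ (-(1 / 4) + 1 : ℝ)) / (-(1 / 4) + 1 : ℝ) =
        4 / 3 * (1 / R ^ 3) := by
      rw [Real.zero_rpow (by norm_num), Real.div_rpow zero_le_one hm0.le, Real.one_rpow]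
      have : (m : ℝ) ^ (-(1 / 4) + 1 : ℝ) = R ^ 3 := by
        rw [hR, ← Real.rpow_natCast, ← Real.rpow_mul hm0.le]
        norm_num
      rw [this]
      norm_num
      ring
    rw [h6]
    have h7 : (1 / (m : ℝ) - 0) * (M ^ k * B) ≤ C1 * B / R := by
      rw [sub_zero, ← hR4]
      calc 1 / R ^ 4 * (M ^ k * B) ≤ 1 / R ^ 4 * (C1 * R * B) := by gcongr
        _ = C1 * B * (1 / R ^ 3) := by field_simp
        _ ≤ C1 * B * (1 / R) := by gcongr
        _ = C1 * B / R := by ring
    have h8 : Ck * (4 / 3 * (1 / R ^ 3)) * B ≤ 2 * Ck * B / R := by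
      calc Ck * (4 / 3 * (1 / R ^ 3)) * B ≤ Ck * (4 / 3 * (1 / R)) * B := by gcongr
        _ ≤ Ck * (2 * (1 / R)) * B := by
          gcongr
          norm_num
        _ = 2 * Ck * B / R := by ring
    calc _ ≤ C1 * B / R + 2 * Ck * B / R := add_le_add h7 h8
      _ = (C1 + 2 * Ck) * B / R := by ring
  -- the other cells
  have hjcell : ∀ j : ℕ, j + 1 < m → |∫ v in a (j + 1)..a (j + 1 + 1), (c (j + 1) - g v)| ≤
      (3 / 2 * k * M ^ k * B * ((j : ℝ) + 1)⁻¹ + M ^ k * B / √m) * (1 / m) := by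
    intro j hj
    rw [← Real.norm_eq_abs]
    have h1 := intervalIntegral.norm_integral_le_of_norm_le_const
      (f := fun v => c (j + 1) - g v) (a := a (j + 1)) (b := a (j + 1 + 1))
      (C := 3 / 2 * k * M ^ k * B * ((j : ℝ) + 1)⁻¹ + M ^ k * B / √m) (by
        intro v hv
        rw [Set.uIoc_of_le (hmono _)] at hv
        have hj1 : (0 : ℝ) < (j : ℝ) + 1 := by positivity
        have e1 : a (j + 1) = ((j : ℝ) + 1) / m := by simp only [hadef]; push_cast; ring
        have e2 : a (j + 1 + 1) = ((j : ℝ) + 2) / m := by simp only [hadef]; push_cast; ring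
        have hv1 : v ≤ 1 := hv.2.trans (ha1 _ hj)
        have hvm : 1 / (m : ℝ) ≤ v := by
          refine le_trans ?_ hv.1.le
          rw [e1]
          gcongr
          linarith [Nat.cast_nonneg (α := ℝ) j]
        have hv0 : 0 < v := lt_of_lt_of_le (by positivity) hvm
        have hA := ha (j + 1) hj
        have hH := hvb v hvm hv1
        have hi0 : (0 : ℝ) ≤ i := Nat.cast_nonneg i
        have hf1 : |f (a (j + 1))| ≤ B := hf.1 _ ⟨ha0 _, ha1 _ hj.le⟩
        have hf2 : |f (a (j + 1)) - f v| ≤ B / √m := by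
          refine (hf.2 _ ⟨ha0 _, ha1 _ hj.le⟩ v ⟨hv0.le, hv1⟩).trans ?_
          have h3 : |a (j + 1) - v| ≤ 1 / m := by
            rw [abs_le]
            have h4 := haj (j + 1)
            constructor <;> linarith [hv.1, hv.2, hmono (j + 1)]
          have h4 : √|a (j + 1) - v| ≤ 1 / √m := by
            refine (Real.sqrt_le_sqrt h3).trans ?_
            rw [Real.sqrt_div zero_le_one, Real.sqrt_one]
          calc B * √|a (j + 1) - v| ≤ B * (1 / √m) := by gcongr
            _ = B / √m := by ring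
        -- the difference of the logarithms
        have hAH : |Real.log ((2 * ((i : ℝ) + ((j + 1 : ℕ) : ℝ)) + 3) / m) -
            Real.log (2 * (u + v))| ≤ 3 / 2 * ((j : ℝ) + 1)⁻¹ := by
          have hs : 0 < (i : ℝ) + (j + 1) := by positivity
          have hQ0 : 0 < 2 * (u + v) := by positivity
          have hQ1 : 2 * ((i : ℝ) + (j + 1)) / m ≤ 2 * (u + v) := by
            have h5 := hv.1.le
            rw [e1] at h5
            have : 2 * ((i : ℝ) + (j + 1)) / m = 2 * (u + ((j : ℝ) + 1) / m) := by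
              rw [hu]; ring
            rw [this]
            linarith
          have hQ2 : 2 * (u + v) ≤ (2 * ((i : ℝ) + (j + 1)) + 3) / m := by
            have h5 := hv.2
            rw [e2] at h5
            have h6 : 2 * (u + v) ≤ 2 * (u + ((j : ℝ) + 2) / m) := by linarith
            refine h6.trans ?_
            rw [hu, show 2 * ((i : ℝ) / m + ((j : ℝ) + 2) / m) = (2 * (i + (j + 1)) + 2) / m by ring]
            gcongr
            norm_num
          have hP0 : 0 < (2 * ((i : ℝ) + (j + 1)) + 3) / m := by positivity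
          push_cast
          rw [← Real.log_div hP0.ne' hQ0.ne', abs_of_nonneg
            (Real.log_nonneg (by rw [le_div_iff₀ hQ0, one_mul]; exact hQ2))]
          refine (Real.log_le_sub_one_of_pos (by positivity)).trans ?_
          have h7 : (2 * ((i : ℝ) + (j + 1)) + 3) / m / (2 * (u + v)) ≤
              (2 * ((i : ℝ) + (j + 1)) + 3) / m / (2 * ((i : ℝ) + (j + 1)) / m) := by
            gcongr
          have h8 : (2 * ((i : ℝ) + (j + 1)) + 3) / m / (2 * ((i : ℝ) + (j + 1)) / m) =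
              1 + 3 / 2 * ((i : ℝ) + (j + 1))⁻¹ := by
            field_simp
          have h9 : ((i : ℝ) + (j + 1))⁻¹ ≤ ((j : ℝ) + 1)⁻¹ := inv_anti₀ hj1 (by linarith)
          linarith
        have hpw : |Real.log ((2 * ((i : ℝ) + ((j + 1 : ℕ) : ℝ)) + 3) / m) ^ k -
            Real.log (2 * (u + v)) ^ k| ≤ 3 / 2 * ((j : ℝ) + 1)⁻¹ * k * M ^ k := by
          refine (abs_pow_sub_pow_le _ _ _).trans ?_
          have h10 : max |Real.log ((2 * ((i : ℝ) + ((j + 1 : ℕ) : ℝ)) + 3) / m)|
              |Real.log (2 * (u + v))| ^ (k - 1) ≤ M ^ k :=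
            (pow_le_pow_left₀ (le_max_of_le_left (abs_nonneg _)) (max_le hA hH) _).trans
              (pow_le_pow_right₀ hM1 (Nat.sub_le _ _))
          gcongr
        have hsplit : c (j + 1) - g v =
            (Real.log ((2 * ((i : ℝ) + ((j + 1 : ℕ) : ℝ)) + 3) / m) ^ k -
              Real.log (2 * (u + v)) ^ k) * f (a (j + 1)) +
            Real.log (2 * (u + v)) ^ k * (f (a (j + 1)) - f v) := by
          simp only [hc, hg, hadef]
          ring
        rw [Real.norm_eq_abs, hsplit]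
        refine (abs_add_le _ _).trans ?_
        rw [abs_mul, abs_mul, abs_pow (Real.log (2 * (u + v)))]
        have h11 := mul_le_mul hpw hf1 (abs_nonneg _) (by positivity)
        have h12 := mul_le_mul (pow_le_pow_left₀ (abs_nonneg _) hH k) hf2 (abs_nonneg _)
          (by positivity)
        calc _ ≤ 3 / 2 * ((j : ℝ) + 1)⁻¹ * k * M ^ k * B + M ^ k * (B / √m) := add_le_add h11 h12
          _ = _ := by ring)
    rw [haj, abs_of_pos (by positivity)] at h1
    exact h1
  obtain ⟨n, hn⟩ : ∃ n, m = n + 1 := ⟨m - 1, by omega⟩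
  have hn1 : 1 ≤ n := by omega
  have hsumb : |∑ j ∈ range n, ∫ v in a (j + 1)..a (j + 1 + 1), (c (j + 1) - g v)| ≤
      (2 * k + 1) * C1 * B / R := by
    refine (abs_sum_le_sum_abs _ _).trans ?_
    refine (sum_le_sum fun j hj => hjcell j (by have := mem_range.mp hj; omega)).trans ?_
    rw [← sum_mul, sum_add_distrib, ← mul_sum, sum_const, card_range, nsmul_eq_mul]
    have hh : ∑ j ∈ range n, ((j : ℝ) + 1)⁻¹ ≤ M := by
      have h1 := harmonic_le_one_add_log n
      have h2 : ((harmonic n : ℚ) : ℝ) = ∑ j ∈ range n, ((j : ℝ) + 1)⁻¹ := by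
        simp [harmonic]
      rw [← h2]
      have h3 : Real.log n ≤ L := by
        refine Real.log_le_log (by exact_mod_cast hn1) ?_
        rw [hn]; push_cast; linarith
      linarith
    have hnm : (n : ℝ) ≤ m := by rw [hn]; push_cast; linarith
    have h1 : 3 / 2 * k * M ^ k * B * ∑ j ∈ range n, ((j : ℝ) + 1)⁻¹ ≤
        3 / 2 * k * (C1 * R) * B := by
      calc 3 / 2 * k * M ^ k * B * ∑ j ∈ range n, ((j : ℝ) + 1)⁻¹ ≤
            3 / 2 * k * M ^ k * B * M := by gcongr
        _ = 3 / 2 * k * M ^ (k + 1) * B := by ring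
        _ ≤ 3 / 2 * k * (C1 * R) * B := by gcongr
    have h2 : (n : ℝ) * (M ^ k * B / √m) ≤ m * (C1 * R * B / √m) := by gcongr
    have h3 : 1 / (m : ℝ) = 1 / R ^ 4 := by rw [hR4]
    calc _ ≤ (3 / 2 * k * (C1 * R) * B + m * (C1 * R * B / √m)) * (1 / m) := by gcongr
      _ = 3 / 2 * k * C1 * B * (1 / R ^ 3) + C1 * B / R := by
        rw [hRsq, ← hR4]
        field_simp
      _ ≤ 3 / 2 * k * C1 * B * (1 / R) + C1 * B / R := by gcongr
      _ ≤ 2 * k * C1 * B * (1 / R) + C1 * B / R := by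
        have : (0 : ℝ) ≤ k * C1 * B * (1 / R) := by positivity
        linarith
      _ = (2 * k + 1) * C1 * B / R := by ring
  rw [hD, hn, sum_range_succ']
  refine (abs_add_le _ _).trans ?_
  calc _ ≤ (2 * k + 1) * C1 * B / R + (C1 + 2 * Ck) * B / R := add_le_add hsumb h0cell
    _ = ((2 * k + 2) * C1 + 2 * Ck) * B / R := by ring

end Pool.Agent.PCX
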