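import Pool.Agent.PCX.Stmts

set_option autoImplicit false

/-!
# PCX / Row: from the smooth model to the primes
-/

namespace Pool.Agent.PCX

open Finset Filter Pool.Agent.PC Pool.Agent.PrimeCircle

/-- difference between the indicator of the primes and its smooth model -/
noncomputable def rowE (l : ℕ) : ℝ :=
  (if (2 * l + 3).Prime then (1 : ℝ) else 0) - 2 / Real.log (2 * l + 3)

theorem row_sum_eq (n : ℕ) : (pc n : ℝ) - li n = ∑ l ∈ range n, rowE l := by
  unfold pc li rowE
  rw [sum_sub_distrib, Finset.card_filter]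
  push_cast
  rfl

theorem row_log_ge (l : ℕ) : 1 ≤ Real.log (2 * (l : ℝ) + 3) := by
  have h0 : (0 : ℝ) ≤ l := by positivity
  rw [Real.le_log_iff_exp_le (by positivity)]
  have h1 := Real.exp_one_lt_d9
  linarith

theorem row_abs_le (l : ℕ) : |rowE l| ≤ 3 := by
  unfold rowE
  have h1 := row_log_ge l
  have h2 : 2 / Real.log (2 * (l : ℝ) + 3) ≤ 2 := div_le_self (by norm_num) h1
  have h3 : 0 ≤ 2 / Real.log (2 * (l : ℝ) + 3) := by positivity
  split_ifs <;> rw [abs_le] <;> constructor <;> linarith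

theorem row_trivial (n : ℕ) : |(pc n : ℝ) - li n| ≤ 3 * n := by
  rw [row_sum_eq]
  refine (abs_sum_le_sum_abs _ _).trans ?_
  refine (sum_le_sum fun l _ => row_abs_le l).trans ?_
  rw [sum_const, card_range, nsmul_eq_mul, mul_comm]

theorem row_log_small (n : ℕ) {r : ℝ} (hr : 0 < r) {c : ℝ} (hc : 0 < c) : ∀ᶠ m : ℕ in atTop,
    Real.log m ^ n ≤ c * (m : ℝ) ^ r := by
  have h := isLittleO_log_rpow_rpow_atTop (n : ℝ) hr
  have h1 := tendsto_natCast_atTop_atTop.eventually (h.bound hc)
  filter_upwards [h1, eventually_ge_atTop 3] with m hm hm3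
  have hm0 : (0 : ℝ) < m := by exact_mod_cast (by omega : 0 < m)
  have hL : 0 < Real.log m := Real.log_pos (by exact_mod_cast (by omega : 1 < m))
  rw [Real.norm_eq_abs, Real.norm_eq_abs, Real.rpow_natCast,
    abs_of_pos (by positivity), abs_of_pos (by positivity)] at hm
  exact hm

theorem row_log_large (A : ℝ) : ∀ᶠ m : ℕ in atTop, A ≤ Real.log m :=
  (Real.tendsto_log_atTop.comp tendsto_natCast_atTop_atTop).eventually_ge_atTop A

theorem row_E (h : Stmt_Pnt) (A : ℕ) : ∃ C : ℝ, 0 ≤ C ∧ ∀ᶠ m : ℕ in atTop, ∀ n ≤ 2 * m,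
    |(pc n : ℝ) - li n| ≤ C * m / Real.log m ^ A := by
  obtain ⟨C, hC⟩ := h A
  refine ⟨|C| * 2 ^ (A + 1) + 3, by positivity, ?_⟩
  filter_upwards [row_log_small A (by norm_num : (0 : ℝ) < 1 / 2) one_pos,
    eventually_ge_atTop 4] with m hm1 hm4
  intro n hn
  have hm0 : (0 : ℝ) < m := by exact_mod_cast (by omega : 0 < m)
  have hL : 0 < Real.log m := Real.log_pos (by exact_mod_cast (by omega : 1 < m))
  rw [one_mul, ← Real.sqrt_eq_rpow] at hm1
  have hsq : √(m : ℝ) * √(m : ℝ) = m := Real.mul_self_sqrt hm0.le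
  have hs0 : 0 < √(m : ℝ) := Real.sqrt_pos.mpr hm0
  rw [le_div_iff₀ (by positivity)]
  rcases lt_or_ge (n : ℝ) (√(m : ℝ)) with h1 | h1
  · have h2 := row_trivial n
    calc |(pc n : ℝ) - li n| * Real.log m ^ A ≤ (3 * √(m : ℝ)) * √(m : ℝ) := by
          apply mul_le_mul (by linarith) hm1 (by positivity) (by positivity)
      _ = 3 * m := by rw [mul_assoc, hsq]
      _ ≤ _ := by
        apply mul_le_mul_of_nonneg_right _ hm0.le
        have : 0 ≤ |C| * 2 ^ (A + 1) := by positivity
        linarith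
  · have hs2 : 2 ≤ √(m : ℝ) := by
      apply Real.le_sqrt_of_sq_le
      have : (4 : ℝ) ≤ m := by exact_mod_cast hm4
      linarith
    have hn2 : 2 ≤ n := by
      have : (2 : ℝ) ≤ n := hs2.trans h1
      exact_mod_cast this
    have hn0 : (0 : ℝ) < n := by exact_mod_cast (by omega : 0 < n)
    have hln : Real.log m / 2 ≤ Real.log n := by
      rw [← Real.log_sqrt hm0.le]
      exact Real.log_le_log hs0 h1
    have hln0 : 0 < Real.log n := by linarith
    have h2 := hC n hn2
    have hn' : (n : ℝ) ≤ 2 * m := by exact_mod_cast hn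
    have h3 : Real.log m ^ A ≤ 2 ^ A * Real.log n ^ A := by
      rw [← mul_pow]
      exact pow_le_pow_left₀ hL.le (by linarith) A
    have h4 : |(pc n : ℝ) - li n| ≤ |C| * n / Real.log n ^ A := by
      refine h2.trans ?_
      apply div_le_div_of_nonneg_right _ (by positivity)
      exact mul_le_mul_of_nonneg_right (le_abs_self _) hn0.le
    calc |(pc n : ℝ) - li n| * Real.log m ^ A ≤
          (|C| * n / Real.log n ^ A) * (2 ^ A * Real.log n ^ A) := by
          apply mul_le_mul h4 h3 (by positivity) (by positivity)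
      _ = |C| * 2 ^ A * n := by
          field_simp
      _ ≤ |C| * 2 ^ A * (2 * m) := mul_le_mul_of_nonneg_left hn' (by positivity)
      _ = |C| * 2 ^ (A + 1) * m := by rw [pow_succ]; ring
      _ ≤ _ := by
        apply mul_le_mul_of_nonneg_right _ hm0.le
        linarith

/-- sums over blocks -/
theorem row_blocks (f y : ℕ → ℝ) (m b : ℕ) (hb : 0 < b) (M Y : ℝ) (hM0 : 0 ≤ M) (hY0 : 0 ≤ Y)
    (hM : ∀ p q, p ≤ q → q ≤ m → |∑ j ∈ Ico p q, f j| ≤ M)
    (hY : ∀ t, t * b < m → |y t| ≤ Y) :
    |∑ j ∈ range m, f j * y (j / b)| ≤ (((m / b : ℕ) : ℝ) + 1) * (M * Y) := by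
  have h1 : ∑ j ∈ range m, f j * y (j / b) = ∑ t ∈ range (m / b + 1),
      ∑ j ∈ (range m).filter (fun j => j / b = t), f j * y (j / b) := by
    rw [sum_fiberwise_of_maps_to]
    intro j hj
    rw [mem_range] at hj ⊢
    exact Nat.lt_succ_of_le (Nat.div_le_div_right hj.le)
  rw [h1]
  have h2 : ∀ t ∈ range (m / b + 1), |∑ j ∈ (range m).filter (fun j => j / b = t),
      f j * y (j / b)| ≤ M * Y := by
    intro t _
    have h3 : ∑ j ∈ (range m).filter (fun j => j / b = t), f j * y (j / b) =
        (∑ j ∈ (range m).filter (fun j => j / b = t), f j) * y t := by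
      rw [sum_mul]
      refine sum_congr rfl fun j hj => ?_
      rw [(mem_filter.mp hj).2]
    rw [h3, abs_mul]
    by_cases ht : t * b < m
    · have h4 : (range m).filter (fun j => j / b = t) = Ico (t * b) (min ((t + 1) * b) m) := by
        ext j
        rw [mem_filter, mem_range, mem_Ico, lt_min_iff]
        constructor
        · rintro ⟨h5, h6⟩
          refine ⟨?_, ?_, h5⟩
          · rw [← h6]; exact Nat.div_mul_le_self j b
          · rw [← h6, Nat.add_mul, one_mul]
            exact Nat.lt_div_mul_add hb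
        · rintro ⟨h5, h6, h7⟩
          refine ⟨h7, ?_⟩
          apply Nat.le_antisymm
          · exact Nat.lt_succ_iff.mp ((Nat.div_lt_iff_lt_mul hb).mpr h6)
          · exact (Nat.le_div_iff_mul_le hb).mpr h5
      rw [h4]
      have h5 := hM (t * b) (min ((t + 1) * b) m) (le_min (Nat.mul_le_mul_right b (by omega))
        ht.le) (min_le_right _ _)
      exact mul_le_mul h5 (hY t ht) (abs_nonneg _) hM0
    · have h4 : (range m).filter (fun j => j / b = t) = ∅ := by
        rw [filter_eq_empty_iff]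
        intro j hj h5
        rw [mem_range] at hj
        apply ht
        rw [← h5]
        exact lt_of_le_of_lt (Nat.div_mul_le_self j b) hj
      rw [h4]
      simp only [sum_empty, abs_zero, zero_mul]
      positivity
  refine (abs_sum_le_sum_abs _ _).trans ((sum_le_sum h2).trans ?_)
  rw [sum_const, card_range, nsmul_eq_mul]
  push_cast
  exact le_rfl

theorem row_Ico (i p q : ℕ) (hpq : p ≤ q) : ∑ j ∈ Ico p q, rowE (i + j) =
    ((pc (i + q) : ℝ) - li (i + q)) - ((pc (i + p) : ℝ) - li (i + p)) := by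
  rw [row_sum_eq, row_sum_eq, ← sum_Ico_eq_sub _ (Nat.add_le_add_left hpq i),
    sum_Ico_add rowE p q i, add_comm p i, add_comm q i]

theorem row_diff (m : ℕ) (x : ℕ → ℝ) (i : ℕ) :
    wdeg m x i - sdeg m x i = x i * ∑ j ∈ range m, rowE (i + j) * x j := by
  classical
  unfold wdeg sdeg rowE
  rw [← sum_sub_distrib, mul_sum]
  refine sum_congr rfl fun j _ => ?_
  have e : PA i j ↔ (2 * (i + j) + 3).Prime := Iff.rfl
  by_cases hp : (2 * (i + j) + 3).Prime
  · rw [if_pos (e.mpr hp), if_pos hp]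
    push_cast
    ring
  · rw [if_neg (fun h => hp (e.mp h)), if_neg hp]
    push_cast
    ring

theorem main_Row (h : Stmt_Pnt) : Stmt_Row := by
  intro K C hC
  obtain ⟨CE, hCE0, hCE⟩ := row_E h (3 * K + 10)
  refine ⟨C * (2 * ((2 * CE) * C)) + C * (6 * C), ?_⟩
  set n := 2 * K + 8 with hn
  filter_upwards [hCE, row_log_small n one_pos one_pos, row_log_large 1,
    eventually_ge_atTop 3] with m hE hm1 hm2 hm3
  intro x hx i hi
  have hm0 : (0 : ℝ) < m := by exact_mod_cast (by omega : 0 < m)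
  set L := Real.log m with hL
  have hL0 : 0 < L := by linarith
  have hLn : 0 < L ^ n := by positivity
  rw [Real.rpow_one, one_mul] at hm1
  set ρ := √(L / m) with hρ
  have hρ0 : 0 < ρ := Real.sqrt_pos.mpr (by positivity)
  have hρ2 : ρ * ρ = L / m := Real.mul_self_sqrt (by positivity)
  -- block length
  set b := ⌈(m : ℝ) / L ^ n⌉₊ with hb
  have hb0 : 0 < b := Nat.ceil_pos.mpr (by positivity)
  have hb1 : (m : ℝ) / L ^ n ≤ b := Nat.le_ceil _
  have hb2 : (b : ℝ) ≤ 2 * (m / L ^ n) := by
    have h1 := Nat.ceil_lt_add_one (a := (m : ℝ) / L ^ n) (by positivity)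
    have h2 : 1 ≤ (m : ℝ) / L ^ n := by
      rw [le_div_iff₀ hLn]
      linarith
    linarith
  have hb0' : (0 : ℝ) < b := by exact_mod_cast hb0
  have hmb : ((m / b : ℕ) : ℝ) + 1 ≤ 2 * L ^ n := by
    have h1 : ((m / b : ℕ) : ℝ) ≤ (m : ℝ) / b := Nat.cast_div_le
    have h2 : (m : ℝ) / b ≤ L ^ n := by
      rw [div_le_iff₀ hb0']
      rw [div_le_iff₀ hLn] at hb1
      linarith
    have h3 : 1 ≤ L ^ n := one_le_pow₀ hm2
    linarith
  rw [row_diff]
  have hxi := hx.1
  have hxd := hx.2
  have hxa : ∀ j < m, |x j| ≤ C * ρ := by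
    intro j hj
    have h1 := hxi j hj
    rw [abs_le]
    have h2 : 0 ≤ C⁻¹ * ρ := by positivity
    constructor
    · have : 0 ≤ C * ρ := by positivity
      linarith [h1.1]
    · exact h1.2
  have hsplit : ∑ j ∈ range m, rowE (i + j) * x j =
      ∑ j ∈ range m, rowE (i + j) * (fun t => x (t * b)) (j / b) +
      ∑ j ∈ range m, rowE (i + j) * (x j - x (j / b * b)) := by
    rw [← sum_add_distrib]
    refine sum_congr rfl fun j _ => ?_
    ring
  rw [hsplit, mul_add]
  -- first part
  have h1 : |∑ j ∈ range m, rowE (i + j) * (fun t => x (t * b)) (j / b)| ≤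
      (((m / b : ℕ) : ℝ) + 1) * ((2 * (CE * m / L ^ (3 * K + 10))) * (C * ρ)) := by
    apply row_blocks (fun j => rowE (i + j)) (fun t => x (t * b)) m b hb0
    · positivity
    · positivity
    · intro p q hpq hq
      rw [row_Ico i p q hpq]
      have e1 := hE (i + q) (by omega)
      have e2 := hE (i + p) (by omega)
      refine (abs_sub _ _).trans ?_
      linarith
    · intro t ht
      exact hxa _ ht
  have h2 : |∑ j ∈ range m, rowE (i + j) * (x j - x (j / b * b))| ≤
      m * (3 * (C * ρ * √(2 / L ^ n))) := by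
    refine (abs_sum_le_sum_abs _ _).trans ?_
    have : ∀ j ∈ range m, |rowE (i + j) * (x j - x (j / b * b))| ≤
        3 * (C * ρ * √(2 / L ^ n)) := by
      intro j hj
      rw [mem_range] at hj
      have hjb : j / b * b ≤ j := Nat.div_mul_le_self j b
      have hjb2 : j < j / b * b + b := Nat.lt_div_mul_add hb0
      rw [abs_mul]
      apply mul_le_mul (row_abs_le _) _ (abs_nonneg _) (by norm_num)
      refine (hxd j hj (j / b * b) (lt_of_le_of_lt hjb hj)).trans ?_
      apply mul_le_mul_of_nonneg_left _ (by positivity)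
      apply Real.sqrt_le_sqrt
      rw [div_le_iff₀ hm0]
      have e1 : |(j : ℝ) - ((j / b * b : ℕ) : ℝ)| ≤ b := by
        have e2 : ((j / b * b : ℕ) : ℝ) ≤ j := by exact_mod_cast hjb
        have e3 : (j : ℝ) < ((j / b * b : ℕ) : ℝ) + b := by exact_mod_cast hjb2
        rw [abs_le]
        constructor <;> linarith
      refine e1.trans (hb2.trans (le_of_eq ?_))
      ring
    refine (sum_le_sum this).trans ?_
    rw [sum_const, card_range, nsmul_eq_mul]
  have hxi' := hxa i hi
  refine (abs_add_le _ _).trans ?_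
  rw [add_div]
  apply add_le_add
  · rw [abs_mul]
    have e1 : (((m / b : ℕ) : ℝ) + 1) * ((2 * (CE * m / L ^ (3 * K + 10))) * (C * ρ)) ≤
        (2 * L ^ n) * ((2 * (CE * m / L ^ (3 * K + 10))) * (C * ρ)) :=
      mul_le_mul_of_nonneg_right hmb (by positivity)
    refine (mul_le_mul hxi' (h1.trans e1) (abs_nonneg _) (by positivity)).trans (le_of_eq ?_)
    have e2 : C * ρ * (2 * L ^ n * (2 * (CE * m / L ^ (3 * K + 10)) * (C * ρ))) =
        (ρ * ρ) * (C * (2 * L ^ n * (2 * (CE * m / L ^ (3 * K + 10)) * C))) := by ring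
    have e3 : L ^ (3 * K + 10) = L ^ (K + 1) * (L ^ n * L) := by
      rw [← pow_succ, ← pow_add]
      congr 1
      omega
    rw [e2, hρ2, e3]
    field_simp
  · rw [abs_mul]
    refine (mul_le_mul hxi' h2 (abs_nonneg _) (by positivity)).trans ?_
    have e2 : C * ρ * (m * (3 * (C * ρ * √(2 / L ^ n)))) =
        (ρ * ρ) * m * (3 * C * C) * √(2 / L ^ n) := by ring
    have e3 : √(2 / L ^ n) ≤ 2 / L ^ (K + 4) := by
      rw [Real.sqrt_le_left (by positivity), div_pow, ← pow_mul,
        show (K + 4) * 2 = n by omega]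
      apply div_le_div_of_nonneg_right _ hLn.le
      norm_num
    rw [e2, hρ2, div_mul_cancel₀ _ hm0.ne']
    calc L * (3 * C * C) * √(2 / L ^ n) ≤ L * (3 * C * C) * (2 / L ^ (K + 4)) :=
          mul_le_mul_of_nonneg_left e3 (by positivity)
      _ = (C * (6 * C)) / L ^ (K + 3) := by
          rw [show K + 4 = (K + 3) + 1 by omega, pow_succ L (K + 3)]
          field_simp
          ring
      _ ≤ (C * (6 * C)) / L ^ (K + 1) := by
          apply div_le_div_of_nonneg_left (by positivity) (by positivity)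
          exact pow_le_pow_right₀ hm2 (by omega)

end Pool.Agent.PCX
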