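import Pool.Agent.PCX.Stmts

set_option autoImplicit false

/-!
# PCX / Smooth: weights for the smooth model
-/

namespace Pool.Agent.PCX

open Finset Filter Pool.Agent.PC Pool.Agent.PrimeCircle

theorem smooth_HB_nonneg {B : ℝ} {f : ℝ → ℝ} (h : HB B f) : 0 ≤ B :=
  (abs_nonneg _).trans (h.1 0 (by simp))

theorem smooth_GG_HB {g : ℕ → ℝ → ℝ} {B : ℕ → ℝ} (hB : ∀ k, HB (B k) (g k)) (K : ℕ) {s : ℝ}
    (hs : 0 ≤ s) (hs1 : s ≤ 1) : HB (∑ k ∈ Icc 1 K, B k) (GG g K s) := by
  constructor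
  · intro u hu
    unfold GG
    refine (abs_sum_le_sum_abs _ _).trans (sum_le_sum fun k _ => ?_)
    rw [abs_mul, abs_of_nonneg (pow_nonneg hs k)]
    have h1 : s ^ k ≤ 1 := pow_le_one₀ hs hs1
    have h2 := (hB k).1 u hu
    have h3 := abs_nonneg (g k u)
    nlinarith
  · intro u hu v hv
    unfold GG
    rw [← sum_sub_distrib, sum_mul]
    refine (abs_sum_le_sum_abs _ _).trans (sum_le_sum fun k _ => ?_)
    rw [← mul_sub, abs_mul, abs_of_nonneg (pow_nonneg hs k)]
    have h1 : s ^ k ≤ 1 := pow_le_one₀ hs hs1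
    have h2 := (hB k).2 u hu v hv
    have h3 := abs_nonneg (g k u - g k v)
    nlinarith

theorem smooth_exp_lip {M a b : ℝ} (ha : a ≤ M) (hb : b ≤ M) :
    |Real.exp a - Real.exp b| ≤ Real.exp M * |a - b| := by
  have key : ∀ a b : ℝ, a ≤ M → Real.exp a - Real.exp b ≤ Real.exp M * |a - b| := by
    intro a b ha
    have h1 : Real.exp a * (1 + (b - a)) ≤ Real.exp b := by
      have h2 := Real.add_one_le_exp (b - a)
      have h3 : Real.exp b = Real.exp a * Real.exp (b - a) := by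
        rw [← Real.exp_add]; ring_nf
      rw [h3]
      exact mul_le_mul_of_nonneg_left (by linarith) (Real.exp_pos a).le
    have h4 : Real.exp a * (a - b) ≤ Real.exp M * |a - b| :=
      (mul_le_mul_of_nonneg_left (le_abs_self _) (Real.exp_pos a).le).trans
        (mul_le_mul_of_nonneg_right (Real.exp_le_exp.mpr ha) (abs_nonneg _))
    linarith
  rw [abs_le]
  constructor
  · have := key b a hb
    rw [abs_sub_comm] at this
    linarith
  · exact key a b ha

theorem smooth_exp_HB {M : ℝ} {f : ℝ → ℝ} (hf : HB M f) :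
    HB (Real.exp M * (1 + M)) (fun v => Real.exp (f v)) := by
  have hM := smooth_HB_nonneg hf
  constructor
  · intro u hu
    rw [abs_of_pos (Real.exp_pos _)]
    have h1 : Real.exp (f u) ≤ Real.exp M := Real.exp_le_exp.mpr ((le_abs_self _).trans (hf.1 u hu))
    have h2 := (Real.exp_pos M).le
    nlinarith
  · intro u hu v hv
    have h1 := smooth_exp_lip ((le_abs_self _).trans (hf.1 u hu)) ((le_abs_self _).trans (hf.1 v hv))
    refine h1.trans ?_
    rw [mul_assoc]
    apply mul_le_mul_of_nonneg_left _ (Real.exp_pos M).le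
    have h2 := hf.2 u hu v hv
    have h3 := Real.sqrt_nonneg |u - v|
    nlinarith

/-- geometric expansion with exact remainder -/
theorem smooth_geom {z : ℝ} (hz : 0 < 1 + z) (K : ℕ) :
    1 / (1 + z) = ∑ k ∈ range (K + 1), (-z) ^ k + (-z) ^ (K + 1) * (1 / (1 + z)) := by
  have h := geom_sum_mul (-z) (K + 1)
  have h2 : (∑ i ∈ range (K + 1), (-z) ^ i) * (1 + z) = 1 - (-z) ^ (K + 1) := by
    linear_combination -h
  field_simp
  linarith

/-- the smooth degree compared with `EE` -/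
theorem smooth_sdeg (h2 : Stmt_Abs) (h3 : Stmt_Riem) (K : ℕ) (M : ℝ) : ∃ C : ℝ, 0 ≤ C ∧
    ∀ (G : ℝ → ℝ), HB M G → ∀ m : ℕ, 3 ≤ m → ∀ i < m,
    |1 / (m : ℝ) * ∑ j ∈ range m, Real.exp (G (j / m)) *
      (Real.log m / Real.log (2 * ((i : ℝ) + j) + 3)) -
      ∑ k ∈ range (K + 1), (-(1 / Real.log m)) ^ k * T k (fun v => Real.exp (G v)) (i / m)| ≤
      C * (1 / (m : ℝ) ^ (1 / 4 : ℝ) + (1 / Real.log m) ^ (K + 1)) := by
  choose C2 hC2 using h2
  choose C3 hC3 using h3
  set B1 := Real.exp M * (1 + M) with hB1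
  refine ⟨∑ k ∈ range (K + 1), |C3 k B1| + |B1| * |C2 (K + 1)|, by positivity, ?_⟩
  intro G hG m hm i hi
  have hM := smooth_HB_nonneg hG
  have hfB := smooth_exp_HB hG
  have hm0 : (0 : ℝ) < m := by exact_mod_cast (by omega : 0 < m)
  have hL : 0 < Real.log m := Real.log_pos (by exact_mod_cast (by omega : 1 < m))
  have hΛ : ∀ j : ℕ, 0 < Real.log (2 * ((i : ℝ) + j) + 3) := by
    intro j
    apply Real.log_pos
    have : (0 : ℝ) ≤ (i : ℝ) + j := by positivity
    linarith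
  have hℓ : ∀ j : ℕ, Real.log ((2 * ((i : ℝ) + j) + 3) / m) =
      Real.log (2 * ((i : ℝ) + j) + 3) - Real.log m := by
    intro j
    rw [Real.log_div (by positivity) hm0.ne']
  set s := 1 / Real.log m with hs
  have hs0 : 0 < s := by positivity
  -- the exact expansion
  have hexp : ∀ j : ℕ, Real.log m / Real.log (2 * ((i : ℝ) + j) + 3) =
      ∑ k ∈ range (K + 1), (-s) ^ k * Real.log ((2 * ((i : ℝ) + j) + 3) / m) ^ k +
        (-s) ^ (K + 1) * (Real.log ((2 * ((i : ℝ) + j) + 3) / m) ^ (K + 1) *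
          (Real.log m / Real.log (2 * ((i : ℝ) + j) + 3))) := by
    intro j
    have h1 : 1 + s * Real.log ((2 * ((i : ℝ) + j) + 3) / m) =
        Real.log (2 * ((i : ℝ) + j) + 3) / Real.log m := by
      rw [hℓ, hs]
      field_simp
      ring
    have h2 : 0 < 1 + s * Real.log ((2 * ((i : ℝ) + j) + 3) / m) := by
      rw [h1]
      exact div_pos (hΛ j) hL
    have h3 := smooth_geom h2 K
    rw [h1, one_div_div] at h3
    rw [h3]
    congr 1
    · refine sum_congr rfl fun k _ => ?_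
      rw [← mul_pow]
      ring_nf
    · rw [← h3, ← mul_assoc, ← mul_pow]
      ring_nf
  have hs1 : s ≤ 1 := by
    rw [hs, div_le_one hL, Real.le_log_iff_exp_le hm0]
    have h1 := Real.exp_one_lt_d9
    have h2 : (3 : ℝ) ≤ m := by exact_mod_cast hm
    linarith
  have hdec : 1 / (m : ℝ) * ∑ j ∈ range m, Real.exp (G (j / m)) *
      (Real.log m / Real.log (2 * ((i : ℝ) + j) + 3)) -
      ∑ k ∈ range (K + 1), (-s) ^ k * T k (fun v => Real.exp (G v)) (i / m) =
      ∑ k ∈ range (K + 1), (-s) ^ k * (1 / (m : ℝ) * ∑ j ∈ range m,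
        Real.log ((2 * ((i : ℝ) + j) + 3) / m) ^ k * Real.exp (G (j / m)) -
          T k (fun v => Real.exp (G v)) (i / m)) +
      (-s) ^ (K + 1) * (1 / (m : ℝ) * ∑ j ∈ range m, Real.exp (G (j / m)) *
        (Real.log ((2 * ((i : ℝ) + j) + 3) / m) ^ (K + 1) *
          (Real.log m / Real.log (2 * ((i : ℝ) + j) + 3)))) := by
    have e1 : ∑ j ∈ range m, Real.exp (G (j / m)) *
        (Real.log m / Real.log (2 * ((i : ℝ) + j) + 3)) =
        ∑ k ∈ range (K + 1), (-s) ^ k * (∑ j ∈ range m,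
          Real.log ((2 * ((i : ℝ) + j) + 3) / m) ^ k * Real.exp (G (j / m))) +
        (-s) ^ (K + 1) * (∑ j ∈ range m, Real.exp (G (j / m)) *
          (Real.log ((2 * ((i : ℝ) + j) + 3) / m) ^ (K + 1) *
            (Real.log m / Real.log (2 * ((i : ℝ) + j) + 3)))) := by
      simp_rw [mul_sum]
      rw [sum_comm, ← sum_add_distrib]
      refine sum_congr rfl fun j _ => ?_
      conv_lhs => rw [hexp j]
      rw [mul_add, mul_sum]
      congr 1
      · refine sum_congr rfl fun k _ => ?_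
        ring
      · ring
    rw [e1]
    simp_rw [mul_sub]
    rw [sum_sub_distrib, mul_add, mul_sum]
    have e2 : ∑ k ∈ range (K + 1), 1 / (m : ℝ) * ((-s) ^ k * ∑ j ∈ range m,
        Real.log ((2 * ((i : ℝ) + j) + 3) / m) ^ k * Real.exp (G (j / m))) =
        ∑ k ∈ range (K + 1), (-s) ^ k * (1 / (m : ℝ) * ∑ j ∈ range m,
        Real.log ((2 * ((i : ℝ) + j) + 3) / m) ^ k * Real.exp (G (j / m))) :=
      sum_congr rfl fun k _ => by ring
    rw [e2]
    ring
  rw [hdec]
  have hmq : (0 : ℝ) < (m : ℝ) ^ (1 / 4 : ℝ) := Real.rpow_pos_of_pos hm0 _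
  have hb1 : |∑ k ∈ range (K + 1), (-s) ^ k * (1 / (m : ℝ) * ∑ j ∈ range m,
        Real.log ((2 * ((i : ℝ) + j) + 3) / m) ^ k * Real.exp (G (j / m)) -
          T k (fun v => Real.exp (G v)) (i / m))| ≤
      (∑ k ∈ range (K + 1), |C3 k B1|) * (1 / (m : ℝ) ^ (1 / 4 : ℝ)) := by
    rw [sum_mul]
    refine (abs_sum_le_sum_abs _ _).trans (sum_le_sum fun k _ => ?_)
    rw [abs_mul, abs_pow, abs_neg, abs_of_pos hs0]
    have h1 : s ^ k ≤ 1 := pow_le_one₀ hs0.le hs1
    have h4 := hC3 k B1 (fun v => Real.exp (G v)) hfB m (by omega) i hi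
    have h5 : C3 k B1 / (m : ℝ) ^ (1 / 4 : ℝ) ≤ |C3 k B1| * (1 / (m : ℝ) ^ (1 / 4 : ℝ)) := by
      rw [mul_one_div]
      exact div_le_div_of_nonneg_right (le_abs_self _) hmq.le
    refine (mul_le_mul h1 (h4.trans h5) (abs_nonneg _) zero_le_one).trans ?_
    rw [one_mul]
  have hb2 : |(-s) ^ (K + 1) * (1 / (m : ℝ) * ∑ j ∈ range m, Real.exp (G (j / m)) *
        (Real.log ((2 * ((i : ℝ) + j) + 3) / m) ^ (K + 1) *
          (Real.log m / Real.log (2 * ((i : ℝ) + j) + 3))))| ≤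
      |B1| * |C2 (K + 1)| * s ^ (K + 1) := by
    rw [abs_mul, abs_pow, abs_neg, abs_of_pos hs0, mul_comm]
    apply mul_le_mul_of_nonneg_right _ (by positivity)
    have h4 := (hC2 (K + 1) m (by omega) i hi).trans (le_abs_self _)
    refine le_trans ?_ (mul_le_mul_of_nonneg_left h4 (abs_nonneg B1))
    rw [abs_mul, abs_of_nonneg (by positivity : (0:ℝ) ≤ 1 / (m : ℝ)), ← mul_assoc,
      mul_comm |B1|, mul_assoc]
    apply mul_le_mul_of_nonneg_left _ (by positivity)
    rw [mul_sum]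
    refine (abs_sum_le_sum_abs _ _).trans (sum_le_sum fun j hj => ?_)
    rw [mem_range] at hj
    have hu : ((j : ℝ) / m) ∈ Set.Icc (0 : ℝ) 1 := by
      constructor
      · positivity
      · rw [div_le_one hm0]
        exact_mod_cast hj.le
    have h5 := (hfB.1 _ hu).trans (le_abs_self B1)
    rw [abs_mul, abs_mul, abs_pow, abs_of_pos (div_pos hL (hΛ j))]
    apply mul_le_mul h5 _ (mul_nonneg (by positivity) (div_pos hL (hΛ j)).le) (abs_nonneg _)
    apply mul_le_mul_of_nonneg_left _ (by positivity)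
    linarith
  refine (abs_add_le _ _).trans ?_
  have h6 : 0 ≤ ∑ k ∈ range (K + 1), |C3 k B1| := by positivity
  have h7 : 0 ≤ |B1| * |C2 (K + 1)| := by positivity
  have h8 : 0 ≤ 1 / (m : ℝ) ^ (1 / 4 : ℝ) := by positivity
  have h9 : 0 ≤ s ^ (K + 1) := by positivity
  nlinarith [mul_nonneg h6 h9, mul_nonneg h7 h8]

theorem smooth_log_small (n : ℕ) : ∀ᶠ m : ℕ in atTop,
    1 / (m : ℝ) ^ (1 / 4 : ℝ) ≤ (1 / Real.log m) ^ n := by
  have h := isLittleO_log_rpow_rpow_atTop (n : ℝ) (by norm_num : (0 : ℝ) < 1 / 4)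
  have h1 := (h.bound (by norm_num : (0 : ℝ) < 1)).filter_mono
    (le_refl _) |> tendsto_natCast_atTop_atTop.eventually
  filter_upwards [h1, eventually_ge_atTop 3] with m hm hm3
  have hm0 : (0 : ℝ) < m := by exact_mod_cast (by omega : 0 < m)
  have hL : 0 < Real.log m := Real.log_pos (by exact_mod_cast (by omega : 1 < m))
  rw [Real.norm_eq_abs, Real.norm_eq_abs, one_mul, Real.rpow_natCast,
    abs_of_pos (by positivity), abs_of_pos (by positivity)] at hm
  rw [one_div_pow]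
  exact one_div_le_one_div_of_le (by positivity) hm

theorem smooth_log_large (A : ℝ) : ∀ᶠ m : ℕ in atTop, A ≤ Real.log m :=
  (Real.tendsto_log_atTop.comp tendsto_natCast_atTop_atTop).eventually_ge_atTop A

theorem main_Smooth (h1 : Stmt_Rec) (h2 : Stmt_Abs) (h3 : Stmt_Riem) : Stmt_Smooth := by
  obtain ⟨g, hg, hg1, hrec⟩ := h1
  choose B hB using hg
  refine ⟨fun k => 4 * ∫ u in (0 : ℝ)..1, g k u, hg1, ?_⟩
  intro K
  obtain ⟨C1, s0, hs0, hC1⟩ := hrec K
  set M := ∑ k ∈ Icc 1 K, B k with hM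
  have hM0 : 0 ≤ M := sum_nonneg fun k _ => smooth_HB_nonneg (hB k)
  obtain ⟨C2, hC2, hC2'⟩ := smooth_sdeg h2 h3 K M
  have hT0 : ∀ (f : ℝ → ℝ) (u : ℝ), T 0 f u = ∫ v in (0 : ℝ)..1, f v := by
    intro f u
    simp [T]
  have hR := fun k => h3 0 (B k)
  choose C3 hC3 using hR
  -- the constant
  set D := 2 * Real.exp M * (1 + M) + |C1| + 2 * Real.exp M * C2 +
    4 * ∑ k ∈ Icc 1 K, |C3 k| with hD
  have hexpM : 1 ≤ Real.exp M := Real.one_le_exp hM0
  have hD1 : 2 * Real.exp M * (1 + M) ≤ D := by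
    have : 0 ≤ |C1| + 2 * Real.exp M * C2 + 4 * ∑ k ∈ Icc 1 K, |C3 k| := by positivity
    linarith
  have hD2 : |C1| + 2 * Real.exp M * C2 ≤ D := by
    have : 0 ≤ 2 * Real.exp M * (1 + M) + 4 * ∑ k ∈ Icc 1 K, |C3 k| := by positivity
    linarith
  have hD3 : 4 * ∑ k ∈ Icc 1 K, |C3 k| ≤ D := by
    have : 0 ≤ 2 * Real.exp M * (1 + M) + (|C1| + 2 * Real.exp M * C2) := by positivity
    linarith
  have hD0 : 0 < D := by
    have : 0 < 2 * Real.exp M * (1 + M) := by positivity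
    linarith
  refine ⟨D, hD0, ?_⟩
  filter_upwards [smooth_log_small (K + 1), smooth_log_large (1 / s0), eventually_ge_atTop 3]
    with m hm1 hm2 hm3
  have hm0 : (0 : ℝ) < m := by exact_mod_cast (by omega : 0 < m)
  have hL : 0 < Real.log m := Real.log_pos (by exact_mod_cast (by omega : 1 < m))
  set L := Real.log m with hLdef
  have hs1 : 1 / L ≤ 1 := by
    rw [div_le_one hL, hLdef, Real.le_log_iff_exp_le hm0]
    have h1 := Real.exp_one_lt_d9
    have h2 : (3 : ℝ) ≤ m := by exact_mod_cast hm3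
    linarith
  have hsp : 0 < 1 / L := by positivity
  have hss : 1 / L ≤ s0 := by
    rw [div_le_iff₀ hL]
    rw [div_le_iff₀ hs0] at hm2
    linarith
  set G : ℝ → ℝ := GG g K (1 / L) with hG
  have hGB : HB M G := smooth_GG_HB hB K hsp.le hs1
  have hfB := smooth_exp_HB hGB
  have hu : ∀ i : ℕ, i < m → ((i : ℝ) / m) ∈ Set.Icc (0 : ℝ) 1 := by
    intro i hi
    constructor
    · positivity
    · rw [div_le_one hm0]
      exact_mod_cast hi.le
  set ρ := √(L / m) with hρ
  have hρ0 : 0 < ρ := Real.sqrt_pos.mpr (by positivity)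
  have hq : √(L / (2 * m)) = ρ / √2 := by
    rw [hρ, ← Real.sqrt_div (by positivity)]
    congr 1
    field_simp
  have hr2 : 0 < √(2 : ℝ) := by positivity
  have hr2' : 1 ≤ √(2 : ℝ) := Real.one_le_sqrt.mpr (by norm_num)
  have hr2'' : √(2 : ℝ) ≤ 2 := by
    rw [Real.sqrt_le_left (by norm_num)]
    norm_num
  refine ⟨fun i => √(L / (2 * m)) * Real.exp (G (i / m)), ⟨?_, ?_⟩, ?_, ?_⟩
  · intro i hi
    have hGi := hGB.1 _ (hu i hi)
    rw [abs_le] at hGi
    have e1 : Real.exp (G (i / m)) ≤ Real.exp M := Real.exp_le_exp.mpr hGi.2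
    have e2 : (Real.exp M)⁻¹ ≤ Real.exp (G (i / m)) := by
      rw [← Real.exp_neg]
      exact Real.exp_le_exp.mpr hGi.1
    have hD4 : 2 * Real.exp M ≤ D := by nlinarith
    simp only
    rw [hq]
    constructor
    · rw [div_mul_eq_mul_div, mul_comm D⁻¹, mul_div_assoc]
      apply mul_le_mul_of_nonneg_left _ hρ0.le
      rw [le_div_iff₀ hr2]
      refine le_trans ?_ e2
      have e3 : D⁻¹ ≤ (2 * Real.exp M)⁻¹ := by
        apply inv_anti₀ (by positivity) hD4
      have e4 : (2 * Real.exp M)⁻¹ * 2 = (Real.exp M)⁻¹ := by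
        field_simp
      rw [← e4]
      exact mul_le_mul e3 hr2'' (by positivity) (by positivity)
    · rw [div_mul_eq_mul_div, mul_comm D, div_le_iff₀ hr2, mul_assoc]
      apply mul_le_mul_of_nonneg_left _ hρ0.le
      nlinarith
  · intro i hi j hj
    simp only
    rw [hq, ← mul_sub, abs_mul, abs_of_pos (by positivity)]
    have e1 := hfB.2 _ (hu i hi) _ (hu j hj)
    have e2 : |(i : ℝ) / m - j / m| = |(i : ℝ) - j| / m := by
      rw [← sub_div, abs_div, abs_of_pos hm0]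
    rw [e2] at e1
    have e3 : ρ / √2 ≤ ρ := div_le_self hρ0.le hr2'
    calc ρ / √2 * |Real.exp (G (i / m)) - Real.exp (G (j / m))|
        ≤ ρ * (Real.exp M * (1 + M) * √(|(i : ℝ) - j| / m)) :=
          mul_le_mul e3 e1 (abs_nonneg _) hρ0.le
      _ ≤ ρ * (D * √(|(i : ℝ) - j| / m)) := by
          apply mul_le_mul_of_nonneg_left _ hρ0.le
          apply mul_le_mul_of_nonneg_right _ (Real.sqrt_nonneg _)
          have : 0 ≤ Real.exp M * (1 + M) := by positivity
          linarith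
      _ = D * ρ * √(|(i : ℝ) - j| / m) := by ring
  · intro i hi
    have e1 : sdeg m (fun i => √(L / (2 * m)) * Real.exp (G (i / m))) i =
        Real.exp (G (i / m)) * (1 / (m : ℝ) * ∑ j ∈ range m, Real.exp (G (j / m)) *
          (L / Real.log (2 * ((i : ℝ) + j) + 3))) := by
      unfold sdeg
      rw [mul_sum, mul_sum]
      refine sum_congr rfl fun j _ => ?_
      have e2 : √(L / (2 * m)) * √(L / (2 * m)) = L / (2 * m) :=
        Real.mul_self_sqrt (by positivity)
      calc √(L / (2 * m)) * Real.exp (G (i / m)) * (√(L / (2 * m)) * Real.exp (G (j / m))) *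
            (2 / Real.log (2 * ((i : ℝ) + j) + 3))
          = (√(L / (2 * m)) * √(L / (2 * m))) * (Real.exp (G (i / m)) * Real.exp (G (j / m)) *
            (2 / Real.log (2 * ((i : ℝ) + j) + 3))) := by ring
        _ = _ := by
          rw [e2]
          field_simp
    have e2 := hC2' G hGB m hm3 i hi
    have e3 := hC1 (1 / L) hsp hss (i / m) (hu i hi)
    have e4 : EE g K (K + 1) (1 / L) (i / m) = Real.exp (G (i / m)) *
        ∑ k ∈ range (K + 1), (-(1 / L)) ^ k * T k (fun v => Real.exp (G v)) (i / m) := rfl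
    rw [e1]
    set P := 1 / (m : ℝ) * ∑ j ∈ range m, Real.exp (G (j / m)) *
          (L / Real.log (2 * ((i : ℝ) + j) + 3)) with hP
    set Q := ∑ k ∈ range (K + 1), (-(1 / L)) ^ k * T k (fun v => Real.exp (G v)) (i / m) with hQ
    have e5 : Real.exp (G (i / m)) * P - 1 = Real.exp (G (i / m)) * (P - Q) +
        (EE g K (K + 1) (1 / L) (i / m) - 1) := by
      rw [e4]; ring
    have e6 : Real.exp (G (i / m)) ≤ Real.exp M :=
      Real.exp_le_exp.mpr ((le_abs_self _).trans (hGB.1 _ (hu i hi)))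
    have hp : 0 < (1 / L) ^ (K + 1) := by positivity
    rw [e5]
    calc |Real.exp (G (i / m)) * (P - Q) + (EE g K (K + 1) (1 / L) (i / m) - 1)|
        ≤ Real.exp M * (C2 * (2 * (1 / L) ^ (K + 1))) + |C1| * (1 / L) ^ (K + 1) := by
          refine (abs_add_le _ _).trans (add_le_add ?_ ?_)
          · rw [abs_mul, abs_of_pos (Real.exp_pos _)]
            apply mul_le_mul e6 _ (abs_nonneg _) (Real.exp_pos _).le
            refine e2.trans (mul_le_mul_of_nonneg_left ?_ hC2)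
            linarith
          · exact e3.trans (mul_le_mul_of_nonneg_right (le_abs_self _) hp.le)
      _ = (|C1| + 2 * Real.exp M * C2) * (1 / L) ^ (K + 1) := by ring
      _ ≤ D * (1 / L) ^ (K + 1) := mul_le_mul_of_nonneg_right hD2 hp.le
      _ = D / L ^ (K + 1) := by rw [one_div_pow, mul_one_div]
  · have e1 : ∀ i ∈ range m, Real.log (√(L / (2 * m)) * Real.exp (G (i / m))) =
        (Real.log L - Real.log 2 - L) / 2 + G (i / m) := by
      intro i _
      rw [Real.log_mul (by positivity) (Real.exp_pos _).ne', Real.log_exp,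
        Real.log_sqrt (by positivity), Real.log_div hL.ne' (by positivity),
        Real.log_mul (by norm_num) hm0.ne', ← hLdef]
      ring
    simp only
    rw [sum_congr rfl e1, sum_add_distrib, sum_const, card_range, nsmul_eq_mul]
    have e2 : ∑ i ∈ range m, G (i / m) =
        ∑ k ∈ Icc 1 K, (1 / L) ^ k * ∑ i ∈ range m, g k (i / m) := by
      simp only [hG, GG]
      rw [sum_comm]
      refine sum_congr rfl fun k _ => ?_
      rw [mul_sum]
    have e3 : (m : ℝ) * ∑ k ∈ Icc 1 K, (4 * ∫ u in (0 : ℝ)..1, g k u) / L ^ k =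
        4 * ∑ k ∈ Icc 1 K, (1 / L) ^ k * (m * ∫ u in (0 : ℝ)..1, g k u) := by
      rw [mul_sum, mul_sum]
      refine sum_congr rfl fun k _ => ?_
      rw [one_div_pow]
      field_simp
    rw [e2, e3]
    have e4 : -4 * (↑m * ((Real.log L - Real.log 2 - L) / 2) +
        ∑ k ∈ Icc 1 K, (1 / L) ^ k * ∑ i ∈ range m, g k (i / m)) -
        (2 * ↑m * L - 2 * ↑m * Real.log L + 2 * Real.log 2 * ↑m -
        4 * ∑ k ∈ Icc 1 K, (1 / L) ^ k * (m * ∫ u in (0 : ℝ)..1, g k u)) =
        -4 * ∑ k ∈ Icc 1 K, (1 / L) ^ k * (∑ i ∈ range m, g k (i / m) -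
          m * ∫ u in (0 : ℝ)..1, g k u) := by
      simp_rw [mul_sub]
      rw [sum_sub_distrib]
      ring
    rw [e4, abs_mul]
    have e5 : |∑ k ∈ Icc 1 K, (1 / L) ^ k * (∑ i ∈ range m, g k (i / m) -
          m * ∫ u in (0 : ℝ)..1, g k u)| ≤
        (∑ k ∈ Icc 1 K, |C3 k|) * (m * (1 / L) ^ (K + 1)) := by
      rw [sum_mul]
      refine (abs_sum_le_sum_abs _ _).trans (sum_le_sum fun k _ => ?_)
      rw [abs_mul, abs_of_pos (by positivity)]
      have e6 := hC3 k (g k) (hB k) m (by omega) 0 (by omega)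
      rw [hT0] at e6
      simp only [pow_zero, one_mul] at e6
      have e7 : ∑ i ∈ range m, g k (i / m) - m * ∫ u in (0 : ℝ)..1, g k u =
          m * (1 / (m : ℝ) * ∑ i ∈ range m, g k (i / m) - ∫ u in (0 : ℝ)..1, g k u) := by
        field_simp
      rw [e7, abs_mul, abs_of_pos hm0]
      have e8 : C3 k / (m : ℝ) ^ (1 / 4 : ℝ) ≤ |C3 k| * (1 / L) ^ (K + 1) := by
        calc C3 k / (m : ℝ) ^ (1 / 4 : ℝ) ≤ |C3 k| / (m : ℝ) ^ (1 / 4 : ℝ) :=
              div_le_div_of_nonneg_right (le_abs_self _) (by positivity)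
          _ = |C3 k| * (1 / (m : ℝ) ^ (1 / 4 : ℝ)) := by rw [mul_one_div]
          _ ≤ _ := mul_le_mul_of_nonneg_left hm1 (abs_nonneg _)
      have e9 : (1 / L) ^ k ≤ 1 := pow_le_one₀ hsp.le hs1
      have e10 := e6.trans e8
      calc (1 / L) ^ k * (m * |1 / (m : ℝ) * ∑ i ∈ range m, g k (i / m) -
            ∫ u in (0 : ℝ)..1, g k u|) ≤ 1 * (m * (|C3 k| * (1 / L) ^ (K + 1))) :=
            mul_le_mul e9 (mul_le_mul_of_nonneg_left e10 hm0.le) (by positivity) zero_le_one
        _ = _ := by ring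
    have e11 : |(-4 : ℝ)| = 4 := by norm_num
    rw [e11]
    have hp : 0 < (m : ℝ) * (1 / L) ^ (K + 1) := by positivity
    calc 4 * |∑ k ∈ Icc 1 K, (1 / L) ^ k * (∑ i ∈ range m, g k (i / m) -
          m * ∫ u in (0 : ℝ)..1, g k u)| ≤
          4 * ((∑ k ∈ Icc 1 K, |C3 k|) * (m * (1 / L) ^ (K + 1))) := by linarith
      _ = (4 * ∑ k ∈ Icc 1 K, |C3 k|) * (m * (1 / L) ^ (K + 1)) := by ring
      _ ≤ D * (m * (1 / L) ^ (K + 1)) := mul_le_mul_of_nonneg_right hD3 hp.le
      _ = D * m / L ^ (K + 1) := by rw [one_div_pow]; ring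

end Pool.Agent.PCX
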