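import Pool.Agent.PCX.Stmts
import Pool.Agent.PC.UpperMain

/-!
# [Up] Upper bound for the number of prime circles
-/

set_option autoImplicit false

namespace Pool.Agent.PCX

open Finset Filter Pool.Agent.PC Pool.Agent.PrimeCircle Pool.Agent.PC.BlockG

open scoped Classical in
theorem up_rowsum (m : ℕ) (z : ℕ → ℝ) (hz : ∀ i < m, 0 ≤ z i ∧ z i ≤ 1) (x : Fin (2 * m)) :
    ∑ y, (if y ∈ NS m x then z (x.1 / 2) * z (y.1 / 2) else 0) ≤
      (∑ j ∈ range m, if PA (x.1 / 2) j then z (x.1 / 2) * z j else 0) + 1 := by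
  have hm : 0 < m := by have := x.2; omega
  set k := x.1 / 2 with hk
  have hkm : k < m := by have := x.2; omega
  set f : ℕ → ℝ := fun v => z k * z (v / 2) with hf
  have h1 : ∑ y, (if y ∈ NS m x then z k * z (y.1 / 2) else 0) =
      ∑ v ∈ (NS m x).image Fin.val, f v := by
    rw [sum_image (fun a _ b _ h => Fin.val_injective h), ← sum_filter]
    refine sum_congr ?_ (fun y _ => rfl)
    ext y
    simp
  rw [h1]
  have key : ∀ (A : Finset ℕ) (g : ℕ → ℕ), (∀ j, g j / 2 = j) →
      ((NS m x).image Fin.val ⊆ ((range m).filter (fun j => PA k j)).image g ∪ {0}) →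
      ∑ v ∈ (NS m x).image Fin.val, f v ≤
        (∑ j ∈ range m, if PA k j then z k * z j else 0) + 1 := by
    intro A g hg hsub
    have hgi : Function.Injective g := by
      intro a b hab
      rw [← hg a, ← hg b, hab]
    have hnn : ∀ v ∈ ((range m).filter (fun j => PA k j)).image g ∪ {0}, 0 ≤ f v := by
      intro v hv
      rw [mem_union, mem_image, mem_singleton] at hv
      rcases hv with ⟨j, hj, rfl⟩ | rfl
      · rw [hf]
        simp only [hg]
        exact mul_nonneg (hz k hkm).1 (hz j (mem_range.1 (mem_filter.1 hj).1)).1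
      · exact mul_nonneg (hz k hkm).1 (hz _ (by simpa using hm)).1
    refine (sum_le_sum_of_subset_of_nonneg hsub (fun v hv _ => hnn v hv)).trans ?_
    have h2 : ∑ v ∈ ((range m).filter (fun j => PA k j)).image g ∪ {0}, f v ≤
        ∑ v ∈ ((range m).filter (fun j => PA k j)).image g, f v + ∑ v ∈ ({0} : Finset ℕ), f v := by
      rw [← sum_union_inter]
      have : 0 ≤ ∑ v ∈ ((range m).filter (fun j => PA k j)).image g ∩ {0}, f v :=
        sum_nonneg (fun v hv => hnn v (mem_union_left _ (mem_inter.1 hv).1))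
      linarith
    refine h2.trans (add_le_add (le_of_eq ?_) ?_)
    · rw [sum_image (fun a _ b _ h => hgi h), sum_filter]
      refine sum_congr rfl (fun j _ => ?_)
      rw [hf]
      simp only [hg]
    · rw [sum_singleton]
      exact mul_le_one₀ (hz k hkm).2 (hz _ (by simpa using hm)).1 (hz _ (by simpa using hm)).2
  rcases Nat.even_or_odd' x.1 with ⟨l, hl | hl⟩
  · have hkl : k = l := by omega
    refine key ∅ (fun j => 2 * j + 1) (fun j => by omega) ?_
    intro y hy
    rw [Finset.mem_image] at hy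
    obtain ⟨y, hy, rfl⟩ := hy
    unfold NS at hy
    have hy := (Finset.mem_filter.1 hy).2
    rw [Finset.mem_union, Finset.mem_image, Finset.mem_singleton]
    rcases Nat.even_or_odd' y.1 with ⟨j, hj | hj⟩
    · right
      rw [hl, hj] at hy
      have h3 : 2 ∣ 2 * l + 1 + (2 * j + 1) := ⟨l + j + 1, by ring⟩
      have h4 := (Nat.prime_dvd_prime_iff_eq Nat.prime_two hy).1 h3
      omega
    · left
      refine ⟨j, ?_, hj.symm⟩
      rw [Finset.mem_filter, Finset.mem_range]
      refine ⟨by have := y.2; omega, ?_⟩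
      unfold PA
      rw [hl, hj] at hy
      rw [hkl]
      convert hy using 1
      ring
  · have hkl : k = l := by omega
    refine key ∅ (fun j => 2 * j) (fun j => by omega) ?_
    intro y hy
    rw [Finset.mem_image] at hy
    obtain ⟨y, hy, rfl⟩ := hy
    unfold NS at hy
    have hy := (Finset.mem_filter.1 hy).2
    rw [Finset.mem_union, Finset.mem_image, Finset.mem_singleton]
    rcases Nat.even_or_odd' y.1 with ⟨j, hj | hj⟩
    · left
      refine ⟨j, ?_, hj.symm⟩
      rw [Finset.mem_filter, Finset.mem_range]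
      refine ⟨by have := y.2; omega, ?_⟩
      unfold PA
      rw [hl, hj] at hy
      rw [hkl]
      convert hy using 1
      ring
    · exfalso
      rw [hl, hj] at hy
      have h3 : 2 ∣ 2 * l + 1 + 1 + (2 * j + 1 + 1) := ⟨l + j + 2, by ring⟩
      have h4 := (Nat.prime_dvd_prime_iff_eq Nat.prime_two hy).1 h3
      omega

theorem up_per (m : ℕ) (z : ℕ → ℝ) :
    ∑ σ : Equiv.Perm (Fin (2 * m)), ∏ x, (if σ x ∈ NS m x then z (x.1 / 2) * z ((σ x).1 / 2)
      else 0) = (∏ x : Fin (2 * m), z (x.1 / 2)) ^ 2 * (cnt (NS m) : ℝ) := by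
  have e1 : ∀ σ : Equiv.Perm (Fin (2 * m)),
      ∏ x, (if σ x ∈ NS m x then z (x.1 / 2) * z ((σ x).1 / 2) else 0) =
      if (∀ x, σ x ∈ NS m x) then (∏ x : Fin (2 * m), z (x.1 / 2)) ^ 2 else 0 := by
    intro σ
    by_cases h : ∀ x, σ x ∈ NS m x
    · rw [if_pos h, prod_congr rfl (fun x _ => if_pos (h x)), prod_mul_distrib, sq,
        Equiv.prod_comp σ (fun y => z (y.1 / 2))]
    · rw [if_neg h]
      push Not at h
      obtain ⟨i, hi⟩ := h
      exact prod_eq_zero (mem_univ i) (if_neg hi)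
  rw [sum_congr rfl (fun σ _ => e1 σ), ← sum_filter, sum_const, nsmul_eq_mul, cnt,
    Nat.card_eq_fintype_card, Fintype.card_subtype, mul_comm]

theorem up_sum_half (m : ℕ) (f : ℕ → ℝ) :
    ∑ x : Fin (2 * m), f (x.1 / 2) = 2 * ∑ i ∈ range m, f i := by
  rw [Fin.sum_univ_eq_sum_range (fun i => f (i / 2)) (2 * m)]
  induction m with
  | zero => simp
  | succ m ih =>
    rw [show 2 * (m + 1) = 2 * m + 1 + 1 by ring, sum_range_succ, sum_range_succ, ih,
      sum_range_succ, show 2 * m / 2 = m by omega, show (2 * m + 1) / 2 = m by omega]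
    ring

theorem up_ev (K : ℕ) (C : ℝ) (hC : 0 < C) : ∀ᶠ m : ℕ in atTop,
    (4 : ℝ) ≤ Real.log m ∧
      C ^ 2 * Real.log m * (4 + Real.log m) * Real.log m ^ (K + 1) ≤ m := by
  have h1 : ∀ᶠ m : ℕ in atTop, (4 : ℝ) ≤ Real.log m :=
    (Real.tendsto_log_atTop.comp tendsto_natCast_atTop_atTop).eventually_ge_atTop 4
  have hc : 0 < 1 / (2 * C ^ 2) := by positivity
  have h2 := tendsto_natCast_atTop_atTop.eventually
    ((Real.isLittleO_pow_log_id_atTop (n := K + 3)).bound hc)
  filter_upwards [h1, h2] with m h1 h2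
  refine ⟨h1, ?_⟩
  set L := Real.log (m : ℝ) with hL
  have hL0 : 0 < L := by linarith
  simp only [id, Real.norm_eq_abs] at h2
  rw [abs_of_nonneg (by positivity), abs_of_nonneg (Nat.cast_nonneg m)] at h2
  have h3 : C ^ 2 * L * (4 + L) * L ^ (K + 1) ≤ 2 * C ^ 2 * L ^ (K + 3) := by
    have e : 2 * C ^ 2 * L ^ (K + 3) = C ^ 2 * L * (2 * L) * L ^ (K + 1) := by ring
    rw [e]
    have : 4 + L ≤ 2 * L := by linarith
    gcongr
  refine h3.trans ?_
  calc 2 * C ^ 2 * L ^ (K + 3) ≤ 2 * C ^ 2 * (1 / (2 * C ^ 2) * m) := by gcongr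
    _ = (m : ℝ) := by field_simp

theorem main_Up (h : Stmt_Wb) : Stmt_Up := by
  classical
  intro K C hC
  refine ⟨2 * C + 2, ?_⟩
  filter_upwards [up_ev K C hC, eventually_ge_atTop 4] with m hev hm x hW hR
  obtain ⟨hL4, hev⟩ := hev
  set L := Real.log (m : ℝ) with hL
  have hm4 : (4 : ℝ) ≤ m := by exact_mod_cast hm
  have hm0 : (0 : ℝ) < m := by linarith
  have hL0 : 0 < L := by linarith
  set ρ := √(L / m) with hρ
  have hρ0 : 0 < ρ := Real.sqrt_pos.2 (by positivity)
  have hρ2 : ρ ^ 2 = L / m := Real.sq_sqrt (by positivity)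
  have hCρ : 0 < C * ρ := by positivity
  have hC1 : 1 ≤ C := by
    obtain ⟨a1, a2⟩ := hW.1 0 (by omega)
    have a3 : C⁻¹ * ρ ≤ C * ρ := a1.trans a2
    have a4 : C⁻¹ ≤ C := le_of_mul_le_mul_right a3 hρ0
    by_contra hlt
    push Not at hlt
    have : 1 < C⁻¹ := (one_lt_inv₀ hC).2 hlt
    linarith
  set P := L ^ (K + 1) with hP
  have hP1 : 1 ≤ P := one_le_pow₀ (by linarith)
  have hP0 : 0 < P := by linarith
  set T := (C * ρ) ^ 2 with hT
  have hT0 : 0 < T := by positivity
  have hTe : T = C ^ 2 * L / m := by rw [hT, mul_pow, hρ2]; ring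
  have hT1 : T * (4 + L) * P ≤ 1 := by
    rw [hTe, div_mul_eq_mul_div, div_mul_eq_mul_div, div_le_one hm0]
    exact hev
  have hlogT : Real.log T = 2 * Real.log (C * ρ) := by
    rw [hT, Real.log_pow]; norm_num
  set z : ℕ → ℝ := fun i => x i / (C * ρ) with hz
  have hx0 : ∀ i < m, 0 < x i := by
    intro i hi
    exact lt_of_lt_of_le (by positivity) (hW.1 i hi).1
  have hz01 : ∀ i < m, 0 < z i ∧ z i ≤ 1 := by
    intro i hi
    exact ⟨div_pos (hx0 i hi) hCρ, (div_le_one hCρ).2 (hW.1 i hi).2⟩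
  set S := ∑ i ∈ range m, Real.log (x i) with hS
  -- the trivial case
  have hlogle : ∀ i < m, Real.log (x i) ≤ Real.log (C * ρ) := fun i hi =>
    Real.log_le_log (hx0 i hi) (hW.1 i hi).2
  rcases Nat.eq_zero_or_pos (numPrimeCircles m) with hN0 | hN0
  · rw [hN0, Nat.cast_zero, Real.log_zero]
    have h1 : S ≤ m * Real.log (C * ρ) := by
      have := sum_le_sum (fun i hi => hlogle i (mem_range.1 hi))
      rw [sum_const, card_range, nsmul_eq_mul] at this
      exact this
    have h2 : Real.log T ≤ -1 := by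
      have h3 : T * 8 ≤ 1 := by
        have : T * 8 ≤ T * (4 + L) * P := by
          have : T * 8 * 1 ≤ T * (4 + L) * P := by
            gcongr
            linarith
          linarith
        linarith
      have h4 : T ≤ Real.exp (-1) := by
        rw [Real.exp_neg, ← one_div, le_div_iff₀ (Real.exp_pos 1)]
        have := Real.exp_one_lt_d9
        nlinarith
      rw [← Real.log_exp (-1)]
      exact Real.log_le_log hT0 h4
    have h5 : 0 ≤ (2 * C + 2) * m / P := by positivity
    rw [hlogT] at h2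
    nlinarith
  have hcnt : 0 < cnt (NS m) := lt_of_lt_of_le hN0 (numPrimeCircles_le_cnt (by omega))
  have hNle : Real.log (numPrimeCircles m) ≤ Real.log (cnt (NS m)) :=
    Real.log_le_log (by exact_mod_cast hN0) (by exact_mod_cast numPrimeCircles_le_cnt (by omega))
  refine hNle.trans ?_
  -- weighted Bregman
  set w : Fin (2 * m) → Fin (2 * m) → ℝ := fun a b =>
    if b ∈ NS m a then z (a.1 / 2) * z (b.1 / 2) else 0 with hw
  have hhalf : ∀ a : Fin (2 * m), a.1 / 2 < m := fun a => by have := a.2; omega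
  have hw01 : ∀ i j, 0 ≤ w i j ∧ w i j ≤ 1 := by
    intro i j
    simp only [hw]
    split_ifs
    · exact ⟨mul_nonneg (hz01 _ (hhalf i)).1.le (hz01 _ (hhalf j)).1.le,
        mul_le_one₀ (hz01 _ (hhalf i)).2 (hz01 _ (hhalf j)).1.le (hz01 _ (hhalf j)).2⟩
    · exact ⟨le_rfl, zero_le_one⟩
  have hB := h (Fin (2 * m)) w hw01
  have hper := up_per m z
  rw [hper] at hB
  set ε := C / P with hε
  have hε0 : 0 < ε := by positivity
  set R := (1 + ε) / T + 1 with hRdef
  have hrow : ∀ a, ∑ b, w a b ≤ R := by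
    intro a
    refine (up_rowsum m z (fun i hi => ⟨(hz01 i hi).1.le, (hz01 i hi).2⟩) a).trans ?_
    rw [hRdef]
    gcongr
    have e1 : (∑ j ∈ range m, if PA (a.1 / 2) j then z (a.1 / 2) * z j else 0) =
        wdeg m x (a.1 / 2) / T := by
      unfold wdeg
      rw [sum_div]
      refine sum_congr rfl (fun j _ => ?_)
      split_ifs
      · simp only [hz, hT]
        field_simp
      · simp
    rw [e1]
    gcongr
    have := (abs_le.mp (hR (a.1 / 2) (hhalf a))).2
    linarith
  have hwnn : ∀ a, 0 ≤ ∑ b, w a b := fun a => sum_nonneg (fun b _ => (hw01 a b).1)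
  have hR0 : 0 < R := by positivity
  have hphimono : ∀ a, Phi (∑ b, w a b) ≤ Phi R := by
    intro a
    unfold Phi
    refine div_le_div_of_nonneg_right ?_ (Real.exp_pos 1).le
    have h1 := hrow a
    have h2 := hwnn a
    have h3 : Real.log ((∑ b, w a b) + 1) ≤ Real.log (R + 1) :=
      Real.log_le_log (by linarith) (by linarith)
    linarith
  have hphinn : ∀ r : ℝ, 0 ≤ r → 0 < Phi r := by
    intro r hr
    unfold Phi
    have := Real.log_nonneg (by linarith : (1 : ℝ) ≤ r + 1)
    positivity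
  have hB2 : (∏ a : Fin (2 * m), z (a.1 / 2)) ^ 2 * (cnt (NS m) : ℝ) ≤ Phi R ^ (2 * m) := by
    refine hB.trans ((prod_le_prod (fun a _ => (hphinn _ (hwnn a)).le)
      (fun a _ => hphimono a)).trans (le_of_eq ?_))
    rw [prod_const, card_univ, Fintype.card_fin]
  have hprodpos : 0 < ∏ a : Fin (2 * m), z (a.1 / 2) :=
    prod_pos (fun a _ => (hz01 _ (hhalf a)).1)
  have hcpos : (0 : ℝ) < cnt (NS m) := by exact_mod_cast hcnt
  have hlog := Real.log_le_log (by positivity) hB2
  rw [Real.log_mul (by positivity) hcpos.ne', Real.log_pow, Real.log_pow,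
    Real.log_prod (fun a _ => (hz01 _ (hhalf a)).1.ne'),
    up_sum_half m (fun i => Real.log (z i))] at hlog
  have hsz : ∑ i ∈ range m, Real.log (z i) = S - m * Real.log (C * ρ) := by
    rw [hS, sum_congr rfl (g := fun i => Real.log (x i) - Real.log (C * ρ)), sum_sub_distrib,
      sum_const, card_range, nsmul_eq_mul]
    intro i hi
    exact Real.log_div (hx0 i (mem_range.1 hi)).ne' hCρ.ne'
  rw [hsz] at hlog
  -- the bound for `Phi R`
  have hRm : R + 1 ≤ m := by
    have e1 : R + 1 = (1 + ε) / T + 2 := by rw [hRdef]; ring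
    have e2 : (1 + ε) / T ≤ m / 2 := by
      rw [div_le_div_iff₀ hT0 (by norm_num), hTe]
      have e3 : ε ≤ C := by
        rw [hε, div_le_iff₀ hP0]
        nlinarith
      have e4 : (m : ℝ) * (C ^ 2 * L / m) = C ^ 2 * L := by field_simp
      rw [e4]
      nlinarith [mul_le_mul hC1 hC1 zero_le_one hC.le]
    rw [e1]
    linarith
  have hlogR : Real.log (R + 1) ≤ L := Real.log_le_log (by linarith) hRm
  have hlogR0 : 0 ≤ Real.log (R + 1) := Real.log_nonneg (by linarith)
  have hPhi : Real.log (Phi R) + 1 + Real.log T ≤ ε + 1 / P := by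
    have e0 : Phi R * Real.exp 1 * T = 1 + (ε + T * (4 + Real.log (R + 1))) := by
      unfold Phi
      rw [div_mul_cancel₀ _ (Real.exp_pos 1).ne']
      have : R * T = 1 + ε + T := by
        rw [hRdef, add_mul, div_mul_cancel₀ _ hT0.ne', one_mul]
      nlinarith
    have e1 : Real.log (Phi R) + 1 + Real.log T = Real.log (Phi R * Real.exp 1 * T) := by
      rw [Real.log_mul (by have := hphinn R hR0.le; positivity) hT0.ne',
        Real.log_mul (hphinn R hR0.le).ne' (Real.exp_pos 1).ne', Real.log_exp]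
    rw [e1, e0]
    have e2 := Real.log_le_sub_one_of_pos
      (by positivity : 0 < 1 + (ε + T * (4 + Real.log (R + 1))))
    have e3 : T * (4 + Real.log (R + 1)) ≤ 1 / P := by
      rw [le_div_iff₀ hP0]
      refine le_trans ?_ hT1
      gcongr
    linarith
  rw [hlogT] at hPhi
  have hfin : (2 * C + 2) * m / P = 2 * m * (ε + 1 / P) := by
    rw [hε]; field_simp
  rw [hfin]
  push_cast at hlog
  have hmul := mul_le_mul_of_nonneg_left hPhi (by positivity : (0 : ℝ) ≤ 2 * m)
  linarith

end Pool.Agent.PCX
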