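import Pool.Agent.PCX.Stmts
import Pool.Agent.PC.Bregman

/-!
# [Wb] Weighted Bregman inequality
-/

set_option autoImplicit false

namespace Pool.Agent.PCX

open Finset

theorem wb_phi_nonneg {r : ℝ} (hr : 0 ≤ r) : 0 ≤ Phi r := by
  unfold Phi
  have h := Real.log_nonneg (by linarith : (1 : ℝ) ≤ r + 1)
  positivity

theorem wb_phi_conc {s t : ℝ} (hs : 0 ≤ s) (ht0 : 0 ≤ t) (ht1 : t ≤ 1) :
    (1 - t) * Phi s + t * Phi (s + 1) ≤ Phi (s + t) := by
  unfold Phi
  have h := strictConcaveOn_log_Ioi.concaveOn.2 (show s + 1 ∈ Set.Ioi (0 : ℝ) by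
      simp only [Set.mem_Ioi]; linarith) (show s + 1 + 1 ∈ Set.Ioi (0 : ℝ) by
      simp only [Set.mem_Ioi]; linarith)
    (by linarith : 0 ≤ 1 - t) ht0 (by ring)
  simp only [smul_eq_mul] at h
  have e : (1 - t) * (s + 1) + t * (s + 1 + 1) = s + t + 1 := by ring
  rw [e] at h
  rw [mul_div_assoc', mul_div_assoc', ← add_div]
  refine div_le_div_of_nonneg_right ?_ (Real.exp_pos 1).le
  linarith

theorem wb_G_le {r : ℕ} (hr : 1 ≤ r) : Real.exp (PC.BlockG.G r) ≤ Phi r := by
  have h0 : (1 : ℝ) ≤ r := by exact_mod_cast hr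
  have hpos : (0 : ℝ) < r := by linarith
  set L := Real.log r with hL
  have hL0 : 0 ≤ L := Real.log_nonneg h0
  have hexp : Real.exp L = r := Real.exp_log hpos
  have hq : 1 + L + L ^ 2 / 2 ≤ r := by
    rw [← hexp]; exact Real.quadratic_le_exp_of_nonneg hL0
  have hy1 : (1 + L) / r ≤ 1 := by
    rw [div_le_one hpos]
    nlinarith [sq_nonneg L]
  have hy0 : 0 ≤ (1 + L) / r := by positivity
  have h1 : Real.exp (PC.BlockG.G r) ≤ r / Real.exp 1 * Real.exp ((1 + L) / r) := by
    refine (Real.exp_le_exp.mpr (PC.BlockG.G_le hr)).trans (le_of_eq ?_)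
    rw [Real.exp_add, Real.exp_sub, hexp]
  have h2 : Real.exp ((1 + L) / r) ≤ 1 + (1 + L) / r + ((1 + L) / r) ^ 2 := by
    have := Real.abs_exp_sub_one_sub_id_le (x := (1 + L) / r) (by rw [abs_of_nonneg hy0]; exact hy1)
    have := (abs_le.mp this).2
    linarith
  have h3 : (r : ℝ) * (1 + (1 + L) / r + ((1 + L) / r) ^ 2) ≤ r + Real.log (r + 1) + 3 := by
    have e1 : (r : ℝ) * (1 + (1 + L) / r + ((1 + L) / r) ^ 2) = r + (1 + L) + (1 + L) ^ 2 / r := by
      field_simp
    have e2 : (1 + L) ^ 2 / r ≤ 2 := by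
      rw [div_le_iff₀ hpos]
      nlinarith
    have e3 : L ≤ Real.log (r + 1) := Real.log_le_log hpos (by linarith)
    rw [e1]
    linarith
  unfold Phi
  refine h1.trans ?_
  rw [div_mul_eq_mul_div]
  refine div_le_div_of_nonneg_right ?_ (Real.exp_pos 1).le
  exact (mul_le_mul_of_nonneg_left h2 hpos.le).trans h3

section

variable {ι : Type} [Fintype ι] [DecidableEq ι]

/-- change of one entry -/
def wbUpd (w : ι → ι → ℝ) (a b : ι) (t : ℝ) : ι → ι → ℝ :=
  fun i j => if i = a ∧ j = b then t else w i j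

theorem wb_perm (w : ι → ι → ℝ) (a b : ι) (t : ℝ) :
    ∑ σ : Equiv.Perm ι, ∏ i, wbUpd w a b t i (σ i) =
      (1 - t) * ∑ σ : Equiv.Perm ι, ∏ i, wbUpd w a b 0 i (σ i) +
        t * ∑ σ : Equiv.Perm ι, ∏ i, wbUpd w a b 1 i (σ i) := by
  rw [mul_sum, mul_sum, ← sum_add_distrib]
  refine sum_congr rfl (fun σ _ => ?_)
  have hrest : ∀ s : ℝ, ∏ i ∈ univ.erase a, wbUpd w a b s i (σ i) =
      ∏ i ∈ univ.erase a, w i (σ i) := by
    intro s
    refine prod_congr rfl (fun i hi => ?_)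
    have : i ≠ a := (mem_erase.1 hi).1
    simp [wbUpd, this]
  rw [← mul_prod_erase univ (fun i => wbUpd w a b t i (σ i)) (mem_univ a),
    ← mul_prod_erase univ (fun i => wbUpd w a b 0 i (σ i)) (mem_univ a),
    ← mul_prod_erase univ (fun i => wbUpd w a b 1 i (σ i)) (mem_univ a), hrest, hrest, hrest]
  by_cases h : σ a = b
  · simp [wbUpd, h]
  · simp [wbUpd, h]
    ring

theorem wb_row (w : ι → ι → ℝ) (a b : ι) (t : ℝ) :
    ∑ j, wbUpd w a b t a j = (∑ j ∈ univ.erase b, w a j) + t := by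
  rw [← add_sum_erase univ _ (mem_univ b), add_comm]
  congr 1
  · refine sum_congr rfl (fun j hj => ?_)
    have : j ≠ b := (mem_erase.1 hj).1
    simp [wbUpd, this]
  · simp [wbUpd]

theorem wb_rowprod (w : ι → ι → ℝ) (a b : ι) (t : ℝ) :
    ∏ i, Phi (∑ j, wbUpd w a b t i j) =
      Phi ((∑ j ∈ univ.erase b, w a j) + t) * ∏ i ∈ univ.erase a, Phi (∑ j, w i j) := by
  rw [← mul_prod_erase univ _ (mem_univ a), wb_row]
  congr 1
  refine prod_congr rfl (fun i hi => ?_)
  have : i ≠ a := (mem_erase.1 hi).1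
  simp [wbUpd, this]

theorem wb_01 (w : ι → ι → ℝ) (hw : ∀ i j, w i j = 0 ∨ w i j = 1) :
    ∑ σ : Equiv.Perm ι, ∏ i, w i (σ i) ≤ ∏ i, Phi (∑ j, w i j) := by
  classical
  set N : ι → Finset ι := fun i => univ.filter (fun j => w i j = 1) with hN
  have hcard : ∀ i, ∑ j, w i j = ((N i).card : ℝ) := by
    intro i
    rw [card_eq_sum_ones, Nat.cast_sum, hN, sum_filter]
    refine sum_congr rfl (fun j _ => ?_)
    rcases hw i j with h | h <;> simp [h]
  have hper : ∑ σ : Equiv.Perm ι, ∏ i, w i (σ i) = (PC.BlockG.cnt N : ℝ) := by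
    have e1 : ∀ σ : Equiv.Perm ι, ∏ i, w i (σ i) = if (∀ i, σ i ∈ N i) then 1 else 0 := by
      intro σ
      by_cases h : ∀ i, σ i ∈ N i
      · rw [if_pos h]
        refine prod_eq_one (fun i _ => ?_)
        exact (mem_filter.1 (h i)).2
      · rw [if_neg h]
        push Not at h
        obtain ⟨i, hi⟩ := h
        refine prod_eq_zero (mem_univ i) ?_
        rcases hw i (σ i) with h | h
        · exact h
        · exact absurd (mem_filter.2 ⟨mem_univ (σ i), h⟩ : σ i ∈ N i) hi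
    rw [sum_congr rfl (fun σ _ => e1 σ), sum_boole, PC.BlockG.cnt, Nat.card_eq_fintype_card,
      Fintype.card_subtype]
  have hphi : ∀ i, 0 ≤ Phi (∑ j, w i j) := by
    intro i
    refine wb_phi_nonneg (sum_nonneg (fun j _ => ?_))
    rcases hw i j with h | h <;> simp [h]
  rw [hper]
  rcases Nat.eq_zero_or_pos (PC.BlockG.cnt N) with h0 | h0
  · rw [h0, Nat.cast_zero]
    exact prod_nonneg (fun i _ => hphi i)
  · have h2 := PC.BlockG.bregman_log (Fintype.card ι) ι ι N rfl h0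
    have h3 : (PC.BlockG.cnt N : ℝ) ≤ Real.exp (∑ i, PC.BlockG.G (N i).card) := by
      rwa [← Real.log_le_iff_le_exp (by exact_mod_cast h0)]
    refine h3.trans ?_
    rw [Real.exp_sum]
    refine prod_le_prod (fun i _ => (Real.exp_pos _).le) (fun i _ => ?_)
    rw [hcard]
    refine wb_G_le ?_
    have h4 : Nonempty {σ : ι ≃ ι // ∀ i, σ i ∈ N i} := by
      by_contra h
      rw [not_nonempty_iff] at h
      rw [PC.BlockG.cnt, Nat.card_of_isEmpty] at h0
      exact lt_irrefl _ h0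
    obtain ⟨σ⟩ := h4
    exact card_pos.2 ⟨_, σ.2 i⟩

theorem wb_ind (S : Finset (ι × ι)) : ∀ w : ι → ι → ℝ, (∀ i j, 0 ≤ w i j ∧ w i j ≤ 1) →
    (∀ i j, (i, j) ∉ S → w i j = 0 ∨ w i j = 1) →
    ∑ σ : Equiv.Perm ι, ∏ i, w i (σ i) ≤ ∏ i, Phi (∑ j, w i j) := by
  induction S using Finset.induction_on with
  | empty =>
    intro w _ h
    exact wb_01 w (fun i j => h i j (notMem_empty _))
  | insert p S hp ih =>
    obtain ⟨a, b⟩ := p
    intro w hw h
    have key : ∀ s : ℝ, (s = 0 ∨ s = 1) →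
        ∑ σ : Equiv.Perm ι, ∏ i, wbUpd w a b s i (σ i) ≤ ∏ i, Phi (∑ j, wbUpd w a b s i j) := by
      intro s hs
      refine ih _ ?_ ?_
      · intro i j
        unfold wbUpd
        split_ifs
        · rcases hs with rfl | rfl <;> norm_num
        · exact hw i j
      · intro i j hij
        unfold wbUpd
        split_ifs with hc
        · exact hs
        · refine h i j ?_
          rw [mem_insert, not_or]
          refine ⟨?_, hij⟩
          rintro heq
          rw [Prod.mk.injEq] at heq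
          exact hc heq
    have k0 := key 0 (Or.inl rfl)
    have k1 := key 1 (Or.inr rfl)
    have hself : wbUpd w a b (w a b) = w := by
      funext i j
      unfold wbUpd
      split_ifs with hc
      · rw [hc.1, hc.2]
      · rfl
    have e := wb_perm w a b (w a b)
    have e' := wb_rowprod w a b (w a b)
    rw [hself] at e e'
    rw [e, e']
    rw [wb_rowprod, add_zero] at k0
    rw [wb_rowprod] at k1
    have hA : 0 ≤ ∏ i ∈ univ.erase a, Phi (∑ j, w i j) :=
      prod_nonneg (fun i _ => wb_phi_nonneg (sum_nonneg (fun j _ => (hw i j).1)))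
    have hs : 0 ≤ ∑ j ∈ univ.erase b, w a j := sum_nonneg (fun j _ => (hw a j).1)
    have hc := mul_le_mul_of_nonneg_right (wb_phi_conc hs (hw a b).1 (hw a b).2) hA
    have m0 := mul_le_mul_of_nonneg_left k0 (by linarith [(hw a b).2] : 0 ≤ 1 - w a b)
    have m1 := mul_le_mul_of_nonneg_left k1 (hw a b).1
    refine (add_le_add m0 m1).trans (le_trans (le_of_eq ?_) hc)
    ring

end

theorem main_Wb : Stmt_Wb := by
  intro ι _ _ w hw
  exact wb_ind univ w hw (fun i j h => absurd (mem_univ _) h)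

end Pool.Agent.PCX
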